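import Pool.Agent.Lib.WT.ML
import Pool.Agent.Lib.SW.LG2

/-!
# WT, row AL: the sum over all classes (copy of WL/AL.lean)

PROOF IN WORDS. `mnTL k (K+1) B`. `Ioc X (X+X)` is the disjoint union of the `wnd X X W a`, `a < W = WX X`; for `N > X ≥ H ≥ s`, `N ≡ a`: `SN W S N = Sa W S a` (`cop_cast` in SP3). Each `s ∈ S` is in `Sa W S a` for exactly `φ(W)` of the `a < W`: `(X/W) c (φ(W) |S| + W H/L^(K+1)) = X (|S| + c H/L^(K+1)) ≤ X (|S| + H/L^K)` as `c ≤ L` (`cX_le_log` in SW).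
-/

set_option autoImplicit false

open Finset

namespace Pool.Agent.Lib.WT

open Pool.Agent.Lib.SW (WX cX SN)
open Pool.Agent.Lib.WL (cT)
open Pool.Agent.Lib.T8 (dT)

open Pool.Agent.Lib.SW (Sa)
open Pool.Agent.Lib.WL (wnd)

private theorem al_dT_nonneg (k X : ℕ) (T : Finset ℕ) (hX : 3 ≤ X) (hT : ∀ q ∈ T, q.Prime ∧ (q : ℝ) ≤ X) :
    0 ≤ dT k T X := by
  unfold dT
  refine sum_nonneg fun q hq => ?_
  obtain ⟨hp, hle⟩ := hT q hq
  have hq2 : (2 : ℝ) ≤ q := by exact_mod_cast hp.two_le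
  have hlq : 0 < Real.log q := Real.log_pos (by linarith)
  have hll : Real.log q ≤ Real.log X := Real.log_le_log (by linarith) hle
  have h1 : 1 ≤ Real.log X / Real.log q := by
    rw [one_le_div hlq]
    exact hll
  have h2 : 0 ≤ Real.log (Real.log X / Real.log q) := Real.log_nonneg h1
  positivity

private theorem al_SN {W X H N a : ℕ} {S : Finset ℕ} (hS : S ⊆ Icc 1 H) (hH : H ≤ X) (hN : X < N)
    (ha : N ≡ a [MOD W]) : SN W S N = Sa W S a := by
  unfold SN Sa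
  ext s
  simp only [mem_filter]
  constructor
  · rintro ⟨h1, h2, h3⟩
    exact ⟨h1, (Pool.Agent.Lib.SW.cop_cast ha h2).1 h3⟩
  · rintro ⟨h1, h2⟩
    have h3 := mem_Icc.1 (hS h1)
    have h4 : s < N := by omega
    exact ⟨h1, h4, (Pool.Agent.Lib.SW.cop_cast ha h4).2 h2⟩

private theorem al_sum (X W : ℕ) (hW : 0 < W) (f : ℕ → ℝ) :
    ∑ N ∈ Ioc X (X + X), f N = ∑ a ∈ range W, ∑ N ∈ wnd X X W a, f N := by
  rw [← sum_fiberwise_of_maps_to (s := Ioc X (X + X)) (t := range W) (g := fun N => N % W)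
    (fun N _ => mem_range.2 (Nat.mod_lt _ hW))]
  refine sum_congr rfl fun a ha => ?_
  unfold wnd
  refine sum_congr ?_ fun _ _ => rfl
  ext N
  simp only [mem_filter]
  have h1 : a % W = a := Nat.mod_eq_of_lt (mem_range.1 ha)
  constructor
  · rintro ⟨h2, h3⟩
    exact ⟨h2, h3.trans h1.symm⟩
  · rintro ⟨h2, h3⟩
    exact ⟨h2, Eq.trans h3 h1⟩

theorem alT (k K B : ℕ) (hk : 2 ≤ k) : ∃ c0 C : ℕ, ∀ ε : ℝ, 0 < ε → ∃ η : ℝ, 0 < η ∧ ∃ X0 : ℕ, ∀ (X H : ℕ) (w' : ℝ) (T : Finset ℕ),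
    X0 ≤ X → 1 ≤ w' → w' ≤ (X : ℝ) ^ η → w' * (Real.log X) ^ C ≤ H → H * H ≤ X → (∀ q ∈ T, q.Prime ∧ (Real.log X) ^ c0 ≤ q ∧ (q : ℝ) ≤ w') →
      1 / (Real.log X) ^ B ≤ ∑ q ∈ T, 1 / (q : ℝ) → ∀ S : Finset ℕ, S ⊆ Icc 1 H →
        ∑ N ∈ Ioc X (X + X), |(cT k T S N : ℝ) - cX X * (SN (WX X) S N).card * (dT k T X / Real.log X)| ≤
          ε * X * (S.card + H / (Real.log X) ^ K) * (dT k T X / Real.log X) := by
  obtain ⟨c0, C, h⟩ := mnTL k (K + 1) B hk
  refine ⟨c0, C, fun ε hε => ?_⟩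
  obtain ⟨η, hη, X0, hX0⟩ := h ε hε
  obtain ⟨X1, hX1⟩ := Pool.Agent.Lib.SW.cX_le_log
  refine ⟨η, hη, max X0 (max X1 3), fun X H w' T hX hw1 hwη hwH hHH hT hB S hS => ?_⟩
  have hXa : X0 ≤ X := le_trans (le_max_left _ _) hX
  have hXb : X1 ≤ X := le_trans (le_trans (le_max_left _ _) (le_max_right _ _)) hX
  have hX3 : 3 ≤ X := le_trans (le_trans (le_max_right _ _) (le_max_right _ _)) hX
  have hX3' : (3 : ℝ) ≤ X := by exact_mod_cast hX3
  obtain ⟨hcL, _⟩ := hX1 X hXb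
  have hL1 : 1 ≤ Real.log X := by
    rw [Real.le_log_iff_exp_le (by linarith)]
    have := Real.exp_one_lt_d9
    linarith
  have hHX : H ≤ X := by
    rcases Nat.eq_zero_or_pos H with h0 | h0
    · omega
    · exact le_trans (Nat.le_mul_of_pos_left H h0) hHH
  have hwX : w' ≤ X := by
    have h1 : w' ≤ w' * (Real.log X) ^ C := le_mul_of_one_le_right (by linarith) (one_le_pow₀ hL1)
    have h2 : (H : ℝ) ≤ X := by exact_mod_cast hHX
    linarith
  have hd : 0 ≤ dT k T X := al_dT_nonneg k X T hX3 fun q hq => ⟨(hT q hq).1, le_trans (hT q hq).2.2 hwX⟩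
  set D : ℝ := dT k T X / Real.log X with hD
  have hD0 : 0 ≤ D := div_nonneg hd (by linarith)
  set L : ℝ := Real.log X with hL
  set c : ℝ := cX X with hc
  set W : ℕ := WX X with hW
  have hφ : 0 < W.totient := Pool.Agent.Lib.SW.WX_totient_pos X
  have hW0 : 0 < W := Nat.totient_pos.1 hφ
  have hφ' : (0 : ℝ) < W.totient := by exact_mod_cast hφ
  have hW' : (0 : ℝ) < W := by exact_mod_cast hW0
  have hce : c = (W : ℝ) / (W.totient : ℝ) := rfl
  have hc0 : 0 ≤ c := by rw [hce]; positivity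
  have hQ : 0 ≤ (H : ℝ) / L ^ (K + 1) := by positivity
  rw [al_sum X W hW0]
  have hcls : ∀ a ∈ range W, ∑ N ∈ wnd X X W a, |(cT k T S N : ℝ) - c * (SN W S N).card * D| ≤
      ε * (X / W) * (c * (((Sa W S a).card : ℝ) + H / L ^ (K + 1)) * D) := by
    intro a _
    have h1 := hX0 X H a w' T hXa hw1 hwη hwH hHH hT hB S hS
    have h2 : ∑ N ∈ wnd X X W a, |(cT k T S N : ℝ) - c * (SN W S N).card * D| =
        ∑ N ∈ wnd X X W a, |(cT k T S N : ℝ) - c * (Sa W S a).card * D| := by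
      refine sum_congr rfl fun N hN => ?_
      unfold wnd at hN
      rw [mem_filter, mem_Ioc] at hN
      rw [al_SN hS hHX hN.1.1 hN.2]
    rw [h2]
    refine h1.trans ?_
    have h3 : max ((Sa W S a).card : ℝ) (H / L ^ (K + 1)) ≤ ((Sa W S a).card : ℝ) + H / L ^ (K + 1) :=
      max_le (le_add_of_nonneg_right hQ) (le_add_of_nonneg_left (Nat.cast_nonneg _))
    exact mul_le_mul_of_nonneg_left
      (mul_le_mul_of_nonneg_right (mul_le_mul_of_nonneg_left h3 hc0) hD0) (by positivity)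
  refine (sum_le_sum hcls).trans ?_
  have hsum : ∑ a ∈ range W, ε * (X / W) * (c * (((Sa W S a).card : ℝ) + H / L ^ (K + 1)) * D) =
      ε * X * (S.card + c * (H / L ^ (K + 1))) * D := by
    have h1 : ∑ a ∈ range W, (((Sa W S a).card : ℝ) + H / L ^ (K + 1)) =
        (S.card : ℝ) * W.totient + W * (H / L ^ (K + 1)) := by
      rw [sum_add_distrib, sum_const, card_range, nsmul_eq_mul, ← Nat.cast_sum,
        Pool.Agent.Lib.SW.sum_card_Sa W hW0 S]
      push_cast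
      ring
    rw [← mul_sum, ← sum_mul, ← mul_sum, h1, hce]
    field_simp
  rw [hsum]
  have h4 : c * (H / L ^ (K + 1)) ≤ H / L ^ K := by
    have hLp : 0 < L := by linarith
    have h5 : (H : ℝ) / L ^ K = L * (H / L ^ (K + 1)) := by
      rw [pow_succ]
      field_simp
    rw [h5]
    exact mul_le_mul_of_nonneg_right hcL hQ
  exact mul_le_mul_of_nonneg_right (mul_le_mul_of_nonneg_left (by linarith) (by positivity)) hD0

end Pool.Agent.Lib.WT
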