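import Pool.Agent.Lib.WT.Bs

/-!
# WT, row BL: `bsT` in mean (copy of WT/Bs.lean without the Markov inequalities)

PROOF IN WORDS. WT/Bs.lean bounds the number of pairs `(N, s)`, `N ∈ wnd X X W a`, of kind (ii) by `4 H X/(W L^c0)` and of kind (iii) by `|Sa| ((X/W) m0 + R^2)`: both are at most `(ε/2) (X/W) c m D/L`. Nothing else is needed. (The author of WT/Bs may put the common part into a lemma of Bs.lean without `private`.)
-/

set_option autoImplicit false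

open Finset

namespace Pool.Agent.Lib.WT

open Pool.Agent.Lib.SW (WX wX cX Sa)
open Pool.Agent.Lib.WL (wnd)
open Pool.Agent.Lib.T8 (dT QE)
open Pool.Agent.Lib.G8 (EL)
open Pool.Agent.Lib.VKT (smo)

/-- a class in the long range -/
private theorem bl_cnt (X d v : ℕ) (hd : 0 < d) :
    |(((Ioc X (X + X)).filter fun N => N ≡ v [MOD d]).card : ℝ) - (X : ℝ) / d| ≤ 1 := by
  have h := Nat.Ioc_filter_modEq_card X (X + X) hd v
  have hd' : (0 : ℚ) < d := by exact_mod_cast hd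
  obtain ⟨A, hA⟩ : ∃ A : ℤ, A = ⌊(((X + X : ℕ) : ℚ) - v) / d⌋ := ⟨_, rfl⟩
  obtain ⟨B, hB⟩ : ∃ B : ℤ, B = ⌊((X : ℚ) - v) / d⌋ := ⟨_, rfl⟩
  have h1 : (A : ℚ) ≤ (((X + X : ℕ) : ℚ) - v) / d := hA ▸ Int.floor_le _
  have h2 : (((X + X : ℕ) : ℚ) - v) / d < A + 1 := hA ▸ Int.lt_floor_add_one _
  have h3 : (B : ℚ) ≤ ((X : ℚ) - v) / d := hB ▸ Int.floor_le _
  have h4 : ((X : ℚ) - v) / d < B + 1 := hB ▸ Int.lt_floor_add_one _
  have h5 : (((X + X : ℕ) : ℚ) - v) / d = ((X : ℚ) - v) / d + (X : ℚ) / d := by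
    push_cast
    rw [← add_div]
    ring_nf
  have h6 : (0 : ℚ) ≤ (X : ℚ) / d := by positivity
  have h7 : ((((Ioc X (X + X)).filter fun N => N ≡ v [MOD d]).card : ℤ) : ℚ) = ((max (A - B) 0 : ℤ) : ℚ) := by
    rw [h, hA, hB]
  have h8 : |((((Ioc X (X + X)).filter fun N => N ≡ v [MOD d]).card : ℤ) : ℚ) - (X : ℚ) / d| ≤ 1 := by
    rw [h7]
    rcases le_total (A - B) 0 with h9 | h9
    · rw [max_eq_right h9]
      have h10 : (A : ℚ) - B ≤ 0 := by exact_mod_cast h9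
      rw [abs_le]
      push_cast
      constructor <;> linarith
    · rw [max_eq_left h9, abs_le]
      push_cast
      constructor <;> linarith
  have h9 : ((|((((Ioc X (X + X)).filter fun N => N ≡ v [MOD d]).card : ℤ) : ℚ) - (X : ℚ) / d| : ℚ) : ℝ) ≤ ((1 : ℚ) : ℝ) :=
    Rat.cast_le.2 h8
  push_cast at h9
  exact h9

/-- the `N` of the class with `d ∣ N - s` -/
private theorem bl_ap {X W a d s : ℕ} (hW : 1 ≤ W) (hd : 1 ≤ d) (hc : Nat.Coprime W d) (hs : s ≤ X) :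
    |(((wnd X X W a).filter fun N => d ∣ N - s).card : ℝ) - (X : ℝ) / (W * d)| ≤ 1 := by
  obtain ⟨r, hr1, hr2⟩ := Nat.chineseRemainder hc a s
  have h1 : ((wnd X X W a).filter fun N => d ∣ N - s) = (Ioc X (X + X)).filter fun N => N ≡ r [MOD W * d] := by
    unfold wnd
    rw [filter_filter]
    refine filter_congr fun N hN => ?_
    have hN1 := mem_Ioc.1 hN
    rw [← Nat.modEq_and_modEq_iff_modEq_mul hc, ← Nat.modEq_iff_dvd' (show s ≤ N by omega)]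
    constructor
    · rintro ⟨h2, h3⟩
      exact ⟨h2.trans hr1.symm, h3.symm.trans hr2.symm⟩
    · rintro ⟨h2, h3⟩
      exact ⟨h2.trans hr1, (h3.trans hr2).symm⟩
  rw [h1]
  have := bl_cnt X (W * d) r (Nat.mul_pos hW hd)
  push_cast at this
  exact this

/-- the mean value of a type I function -/
private theorem bl_mean {X a R s : ℕ} {μ : ℕ → ℝ} (hs : s ≤ X)
    (h1 : ∀ e, μ e ≠ 0 → 1 ≤ e ∧ e ≤ R ∧ Nat.Coprime (WX X) e)
    (h2 : ∀ e, |μ e| ≤ (e.divisors.card : ℝ)) :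
    ∑ N ∈ wnd X X (WX X) a, ∑ e ∈ (N - s).divisors, μ e ≤ (X : ℝ) / WX X * (∑ e ∈ Icc 1 R, μ e / e) + (R : ℝ) ^ 2 := by
  classical
  have hW := Pool.Agent.Lib.SW.WX_pos X
  have hW0 : (0 : ℝ) < WX X := by exact_mod_cast hW
  have h3 : ∀ N ∈ wnd X X (WX X) a, ∑ e ∈ (N - s).divisors, μ e = ∑ e ∈ Icc 1 R, if e ∣ N - s then μ e else 0 := by
    intro N hN
    have hN1 := mem_Ioc.1 (mem_filter.1 hN).1
    have hns : N - s ≠ 0 := by omega
    rw [← sum_filter, ← sum_filter_ne_zero, ← sum_filter_ne_zero (s := (Icc 1 R).filter fun e => e ∣ N - s)]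
    refine sum_congr ?_ fun _ _ => rfl
    ext e
    simp only [mem_filter, Nat.mem_divisors, mem_Icc]
    constructor
    · rintro ⟨⟨h4, -⟩, h5⟩
      exact ⟨⟨⟨(h1 e h5).1, (h1 e h5).2.1⟩, h4⟩, h5⟩
    · rintro ⟨⟨-, h4⟩, h5⟩
      exact ⟨⟨h4, hns⟩, h5⟩
  rw [sum_congr rfl h3, sum_comm]
  have h4 : ∀ e ∈ Icc 1 R, ∑ N ∈ wnd X X (WX X) a, (if e ∣ N - s then μ e else 0) ≤ (X : ℝ) / WX X * (μ e / e) + R := by
    intro e he
    have he1 := mem_Icc.1 he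
    rw [← sum_filter, sum_const, nsmul_eq_mul]
    by_cases h5 : μ e = 0
    · rw [h5]
      simp
    · obtain ⟨h6, h7, h8⟩ := h1 e h5
      have h9 := bl_ap (X := X) (a := a) hW h6 h8 hs
      have h10 : |μ e| ≤ R := by
        refine (h2 e).trans ?_
        have : e.divisors.card ≤ e := Nat.card_divisors_le_self e
        exact_mod_cast this.trans h7
      have he0 : (0 : ℝ) < e := by exact_mod_cast h6
      have h11 : (((wnd X X (WX X) a).filter fun N => e ∣ N - s).card : ℝ) * μ e - (X : ℝ) / WX X * (μ e / e) =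
          ((((wnd X X (WX X) a).filter fun N => e ∣ N - s).card : ℝ) - (X : ℝ) / (WX X * e)) * μ e := by
        field_simp
      have h12 : ((((wnd X X (WX X) a).filter fun N => e ∣ N - s).card : ℝ) - (X : ℝ) / (WX X * e)) * μ e ≤ R := by
        refine (le_abs_self _).trans ?_
        rw [abs_mul]
        calc _ ≤ 1 * |μ e| := mul_le_mul_of_nonneg_right h9 (abs_nonneg _)
          _ = |μ e| := one_mul _
          _ ≤ R := h10
      linarith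
  refine (sum_le_sum h4).trans ?_
  rw [sum_add_distrib, ← mul_sum, sum_const, Nat.card_Icc, Nat.add_sub_cancel, nsmul_eq_mul]
  nlinarith

/-- a prime larger than `wX` is coprime to `W` -/
private theorem bl_cop {X r : ℕ} (hr : r.Prime) (h : wX X < r) : Nat.Coprime (WX X) (r ^ 2) := by
  apply Nat.Coprime.pow_right
  unfold WX primorial
  apply Nat.Coprime.prod_left
  intro p hp
  obtain ⟨hp1, hp2⟩ := mem_filter.1 hp
  rw [Nat.coprime_primes hp2 hr]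
  have := mem_range.1 hp1
  omega

open Classical in
/-- exchange of the order of counting -/
private theorem bl_swap (A S : Finset ℕ) (P : ℕ → ℕ → Prop) :
    ∑ N ∈ A, ((S.filter fun s => P N s).card : ℝ) = ∑ s ∈ S, ((A.filter fun N => P N s).card : ℝ) := by
  simp only [card_filter, Nat.cast_sum]
  exact sum_comm

open Classical in
/-- the `N` of the class with `r ^ 2 ∣ N - s` for a large prime `r` -/
private theorem bl_sq {X a w0 s : ℕ} (hw0 : 1 ≤ w0) (hw : wX X ≤ w0) (hs : s ≤ X) :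
    (((wnd X X (WX X) a).filter fun N => ∃ r : ℕ, r.Prime ∧ w0 < r ∧ r ^ 2 ∣ N - s).card : ℝ) ≤
      (X : ℝ) / WX X / w0 + √(2 * X) := by
  classical
  have hW := Pool.Agent.Lib.SW.WX_pos X
  have hW0 : (0 : ℝ) < WX X := by exact_mod_cast hW
  obtain ⟨y, hy⟩ : ∃ y : ℕ, y = Nat.sqrt (2 * X) := ⟨_, rfl⟩
  have h1 : ((wnd X X (WX X) a).filter fun N => ∃ r : ℕ, r.Prime ∧ w0 < r ∧ r ^ 2 ∣ N - s) ⊆
      ((Ioc w0 (max w0 y)).filter fun r => r.Prime).biUnion fun r => (wnd X X (WX X) a).filter fun N => r ^ 2 ∣ N - s := by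
    intro N hN
    obtain ⟨h2, r, hr, hwr, hd⟩ := mem_filter.1 hN
    have hN1 := mem_Ioc.1 (mem_filter.1 h2).1
    have h3 : r ^ 2 ≤ N - s := Nat.le_of_dvd (by omega) hd
    have h4 : r ≤ y := by
      rw [hy, Nat.le_sqrt']
      omega
    rw [mem_biUnion]
    exact ⟨r, mem_filter.2 ⟨mem_Ioc.2 ⟨hwr, h4.trans (le_max_right _ _)⟩, hr⟩, mem_filter.2 ⟨h2, hd⟩⟩
  have h2 : (((wnd X X (WX X) a).filter fun N => ∃ r : ℕ, r.Prime ∧ w0 < r ∧ r ^ 2 ∣ N - s).card : ℝ) ≤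
      ∑ r ∈ (Ioc w0 (max w0 y)).filter fun r => r.Prime, (((wnd X X (WX X) a).filter fun N => r ^ 2 ∣ N - s).card : ℝ) := by
    exact_mod_cast (card_le_card h1).trans card_biUnion_le
  have h3 : ∀ r ∈ (Ioc w0 (max w0 y)).filter fun r => r.Prime,
      (((wnd X X (WX X) a).filter fun N => r ^ 2 ∣ N - s).card : ℝ) ≤ (X : ℝ) / WX X * ((r : ℝ) ^ 2)⁻¹ + 1 := by
    intro r hr
    obtain ⟨hr1, hr2⟩ := mem_filter.1 hr
    have hr3 := mem_Ioc.1 hr1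
    have h4 := (abs_le.1 (bl_ap (X := X) (a := a) hW (Nat.one_le_pow 2 r hr2.one_lt.le) (bl_cop hr2 (by omega)) hs)).2
    have h5 : (X : ℝ) / WX X * ((r : ℝ) ^ 2)⁻¹ = (X : ℝ) / (WX X * ((r ^ 2 : ℕ) : ℝ)) := by
      push_cast
      rw [← div_eq_mul_inv, div_div]
    linarith
  have h4 : ∑ r ∈ (Ioc w0 (max w0 y)).filter (fun r => r.Prime), ((X : ℝ) / WX X * ((r : ℝ) ^ 2)⁻¹ + 1) ≤
      ∑ r ∈ Ioc w0 (max w0 y), ((X : ℝ) / WX X * ((r : ℝ) ^ 2)⁻¹ + 1) :=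
    sum_le_sum_of_subset_of_nonneg (filter_subset _ _) fun r _ _ => by positivity
  have h5 := sum_Ioc_inv_sq_le_sub (α := ℝ) (k := w0) (n := max w0 y) (by omega) (le_max_left _ _)
  have h6 : (0 : ℝ) ≤ ((max w0 y : ℕ) : ℝ)⁻¹ := by positivity
  have h7 : ((max w0 y - w0 : ℕ) : ℝ) ≤ √(2 * X) := by
    have h8 : max w0 y - w0 ≤ y := by omega
    have h9 : (y : ℝ) ≤ √(2 * X) := by
      rw [hy]
      have := Real.nat_sqrt_le_real_sqrt (a := 2 * X)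
      push_cast at this
      exact this
    exact (by exact_mod_cast h8 : ((max w0 y - w0 : ℕ) : ℝ) ≤ y).trans h9
  refine (h2.trans (sum_le_sum h3)).trans (h4.trans ?_)
  rw [sum_add_distrib, ← mul_sum, sum_const, Nat.card_Ioc, nsmul_eq_mul, mul_one]
  have h8 : (X : ℝ) / WX X * ∑ r ∈ Ioc w0 (max w0 y), ((r : ℝ) ^ 2)⁻¹ ≤ (X : ℝ) / WX X * (w0 : ℝ)⁻¹ := by
    refine mul_le_mul_of_nonneg_left ?_ (by positivity)
    linarith
  rw [div_eq_mul_inv ((X : ℝ) / WX X)]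
  linarith

open Classical in
/-- the pointwise bound -/
private theorem bl_pt {k U w0 X H a N : ℕ} {T S : Finset ℕ} {μ : ℕ → ℝ} (hk : 2 ≤ k)
    (hT : ∀ q ∈ T, q.Prime ∧ w0 < q ∧ 2 * q ≤ U) (hTw : ∀ q ∈ T, wX X < q)
    (hS : S ⊆ Icc 1 H) (hHX : U ^ k + H ≤ X) (hN : N ∈ wnd X X (WX X) a)
    (h0 : ∀ n : ℕ, 1 ≤ n → 0 ≤ ∑ e ∈ n.divisors, μ e)
    (h1 : ∀ n : ℕ, 1 ≤ n → smo U n ∈ QE (k - 1) U T (U ^ k) → 1 ≤ ∑ e ∈ n.divisors, μ e) :
    (cN k U T S N : ℝ) ≤ ((S.filter fun s => ∃ q : ℕ, q.Prime ∧ w0 < q ∧ q ^ 2 ∣ N - s).card : ℝ) +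
      ∑ s ∈ Sa (WX X) S a, ∑ e ∈ (N - s).divisors, μ e := by
  classical
  have hN' := mem_filter.1 hN
  have hN1 := mem_Ioc.1 hN'.1
  have hSN : ∀ s ∈ S, 1 ≤ s ∧ s < N ∧ U ^ k < N - s := fun s hs => by
    have := mem_Icc.1 (hS hs)
    omega
  have hcard : cN k U T S N ≤ (S.filter fun s => ∃ q : ℕ, q.Prime ∧ w0 < q ∧ q ^ 2 ∣ N - s).card +
      ((Sa (WX X) S a).filter fun s => smo U (N - s) ∈ QE (k - 1) U T (U ^ k)).card := by
    unfold cN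
    refine (card_le_card (t := (S.filter fun s => ∃ q : ℕ, q.Prime ∧ w0 < q ∧ q ^ 2 ∣ N - s) ∪
      ((Sa (WX X) S a).filter fun s => smo U (N - s) ∈ QE (k - 1) U T (U ^ k))) ?_).trans (card_union_le _ _)
    intro s hs
    obtain ⟨hsS, hsN, hl, hm, hE⟩ := mem_filter.1 hs
    obtain ⟨-, h2⟩ := Pool.Agent.Lib.T8.spZ hk hT le_rfl (hSN s hsS).2.2 hl hm
    rcases h2 hE with ⟨q, hq, hwq, hd⟩ | h3
    · exact mem_union_left _ (mem_filter.2 ⟨hsS, q, hq, hwq, hd⟩)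
    · refine mem_union_right _ (mem_filter.2 ⟨Pool.Agent.Lib.SW.mem_Sa.2 ⟨hsS, ?_⟩, h3⟩)
      rw [← Pool.Agent.Lib.SW.cop_cast hN'.2 hsN]
      apply Nat.Coprime.symm
      unfold WX primorial
      apply Nat.Coprime.prod_left
      intro p hp
      obtain ⟨hp1, hp2⟩ := mem_filter.1 hp
      rw [Nat.Prime.coprime_iff_not_dvd hp2]
      intro hd
      have h5 := Nat.minFac_le_of_dvd hp2.two_le hd
      have h6 := hTw _ hm
      have h7 := mem_range.1 hp1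
      omega
  have hc3 : (((Sa (WX X) S a).filter fun s => smo U (N - s) ∈ QE (k - 1) U T (U ^ k)).card : ℝ) ≤
      ∑ s ∈ Sa (WX X) S a, ∑ e ∈ (N - s).divisors, μ e := by
    have h4 : ∀ s ∈ Sa (WX X) S a, 1 ≤ N - s := fun s hs => by
      have := hSN s (Pool.Agent.Lib.SW.mem_Sa.1 hs).1
      omega
    calc (((Sa (WX X) S a).filter fun s => smo U (N - s) ∈ QE (k - 1) U T (U ^ k)).card : ℝ) =
        ∑ s ∈ (Sa (WX X) S a).filter fun s => smo U (N - s) ∈ QE (k - 1) U T (U ^ k), (1 : ℝ) := by simp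
      _ ≤ ∑ s ∈ (Sa (WX X) S a).filter fun s => smo U (N - s) ∈ QE (k - 1) U T (U ^ k), ∑ e ∈ (N - s).divisors, μ e :=
          sum_le_sum fun s hs => by
            obtain ⟨h5, h6⟩ := mem_filter.1 hs
            exact h1 _ (h4 s h5) h6
      _ ≤ _ := sum_le_sum_of_subset_of_nonneg (filter_subset _ _) fun s hs _ => h0 _ (h4 s hs)
  have h9 : (cN k U T S N : ℝ) ≤ ((S.filter fun s => ∃ q : ℕ, q.Prime ∧ w0 < q ∧ q ^ 2 ∣ N - s).card : ℝ) +
      (((Sa (WX X) S a).filter fun s => smo U (N - s) ∈ QE (k - 1) U T (U ^ k)).card : ℝ) := by exact_mod_cast hcard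
  linarith

/-- the lower bound of the density -/
private theorem bl_dT {k B M X : ℕ} {T : Finset ℕ} {η : ℝ} (hM : 1 ≤ M) (hη : η ≤ 1 / (4 * M))
    (hL : ((k - 2).factorial : ℝ) ≤ Real.log X) (hL1 : 1 ≤ Real.log X) (hX : 1 ≤ X)
    (hT : ∀ q ∈ T, 2 ≤ q ∧ (q : ℝ) ≤ (X : ℝ) ^ η) (hs : 1 / (Real.log X) ^ B ≤ ∑ q ∈ T, 1 / (q : ℝ)) :
    1 / (Real.log X) ^ (B + 1) ≤ dT k T X := by
  have hf : (0 : ℝ) < ((k - 2).factorial : ℝ) := by exact_mod_cast Nat.factorial_pos _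
  have h1 : ∀ q ∈ T, 1 / (q : ℝ) * (1 / Real.log X) ≤
      1 / (q : ℝ) * ((Real.log (Real.log X / Real.log q)) ^ (k - 2) / ((k - 2).factorial : ℝ)) := by
    intro q hq
    obtain ⟨h2, h3⟩ := hT q hq
    have hq0 : (0 : ℝ) < q := by
      have : 0 < q := by omega
      exact_mod_cast this
    have hlq : 0 < Real.log q := Real.log_pos (by
      have : 1 < q := by omega
      exact_mod_cast this)
    have hX0 : (0 : ℝ) < X := by exact_mod_cast hX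
    have h4 : Real.log q ≤ η * Real.log X := by
      rw [← Real.log_rpow hX0]
      exact Real.log_le_log hq0 h3
    have hMr : (1 : ℝ) ≤ M := by exact_mod_cast hM
    have h5 : Real.log q ≤ 1 / 4 * Real.log X := by
      refine h4.trans (mul_le_mul_of_nonneg_right (hη.trans ?_) (by linarith))
      exact one_div_le_one_div_of_le (by norm_num) (by linarith)
    have h6 : 4 ≤ Real.log X / Real.log q := by
      rw [le_div_iff₀ hlq]
      linarith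
    have h7 : 1 ≤ Real.log (Real.log X / Real.log q) := by
      rw [Real.le_log_iff_exp_le (by linarith)]
      have := Real.exp_one_lt_d9
      linarith
    refine mul_le_mul_of_nonneg_left ?_ (by positivity)
    calc 1 / Real.log X ≤ 1 / ((k - 2).factorial : ℝ) := one_div_le_one_div_of_le hf hL
      _ ≤ _ := div_le_div_of_nonneg_right (one_le_pow₀ h7) hf.le
  unfold dT
  refine le_trans ?_ (sum_le_sum h1)
  rw [← sum_mul, pow_succ, ← one_div_mul_one_div]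
  exact mul_le_mul_of_nonneg_right hs (by positivity)

/-- the size of `U` -/
private theorem bl_U {M X U : ℕ} (hM : 1 ≤ M) (hX : 3 ≤ (X : ℝ) ^ (1 / (4 * M : ℝ))) (hU : X ≤ (U + 1) ^ (2 * M)) :
    2 * (X : ℝ) ^ (1 / (4 * M : ℝ)) ≤ U := by
  have hMr : (1 : ℝ) ≤ M := by exact_mod_cast hM
  have h2 : (((X : ℝ) ^ (1 / (4 * M : ℝ))) ^ 2) ^ (2 * M) = X := by
    rw [← pow_mul, ← Real.rpow_natCast, ← Real.rpow_mul (Nat.cast_nonneg _)]
    have : 1 / (4 * M : ℝ) * ((2 * (2 * M) : ℕ) : ℝ) = 1 := by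
      push_cast
      field_simp
      norm_num
    rw [this, Real.rpow_one]
  have h3 : (((X : ℝ) ^ (1 / (4 * M : ℝ))) ^ 2) ^ (2 * M) ≤ ((U : ℝ) + 1) ^ (2 * M) := by
    rw [h2]
    exact_mod_cast hU
  have h4 := le_of_pow_le_pow_left₀ (by omega) (by positivity) h3
  nlinarith

private theorem bl_e1 (K B : ℕ) (X : ℝ) {L : ℝ} (hL : 0 < L) : X / L ^ (K + B + 2) = 1 * (X / L ^ K) * ((1 / L ^ (B + 1)) / L) := by
  rw [show K + B + 2 = K + (B + 1) + 1 by ring, pow_succ L (K + (B + 1)), pow_add L K (B + 1)]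
  field_simp

private theorem bl_e2 {M C1 L h c m D e : ℝ} (hM : 0 < M) (hC1 : 0 < C1) (hL : 0 < L) :
    m * (h * (C1 * (c / (L / (4 * M))) * (e ^ 2 / (16 * C1 * M) * D))) = e ^ 2 / 4 * h * (c * m * (D / L)) := by
  field_simp
  ring

/-- the numerical inequalities -/
private theorem bl_num1 {K B : ℕ} {e L h Hr w0 τ : ℝ} (he : 0 < e) (hL : 1 ≤ L) (hh : 0 ≤ h) (hH : 0 ≤ Hr)
    (hw : L ^ (K + B + 8) / 2 ≤ w0) (h1 : 8 ≤ e ^ 2 * L ^ 6) (hτ : Hr / L ^ (K + B + 2) ≤ τ) :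
    Hr * (h / w0) ≤ e ^ 2 / 4 * h * τ := by
  have hL0 : 0 < L := by linarith
  have hw0 : 0 < L ^ (K + B + 8) / 2 := by positivity
  calc Hr * (h / w0) ≤ Hr * (h / (L ^ (K + B + 8) / 2)) := by gcongr
    _ = h * (2 / L ^ 6) * (Hr / L ^ (K + B + 2)) := by
        rw [show K + B + 8 = (K + B + 2) + 6 by ring, pow_add L (K + B + 2) 6]
        field_simp
    _ ≤ h * (e ^ 2 / 4) * (Hr / L ^ (K + B + 2)) := by
        have : 2 / L ^ 6 ≤ e ^ 2 / 4 := by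
          rw [div_le_div_iff₀ (by positivity) (by norm_num)]
          linarith
        gcongr
    _ ≤ h * (e ^ 2 / 4) * τ := by gcongr
    _ = _ := by ring

private theorem bl_num2 {K B : ℕ} {e L X W Hr τ : ℝ} (he : 0 < e) (hL : 1 ≤ L) (hX : 0 ≤ X) (hW : 0 < W) (hWL : W ≤ L ^ 2)
    (hH : 0 ≤ Hr) (h1 : 8 * L ^ (K + B + 4) ≤ e ^ 2 * √X) (hτ : Hr / L ^ (K + B + 2) ≤ τ) :
    Hr * √(2 * X) ≤ e ^ 2 / 4 * (X / W) * τ := by
  have hL0 : 0 < L := by linarith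
  have h2 : √(2 * X) ≤ 2 * √X := by
    rw [Real.sqrt_le_left (by positivity), mul_pow, Real.sq_sqrt hX]
    linarith
  have h3 : √X * √X = X := Real.mul_self_sqrt hX
  have h4 : 2 * √X * L ^ (K + B + 2) ≤ e ^ 2 / 4 * (X / W) := by
    rw [← mul_div_assoc, le_div_iff₀ hW]
    have h5 : 2 * √X * L ^ (K + B + 2) * W ≤ 2 * √X * L ^ (K + B + 2) * L ^ 2 := by gcongr
    have h6 := mul_le_mul_of_nonneg_left h1 (Real.sqrt_nonneg X)
    calc 2 * √X * L ^ (K + B + 2) * W ≤ 2 * √X * L ^ (K + B + 2) * L ^ 2 := h5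
      _ = (√X * (8 * L ^ (K + B + 4))) / 4 := by ring
      _ ≤ (√X * (e ^ 2 * √X)) / 4 := by linarith
      _ = e ^ 2 / 4 * (√X * √X) := by ring
      _ = _ := by rw [h3]
  calc Hr * √(2 * X) ≤ Hr * (2 * √X) := by gcongr
    _ = 2 * √X * L ^ (K + B + 2) * (Hr / L ^ (K + B + 2)) := by field_simp
    _ ≤ e ^ 2 / 4 * (X / W) * τ := by gcongr

private theorem bl_num3 {K B : ℕ} {e L X W R2 c m D τ : ℝ} (he : 0 < e) (hL : 1 ≤ L) (hX : 0 ≤ X) (hW : 0 < W) (hWL : W ≤ L ^ 2)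
    (hm : 0 ≤ m) (hc : 1 ≤ c) (hD : 1 / L ^ (B + 1) ≤ D) (hR : R2 ≤ √X) (h1 : 8 * L ^ (K + B + 4) ≤ e ^ 2 * √X)
    (hτ : τ = c * m * (D / L)) : m * R2 ≤ e ^ 2 / 4 * (X / W) * τ := by
  have hL0 : 0 < L := by linarith
  have h3 : √X * √X = X := Real.mul_self_sqrt hX
  have h2 : m / L ^ (B + 2) ≤ τ := by
    rw [hτ]
    calc m / L ^ (B + 2) = 1 * m * ((1 / L ^ (B + 1)) / L) := by
          rw [show B + 2 = (B + 1) + 1 by ring, pow_succ L (B + 1)]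
          field_simp
      _ ≤ c * m * (D / L) := by gcongr
  have h4 : √X * L ^ (B + 2) ≤ e ^ 2 / 4 * (X / W) := by
    rw [← mul_div_assoc, le_div_iff₀ hW]
    have h5 : √X * L ^ (B + 2) * W ≤ √X * L ^ (B + 2) * L ^ 2 := by gcongr
    have h6 := mul_le_mul_of_nonneg_left h1 (Real.sqrt_nonneg X)
    have h7 : L ^ (B + 4) ≤ L ^ (K + B + 4) := pow_le_pow_right₀ hL (by omega)
    have h8 : √X * (4 * L ^ (B + 4)) ≤ √X * (8 * L ^ (K + B + 4)) := by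
      have h9 : 0 ≤ L ^ (K + B + 4) := by positivity
      have : 4 * L ^ (B + 4) ≤ 8 * L ^ (K + B + 4) := by linarith
      gcongr
    calc √X * L ^ (B + 2) * W ≤ √X * L ^ (B + 2) * L ^ 2 := h5
      _ = (√X * (4 * L ^ (B + 4))) / 4 := by ring
      _ ≤ (√X * (e ^ 2 * √X)) / 4 := by linarith
      _ = e ^ 2 / 4 * (√X * √X) := by ring
      _ = _ := by rw [h3]
  calc m * R2 ≤ m * √X := by gcongr
    _ = √X * L ^ (B + 2) * (m / L ^ (B + 2)) := by field_simp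
    _ ≤ e ^ 2 / 4 * (X / W) * τ := by gcongr

theorem bsTL (k K B : ℕ) (hk : 2 ≤ k) : ∃ c0 M1 : ℕ, ∀ M : ℕ, M1 ≤ M → ∀ ε : ℝ, 0 < ε → ∃ η : ℝ, 0 < η ∧ ∃ X0 : ℕ, ∀ (X H a U : ℕ) (T : Finset ℕ),
    X0 ≤ X → U ^ (2 * M) ≤ X → X ≤ (U + 1) ^ (2 * M) → (∀ q ∈ T, q.Prime ∧ (Real.log X) ^ c0 ≤ q ∧ (q : ℝ) ≤ (X : ℝ) ^ η) →
      1 / (Real.log X) ^ B ≤ ∑ q ∈ T, 1 / (q : ℝ) → 1 ≤ H → H * H ≤ X → ∀ S : Finset ℕ, S ⊆ Icc 1 H →
        ∑ N ∈ wnd X X (WX X) a, (cN k U T S N : ℝ) ≤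
          ε * (X / WX X) * (cX X * max ((Sa (WX X) S a).card : ℝ) (H / (Real.log X) ^ K) * (dT k T X / Real.log X)) := by
  classical
  obtain ⟨C1, E, hC1, hE, hmj⟩ := Pool.Agent.Lib.WL.mjW k hk
  refine ⟨K + B + 8, 4 * E + k, fun M hM ε hε => ?_⟩
  have hM1 : 1 ≤ M := by omega
  have hMr : (1 : ℝ) ≤ M := by exact_mod_cast hM1
  obtain ⟨e, he0, heε, he1⟩ : ∃ e : ℝ, 0 < e ∧ e ≤ ε ∧ e ≤ 1 := ⟨min ε 1, lt_min hε one_pos, min_le_left _ _, min_le_right _ _⟩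
  obtain ⟨ε', hε'⟩ : ∃ ε' : ℝ, ε' = e ^ 2 / (16 * C1 * M) := ⟨_, rfl⟩
  have hε'0 : 0 < ε' := by rw [hε']; positivity
  obtain ⟨η', hη', X1, hqs⟩ := Pool.Agent.Lib.WL.qsW k M hk (by omega) ε' hε'0
  refine ⟨min η' (1 / (4 * M)), lt_min hη' (by positivity), ?_⟩
  obtain ⟨X2, hX2⟩ := Filter.eventually_atTop.1 (((Pool.Agent.Lib.SW.ev_log ((k - 2).factorial : ℝ)).and (Pool.Agent.Lib.SW.ev_log 2)).and
    ((Pool.Agent.Lib.SW.ev_log (8 / e ^ 2)).and ((Pool.Agent.Lib.SW.ev_pow ((8 / e ^ 2) ^ 2) (2 * (K + B + 4))).and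
      (Filter.eventually_ge_atTop (3 ^ (4 * M))))))
  refine ⟨max X1 X2, fun X H a U T hX hU1 hU2 hT hTs hH1 hHX S hS => ?_⟩
  obtain ⟨⟨ha, hb⟩, hc, hd, hg⟩ := hX2 X ((le_max_right _ _).trans hX)
  have hXX1 : X1 ≤ X := (le_max_left _ _).trans hX
  have hDL := fun h1 h2 => bl_dT (k := k) (B := B) (X := X) (T := T) hM1 (min_le_right η' (1 / (4 * (M : ℝ)))) ha h1 h2
    (fun q hq => ⟨(hT q hq).1.two_le, (hT q hq).2.2⟩) hTs
  have hW := Pool.Agent.Lib.SW.WX_le X (by linarith)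
  have hwX := Pool.Agent.Lib.SW.wX_le X (by linarith)
  have hX4 : 4 ≤ X := by
    have : 3 ^ 4 ≤ 3 ^ (4 * M) := Nat.pow_le_pow_right (by norm_num) (by omega)
    omega
  have hrp : ∀ q ∈ T, (q : ℝ) ≤ (X : ℝ) ^ (1 / (4 * M : ℝ)) ∧ (q : ℝ) ≤ (X : ℝ) ^ η' := fun q hq => by
    have hX0 : (1 : ℝ) ≤ X := by exact_mod_cast (by omega : 1 ≤ X)
    exact ⟨(hT q hq).2.2.trans (Real.rpow_le_rpow_of_exponent_le hX0 (min_le_right _ _)),
      (hT q hq).2.2.trans (Real.rpow_le_rpow_of_exponent_le hX0 (min_le_left _ _))⟩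
  have hqs' := hqs X U T hXX1 hU1 hU2
  obtain ⟨L, hL⟩ : ∃ L : ℝ, L = Real.log X := ⟨_, rfl⟩
  rw [← hL] at ha hb hc hd hT hTs hDL hW hwX hqs' ⊢
  have hL1 : 1 ≤ L := by linarith
  have hL0 : 0 < L := by linarith
  have hX1 : 1 ≤ X := by omega
  have hX0 : (1 : ℝ) ≤ X := by exact_mod_cast hX1
  have hW0 : (0 : ℝ) < WX X := by exact_mod_cast Pool.Agent.Lib.SW.WX_pos X
  -- the size of U
  have hy3 : 3 ≤ (X : ℝ) ^ (1 / (4 * M : ℝ)) := by
    have h3 : ((3 : ℝ) ^ (4 * M)) ^ (1 / (4 * M : ℝ)) = 3 := by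
      rw [← Real.rpow_natCast, ← Real.rpow_mul (by norm_num)]
      have : ((4 * M : ℕ) : ℝ) * (1 / (4 * M : ℝ)) = 1 := by
        push_cast
        field_simp
      rw [this, Real.rpow_one]
    calc (3 : ℝ) = ((3 : ℝ) ^ (4 * M)) ^ (1 / (4 * M : ℝ)) := h3.symm
      _ ≤ _ := Real.rpow_le_rpow (by positivity) (by exact_mod_cast hg) (by positivity)
  have hUy := bl_U hM1 hy3 hU2
  have hlogU : L / (4 * M) ≤ Real.log U := by
    have hpos : (0 : ℝ) < (X : ℝ) ^ (1 / (4 * M : ℝ)) := by linarith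
    have := Real.log_le_log hpos (show (X : ℝ) ^ (1 / (4 * M : ℝ)) ≤ U by linarith)
    rw [Real.log_rpow (by linarith), ← hL] at this
    rw [div_eq_mul_one_div, mul_comm]
    exact this
  have hLc : 2 * L ≤ L ^ (K + B + 8) := by
    calc 2 * L ≤ L * L := by nlinarith
      _ = L ^ 2 := (sq L).symm
      _ ≤ L ^ (K + B + 8) := pow_le_pow_right₀ hL1 (by omega)
  obtain ⟨w0, hw0⟩ : ∃ w0 : ℕ, w0 = ⌈L ^ (K + B + 8)⌉₊ - 1 := ⟨_, rfl⟩
  have hce : 1 ≤ ⌈L ^ (K + B + 8)⌉₊ := Nat.ceil_pos.2 (by positivity)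
  have hw0' : L ^ (K + B + 8) / 2 ≤ w0 := by
    have := Nat.le_ceil (L ^ (K + B + 8))
    rw [hw0, Nat.cast_sub hce]
    push_cast
    linarith
  have hw01 : 1 ≤ w0 := by
    have : (1 : ℝ) ≤ w0 := by linarith
    exact_mod_cast this
  have hww : wX X ≤ w0 := by
    have : (wX X : ℝ) ≤ w0 := by linarith
    exact_mod_cast this
  have hTq : ∀ q ∈ T, q.Prime ∧ w0 < q ∧ 2 * q ≤ U := fun q hq => ⟨(hT q hq).1, by
    have h2 : ⌈L ^ (K + B + 8)⌉₊ ≤ q := Nat.ceil_le.2 (hT q hq).2.1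
    omega, by
    have h1 := (hrp q hq).1
    have h2 : (2 * q : ℝ) ≤ U := by linarith
    exact_mod_cast h2⟩
  have hTw : ∀ q ∈ T, wX X < q := fun q hq => by
    have h2 := (hTq q hq).2.1
    omega
  have hTne : T.Nonempty := by
    by_contra h
    rw [not_nonempty_iff_eq_empty] at h
    rw [h, sum_empty] at hTs
    have : 0 < 1 / L ^ B := by positivity
    linarith
  obtain ⟨q0, hq0⟩ := hTne
  have hq0w := hTw q0 hq0
  have hq0U := (hTq q0 hq0).2.2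
  have hq02 := (hT q0 hq0).1.two_le
  obtain ⟨μ, hμ1, hμ2, hμ3, hμ4, hμ5⟩ := hmj X U T (by omega) (by omega) (fun q hq => ⟨(hT q hq).1, hTw q hq, by
    have := (hTq q hq).2.2
    omega⟩)
  have hqe := hqs' (fun q hq => ⟨(hT q hq).1, by
    have := (hT q hq).2.1
    linarith, (hrp q hq).2⟩)
  have hDL' := hDL hL1 hX1
  have hc1 : 1 ≤ cX X := Pool.Agent.Lib.SW.one_le_cX X
  have hA0 : (0 : ℝ) ≤ ((Sa (WX X) S a).card : ℝ) := Nat.cast_nonneg _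
  have hU0 : 1 ≤ U := by omega
  have hUr : (1 : ℝ) ≤ U := by exact_mod_cast hU0
  have hU2M : (U : ℝ) ^ (2 * M) ≤ X := by exact_mod_cast hU1
  have hUM : (U : ℝ) ^ M ≤ √X := by
    refine Real.le_sqrt_of_sq_le ?_
    rw [← pow_mul, mul_comm M 2]
    exact hU2M
  have hR2 : (((U ^ E : ℕ) : ℝ)) ^ 2 ≤ √X := by
    push_cast
    rw [← pow_mul]
    exact (pow_le_pow_right₀ hUr (by omega)).trans hUM
  have hUkX : U ^ k * U ^ k ≤ X := by
    rw [← pow_add]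
    exact (Nat.pow_le_pow_right hU0 (by omega)).trans hU1
  have hUH : U ^ k + H ≤ X := by
    have h1 : (U ^ k + H) * (U ^ k + H) ≤ X * X := by nlinarith [sq_nonneg ((U : ℤ) ^ k - H), Nat.mul_le_mul_left X hX4, two_mul_le_add_sq (U ^ k) H]
    exact Nat.mul_self_le_mul_self_iff.1 h1
  have hHX' : H ≤ X := by omega
  have hsq : 8 * L ^ (K + B + 4) ≤ e ^ 2 * √X := by
    have h1 : 8 / e ^ 2 * L ^ (K + B + 4) ≤ √X := by
      refine Real.le_sqrt_of_sq_le ?_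
      rw [mul_pow, ← pow_mul, mul_comm (K + B + 4) 2]
      exact hd
    calc 8 * L ^ (K + B + 4) = e ^ 2 * (8 / e ^ 2 * L ^ (K + B + 4)) := by field_simp
      _ ≤ _ := mul_le_mul_of_nonneg_left h1 (by positivity)
  have hL6 : 8 ≤ e ^ 2 * L ^ 6 := by
    have h1 : 8 ≤ L * e ^ 2 := by
      rwa [div_le_iff₀ (by positivity)] at hc
    have h2 : L ≤ L ^ 6 := le_self_pow₀ hL1 (by norm_num)
    calc (8 : ℝ) ≤ L * e ^ 2 := h1
      _ ≤ L ^ 6 * e ^ 2 := by gcongr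
      _ = _ := by ring
  -- the main quantity
  obtain ⟨m, hm⟩ : ∃ m : ℝ, m = max ((Sa (WX X) S a).card : ℝ) (H / L ^ K) := ⟨_, rfl⟩
  have hmA : ((Sa (WX X) S a).card : ℝ) ≤ m := hm ▸ le_max_left _ _
  have hmX : (H : ℝ) / L ^ K ≤ m := hm ▸ le_max_right _ _
  have hD0 : 0 ≤ dT k T X := le_trans (by positivity) hDL'
  have hm0 : 0 ≤ m := le_trans (by positivity) hmX
  obtain ⟨τ, hτ⟩ : ∃ τ : ℝ, τ = cX X * m * (dT k T X / L) := ⟨_, rfl⟩
  have hHr : (1 : ℝ) ≤ H := by exact_mod_cast hH1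
  have hτ0 : (H : ℝ) / L ^ (K + B + 2) ≤ τ := by
    calc (H : ℝ) / L ^ (K + B + 2) = 1 * (H / L ^ K) * ((1 / L ^ (B + 1)) / L) := bl_e1 K B H hL0
      _ ≤ cX X * m * (dT k T X / L) := by gcongr
      _ = τ := hτ.symm
  have hτp : 0 < τ := lt_of_lt_of_le (by positivity) hτ0
  obtain ⟨h, hh⟩ : ∃ h : ℝ, h = (X : ℝ) / WX X := ⟨_, rfl⟩
  have hh0 : 0 < h := by rw [hh]; positivity
  rw [← hm, ← hτ, ← hh]
  have hm1 : ∑ e ∈ Icc 1 (U ^ E), μ e / e ≤ C1 * (cX X / (L / (4 * M))) * (ε' * dT k T X) := by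
    refine hμ5.trans ?_
    gcongr
  have hSX : ∀ s ∈ S, s ≤ X := fun s hs => ((mem_Icc.1 (hS hs)).2).trans hHX'
  -- part (ii)
  have hii : ∑ N ∈ wnd X X (WX X) a, ((S.filter fun s => ∃ q : ℕ, q.Prime ∧ w0 < q ∧ q ^ 2 ∣ N - s).card : ℝ) ≤
      e ^ 2 / 2 * h * τ := by
    have h1 : ∑ N ∈ wnd X X (WX X) a, ((S.filter fun s => ∃ q : ℕ, q.Prime ∧ w0 < q ∧ q ^ 2 ∣ N - s).card : ℝ) =
        ∑ s ∈ S, (((wnd X X (WX X) a).filter fun N => ∃ q : ℕ, q.Prime ∧ w0 < q ∧ q ^ 2 ∣ N - s).card : ℝ) :=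
      bl_swap _ _ fun N s => ∃ q : ℕ, q.Prime ∧ w0 < q ∧ q ^ 2 ∣ N - s
    rw [h1]
    have h2 : ∑ s ∈ S, (((wnd X X (WX X) a).filter fun N => ∃ q : ℕ, q.Prime ∧ w0 < q ∧ q ^ 2 ∣ N - s).card : ℝ) ≤
        ∑ s ∈ S, (h / w0 + √(2 * X)) := sum_le_sum fun s hs => by
      rw [hh]
      exact bl_sq hw01 hww (hSX s hs)
    rw [sum_const, nsmul_eq_mul] at h2
    have h3 : (S.card : ℝ) ≤ H := by
      have : S.card ≤ (Icc 1 H).card := card_le_card hS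
      rw [Nat.card_Icc, Nat.add_sub_cancel] at this
      exact_mod_cast this
    have h4 : (S.card : ℝ) * (h / w0 + √(2 * X)) ≤ H * (h / w0 + √(2 * X)) := by gcongr
    have h5 := bl_num1 (K := K) (B := B) (w0 := w0) he0 hL1 hh0.le (Nat.cast_nonneg H) hw0' hL6 hτ0
    have h6 := bl_num2 (K := K) (B := B) (X := X) he0 hL1 (by linarith) hW0 hW (Nat.cast_nonneg H) hsq hτ0
    rw [← hh] at h6
    linarith
  -- part (iii)
  have hiii : ∑ N ∈ wnd X X (WX X) a, ∑ s ∈ Sa (WX X) S a, ∑ e ∈ (N - s).divisors, μ e ≤ e ^ 2 / 2 * h * τ := by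
    rw [sum_comm]
    have h1 : ∑ s ∈ Sa (WX X) S a, ∑ N ∈ wnd X X (WX X) a, ∑ e ∈ (N - s).divisors, μ e ≤
        ∑ s ∈ Sa (WX X) S a, (h * (C1 * (cX X / (L / (4 * M))) * (ε' * dT k T X)) + ((U ^ E : ℕ) : ℝ) ^ 2) :=
      sum_le_sum fun s hs => by
        refine (bl_mean (hSX s (Pool.Agent.Lib.SW.mem_Sa.1 hs).1) hμ1 hμ2).trans ?_
        rw [← hh]
        gcongr
    rw [sum_const, nsmul_eq_mul] at h1
    have h2 : ((Sa (WX X) S a).card : ℝ) * (h * (C1 * (cX X / (L / (4 * M))) * (ε' * dT k T X)) + ((U ^ E : ℕ) : ℝ) ^ 2) ≤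
        m * (h * (C1 * (cX X / (L / (4 * M))) * (ε' * dT k T X)) + ((U ^ E : ℕ) : ℝ) ^ 2) := by gcongr
    have h3 : m * (h * (C1 * (cX X / (L / (4 * M))) * (ε' * dT k T X))) = e ^ 2 / 4 * h * τ := by
      rw [hτ, hε']
      exact bl_e2 (by linarith) hC1 hL0
    have h4 := bl_num3 (K := K) (B := B) (X := X) he0 hL1 (by linarith) hW0 hW hm0 hc1 hDL' hR2 hsq hτ
    rw [← hh] at h4
    linarith
  have htot : ∑ N ∈ wnd X X (WX X) a, (((S.filter fun s => ∃ q : ℕ, q.Prime ∧ w0 < q ∧ q ^ 2 ∣ N - s).card : ℝ) +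
      ∑ s ∈ Sa (WX X) S a, ∑ e ∈ (N - s).divisors, μ e) ≤ (e * h) * (e * τ) := by
    rw [sum_add_distrib]
    calc _ ≤ e ^ 2 / 2 * h * τ + e ^ 2 / 2 * h * τ := add_le_add hii hiii
      _ = _ := by ring
  have hpt : ∀ N ∈ wnd X X (WX X) a, (cN k U T S N : ℝ) ≤
      ((S.filter fun s => ∃ q : ℕ, q.Prime ∧ w0 < q ∧ q ^ 2 ∣ N - s).card : ℝ) +
        ∑ s ∈ Sa (WX X) S a, ∑ e ∈ (N - s).divisors, μ e := fun N hN =>
    bl_pt hk hTq hTw hS hUH hN hμ3 hμ4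
  have hee : e * e ≤ ε := by nlinarith
  calc ∑ N ∈ wnd X X (WX X) a, (cN k U T S N : ℝ) ≤ _ := sum_le_sum hpt
    _ ≤ (e * h) * (e * τ) := htot
    _ = (e * e) * (h * τ) := by ring
    _ ≤ ε * (h * τ) := mul_le_mul_of_nonneg_right hee (mul_nonneg hh0.le hτp.le)
    _ = ε * h * τ := by ring

end Pool.Agent.Lib.WT
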