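import Pool.Agent.Lib.WT.Mn
import Pool.Agent.Lib.SW.SC.SC3

/-!
# WT, row Cl: the multiples of a divisor `m` of `W`, every set of primes `≤ H` with `≥ H/(log X)^K` members (copy of WL/Cl.lean, landed)

PROOF IN WORDS. Word for word WL/Cl.lean with `mnT k (K+3) B` in the place of `mnW 2 (K+3) B`, `S ⊆ Icc 1 H`, `|S| ≥ H/L^K`, the window `(X, 2X]` (`wnd X X`), and `dT k T X ≥ L^(-B)/(k-2)! ≥ L^(-B-1)` (`log (log X/log q) ≥ 1` as `q ≤ X^η`, `η ≤ 1/e` w.l.o.g.; `k = 2`: `dT = ∑ 1/q`). `S' = {s ∈ S : (s, W) = 1}`: only primes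
`≤ log log X` are missing, `|S'| ≥ H/(2 L^K)` because `H ≥ L^C`, `C ≥ K + 2` (take `C` = the one of `mnT` plus `K + 2`). All `s ≤ H ≤ X < N` (`H * H ≤ X`). Number: `cT ≥ (1/2) (H/L^(K+3)) L^(-B-1)/L ≥ H/L^(K+B+7)`.
-/

set_option autoImplicit false

open Finset

namespace Pool.Agent.Lib.WT

open Pool.Agent.Lib.SW (WX cX Sa)
open Pool.Agent.Lib.WL (cT wnd)
open Filter

theorem clT (k K B : ℕ) (hk : 2 ≤ k) : ∃ c0 C : ℕ, ∀ ε : ℝ, 0 < ε → ∃ η : ℝ, 0 < η ∧ ∃ X0 : ℕ, ∀ (X H : ℕ) (w' : ℝ) (T : Finset ℕ),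
    X0 ≤ X → 1 ≤ w' → w' ≤ (X : ℝ) ^ η → w' * (Real.log X) ^ C ≤ H → H * H ≤ X → (∀ q ∈ T, q.Prime ∧ (Real.log X) ^ c0 ≤ q ∧ (q : ℝ) ≤ w') →
      1 / (Real.log X) ^ B ≤ ∑ q ∈ T, 1 / (q : ℝ) → ∀ S : Finset ℕ, S ⊆ Icc 1 H → (∀ s ∈ S, s.Prime) → H / (Real.log X) ^ K ≤ (S.card : ℝ) →
        ∀ m : ℕ, m ∣ WX X → (1 - ε) * X * ((WX X / m).totient : ℝ) / WX X ≤
          (((Ioc X (2 * X)).filter fun N => m ∣ N ∧ H / (Real.log X) ^ (K + B + 7) ≤ (cT k T S N : ℝ)).card : ℝ) := by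
  obtain ⟨c0, C, hmn⟩ := mnT k (K + 3) B hk
  refine ⟨c0, C + K + 3, fun ε hε => ?_⟩
  obtain ⟨δ, hδ, hδ1, hδε⟩ : ∃ δ : ℝ, 0 < δ ∧ δ ≤ 1 / 2 ∧ δ ≤ ε / 4 :=
    ⟨min (1 / 2) (ε / 4), lt_min (by norm_num) (by linarith), min_le_left _ _, min_le_right _ _⟩
  obtain ⟨η0, hη0, X₁, hX₁⟩ := hmn δ hδ
  obtain ⟨η, hη, hηa, hηb⟩ : ∃ η : ℝ, 0 < η ∧ η ≤ η0 ∧ η ≤ 1 / 3 :=
    ⟨min η0 (1 / 3), lt_min hη0 (by norm_num), min_le_left _ _, min_le_right _ _⟩
  obtain ⟨X₂, hX₂⟩ := Pool.Agent.Lib.SW.cX_le_log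
  obtain ⟨X₃, hX₃⟩ := eventually_atTop.1
    ((Pool.Agent.Lib.SW.eventually_log_ge (4 + 4 / δ + (Nat.factorial (k - 2) : ℝ))).and
      (eventually_ge_atTop (max X₁ (max X₂ 3))))
  refine ⟨η, hη, X₃, fun X H w' T hX hw1 hwη hH hHX hT hTs S hSX hSp hSK m hm => ?_⟩
  obtain ⟨k1, k5⟩ := hX₃ X hX
  have hXa : X₁ ≤ X := (le_max_left _ _).trans k5
  have hXb : X₂ ≤ X := (le_max_left _ _).trans ((le_max_right _ _).trans k5)
  have hX3 : 3 ≤ X := (le_max_right _ _).trans ((le_max_right _ _).trans k5)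
  have hXr3 : (3 : ℝ) ≤ X := by exact_mod_cast hX3
  have hX0 : (0 : ℝ) < X := by linarith
  obtain ⟨hcL, hWL⟩ := hX₂ X hXb
  obtain ⟨L, hL⟩ : ∃ L : ℝ, L = Real.log X := ⟨_, rfl⟩
  rw [← hL] at k1 hcL hWL hH hT hTs hSK
  have hδi : 0 < 4 / δ := by positivity
  have hfac0 : 0 ≤ (Nat.factorial (k - 2) : ℝ) := Nat.cast_nonneg _
  have hL4 : 4 ≤ L := by linarith
  have hfacL : (Nat.factorial (k - 2) : ℝ) ≤ L := by linarith
  have hL0 : 0 < L := by linarith
  have hWpos := Pool.Agent.Lib.SW.WX_pos X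
  have hc1 := Pool.Agent.Lib.SW.one_le_cX X
  have hwL : (Pool.Agent.Lib.SW.wX X : ℝ) ≤ L := by
    rw [hL]
    exact Pool.Agent.Lib.SW.wX_le X (by rw [← hL]; linarith)
  have hWr : (0 : ℝ) < WX X := by exact_mod_cast hWpos
  have hw0 : 0 < w' := by linarith
  -- `H` is long
  have hHLK : L ^ (K + 3) ≤ (H : ℝ) := by
    refine le_trans ?_ hH
    have e1 : L ^ (K + 3) ≤ L ^ (C + K + 3) := pow_le_pow_right₀ (by linarith) (by omega)
    have e2 : (1 : ℝ) * L ^ (C + K + 3) ≤ w' * L ^ (C + K + 3) := mul_le_mul_of_nonneg_right hw1 (by positivity)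
    linarith
  have hHL : L ^ 3 ≤ (H : ℝ) := le_trans (pow_le_pow_right₀ (by linarith) (by omega)) hHLK
  have hHXN : H ≤ X := by
    rcases Nat.eq_zero_or_pos H with h | h
    · omega
    · exact le_trans (Nat.le_mul_of_pos_left H h) hHX
  have hHXr : (H : ℝ) ≤ X := by exact_mod_cast hHXN
  have hH0' : (0 : ℝ) < H := lt_of_lt_of_le (by positivity) hHL
  have hwη0 : w' ≤ (X : ℝ) ^ η0 :=
    hwη.trans (Real.rpow_le_rpow_of_exponent_le (by linarith) hηa)
  have hwη3 : w' ≤ (X : ℝ) ^ (1 / 3 : ℝ) :=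
    hwη.trans (Real.rpow_le_rpow_of_exponent_le (by linarith) hηb)
  have hH' : w' * L ^ C ≤ (H : ℝ) := by
    refine le_trans ?_ hH
    exact mul_le_mul_of_nonneg_left (pow_le_pow_right₀ (by linarith) (by omega)) hw0.le
  have hH0 : (0 : ℝ) ≤ H := Nat.cast_nonneg _
  have hone : 1 ≤ δ * ((X : ℝ) / WX X) := by
    have e1 : L ≤ (X : ℝ) / WX X := by
      rw [le_div_iff₀ hWr]
      calc L * (WX X : ℝ) ≤ L * L ^ 2 := mul_le_mul_of_nonneg_left hWL hL0.le
        _ = L ^ 3 := by ring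
        _ ≤ H := hHL
        _ ≤ X := hHXr
    have e2 : 4 / δ ≤ (X : ℝ) / WX X := by linarith
    rw [div_le_iff₀ hδ] at e2
    linarith
  -- remove the primes `≤ w`
  obtain ⟨S', hS'⟩ : ∃ S' : Finset ℕ, S' = S.filter (fun s => Pool.Agent.Lib.SW.wX X < s) := ⟨_, rfl⟩
  have hS'c : H / L ^ (K + 1) ≤ (S'.card : ℝ) := by
    have h1 : S ⊆ S' ∪ Icc 1 (Pool.Agent.Lib.SW.wX X) := by
      intro s hs
      rw [mem_union, hS']
      by_cases h : Pool.Agent.Lib.SW.wX X < s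
      · exact Or.inl (mem_filter.2 ⟨hs, h⟩)
      · exact Or.inr (mem_Icc.2 ⟨(hSp s hs).one_lt.le, not_lt.1 h⟩)
    have h2 := (card_le_card h1).trans (card_union_le _ _)
    rw [Nat.card_Icc, Nat.add_sub_cancel] at h2
    have h3 : (S.card : ℝ) ≤ S'.card + Pool.Agent.Lib.SW.wX X := by exact_mod_cast h2
    have h4 : H / L ^ (K + 1) + L ≤ H / L ^ K := by
      have e1 : L ^ (K + 1) = L ^ K * L := pow_succ _ _
      have e2 : H / L ^ (K + 1) = H / L ^ K / L := by rw [e1, div_div]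
      have e3 : H / L ^ K / L ≤ H / L ^ K / 4 :=
        div_le_div_of_nonneg_left (by positivity) (by norm_num) hL4
      have e4 : L ≤ H / L ^ K / 2 := by
        rw [le_div_iff₀ (by norm_num), le_div_iff₀ (by positivity)]
        have e5 : L ^ (K + 3) = L * L ^ K * (L * L) := by ring
        have e6 : L * 2 * L ^ K ≤ L * L ^ K * (L * L) := by
          have e7 : 2 ≤ L * L := by nlinarith
          have e8 : 0 ≤ L * L ^ K := by positivity
          nlinarith
        rw [← e5] at e6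
        linarith
      have e9 : 0 ≤ H / L ^ K := by positivity
      rw [e2]
      linarith
    linarith
  have hS'cop : ∀ s ∈ S', Nat.Coprime s (WX X) := by
    intro s hs
    rw [hS'] at hs
    obtain ⟨hs1, hs3⟩ := mem_filter.1 hs
    rw [Nat.Prime.coprime_iff_not_dvd (hSp s hs1)]
    unfold Pool.Agent.Lib.SW.WX
    rw [(hSp s hs1).dvd_primorial_iff]
    exact not_le.2 hs3
  obtain ⟨b, hb1, hb2⟩ := Pool.Agent.Lib.SW.SC3_popular (WX X) hWpos S' hS'cop
  have hb : Nat.Coprime b (WX X) := by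
    rcases hb1 with h | h
    · exact h
    · rw [h, card_empty, Nat.cast_zero] at hS'c
      have : 0 < H / L ^ (K + 1) := by positivity
      linarith
  obtain ⟨Sb, hSb⟩ : ∃ Sb : Finset ℕ, Sb = S'.filter (fun s => s % WX X = b) := ⟨_, rfl⟩
  rw [← hSb] at hb2
  have hφW : ((WX X).totient : ℝ) ≤ L ^ 2 :=
    le_trans (by exact_mod_cast Nat.totient_le _) hWL
  have hSbc : H / L ^ (K + 3) ≤ (Sb.card : ℝ) := by
    have h1 : (S'.card : ℝ) ≤ (WX X).totient * Sb.card := by exact_mod_cast hb2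
    have h2 : H / L ^ (K + 1) ≤ L ^ 2 * Sb.card :=
      hS'c.trans (h1.trans (mul_le_mul_of_nonneg_right hφW (Nat.cast_nonneg _)))
    have h3 : H / L ^ (K + 3) = H / L ^ (K + 1) / L ^ 2 := by
      rw [div_div, ← pow_add]
    rw [h3, div_le_iff₀ (by positivity)]
    linarith
  have hSbS : Sb ⊆ S := by
    intro s hs
    rw [hSb, mem_filter, hS', mem_filter] at hs
    exact hs.1.1
  have hSbb : ∀ s ∈ Sb, s % WX X = b := by
    intro s hs
    rw [hSb] at hs
    exact (mem_filter.1 hs).2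
  have hdT : 1 / L ^ (B + 1) ≤ Pool.Agent.Lib.T8.dT k T X := by
    have h1 : ∑ q ∈ T, 1 / (q : ℝ) * (1 / (Nat.factorial (k - 2) : ℝ)) ≤ Pool.Agent.Lib.T8.dT k T X := by
      unfold Pool.Agent.Lib.T8.dT
      refine sum_le_sum fun q hq => ?_
      refine mul_le_mul_of_nonneg_left ?_ (by positivity)
      refine div_le_div_of_nonneg_right ?_ hfac0
      refine one_le_pow₀ ?_
      obtain ⟨hq1, _, hq3⟩ := hT q hq
      have hq2 : (2 : ℝ) ≤ q := by exact_mod_cast hq1.two_le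
      have hlq : 0 < Real.log q := Real.log_pos (by linarith)
      have hlq3 : Real.log q ≤ 1 / 3 * L := by
        have h2 : Real.log q ≤ Real.log ((X : ℝ) ^ (1 / 3 : ℝ)) := Real.log_le_log (by linarith) (hq3.trans hwη3)
        rwa [Real.log_rpow hX0, ← hL] at h2
      rw [← hL, Real.le_log_iff_exp_le (by positivity), le_div_iff₀ hlq]
      have h3 := Real.exp_one_lt_d9
      have h4 : Real.exp 1 * Real.log q ≤ 3 * Real.log q := mul_le_mul_of_nonneg_right (by linarith) hlq.le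
      linarith
    have h2 : 1 / L ^ (B + 1) ≤ ∑ q ∈ T, 1 / (q : ℝ) * (1 / (Nat.factorial (k - 2) : ℝ)) := by
      rw [← sum_mul]
      have hf0 : (0 : ℝ) < (Nat.factorial (k - 2) : ℝ) := by exact_mod_cast Nat.factorial_pos _
      have h3 : 1 / L ^ B * (1 / L) ≤ (∑ q ∈ T, 1 / (q : ℝ)) * (1 / (Nat.factorial (k - 2) : ℝ)) :=
        mul_le_mul hTs (one_div_le_one_div_of_le hf0 hfacL) (by positivity) (sum_nonneg fun q _ => by positivity)
      have h4 : 1 / L ^ (B + 1) = 1 / L ^ B * (1 / L) := by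
        rw [pow_succ]
        field_simp
      rw [h4]
      exact h3
    exact h2.trans h1
  obtain ⟨D, hD⟩ : ∃ D : ℝ, D = Pool.Agent.Lib.T8.dT k T X := ⟨_, rfl⟩
  rw [← hD] at hdT
  have hD0 : 0 < D := lt_of_lt_of_le (by positivity) hdT
  -- the good classes
  obtain ⟨U, hU⟩ : ∃ U : Finset ℕ, U = (range (WX X)).filter (fun a => m ∣ a ∧
      IsCoprime ((a : ℤ) - b) (WX X : ℤ)) := ⟨_, rfl⟩
  have hUc : (WX X / m).totient ≤ U.card := by
    rw [hU]
    refine Pool.Agent.Lib.SW.SC3_classes (WX X) m b ?_ hm hb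
    exact Pool.Agent.Lib.SW.WX_squarefree _
  obtain ⟨G, hG⟩ : ∃ G : Finset ℕ, G = (Ioc X (2 * X)).filter (fun N => m ∣ N ∧
            H / L ^ (K + B + 7) ≤ (cT k T S N : ℝ)) := ⟨_, rfl⟩
  rw [← hL, ← hG]
  have h2X : 2 * X = X + X := two_mul X
  have hclass : ∀ a ∈ U, (1 - ε) * ((X : ℝ) / WX X) ≤ ((G.filter (fun N => N % WX X = a)).card : ℝ) := by
    intro a ha
    rw [hU, mem_filter, mem_range] at ha
    obtain ⟨ha1, ha2, ha3⟩ := ha
    have haW : a % WX X = a := Nat.mod_eq_of_lt ha1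
    have hSa : H / L ^ (K + 3) ≤ ((Sa (WX X) S a).card : ℝ) := by
      refine hSbc.trans ?_
      have hsub : Sb ⊆ Sa (WX X) S a := by
        intro s hs
        unfold Pool.Agent.Lib.SW.Sa
        refine mem_filter.2 ⟨hSbS hs, ?_⟩
        have h1 : b ≡ s [MOD WX X] := by
          rw [← hSbb s hs]
          exact Nat.mod_modEq _ _
        obtain ⟨t, ht⟩ := (Nat.modEq_iff_dvd).1 h1
        have h2 : (a : ℤ) - s = ((a : ℤ) - b) + (WX X : ℤ) * (-t) := by linarith
        rw [h2]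
        exact (IsCoprime.add_mul_left_left_iff).2 ha3
      exact_mod_cast card_le_card hsub
    have hbad := hX₁ X H a w' T hXa hw1 hwη0 (by rw [← hL]; exact hH') hHX
      (fun q hq => by rw [← hL]; exact hT q hq) (by rw [← hL]; exact hTs) S hSX
    rw [← hL, max_eq_left hSa, ← hD] at hbad
    obtain ⟨E, hE⟩ : ∃ E : Finset ℕ, E = (wnd X X (WX X) a).filter fun N =>
        δ * (cX X * ((Sa (WX X) S a).card : ℝ) * (D / L)) <
          |(cT k T S N : ℝ) - cX X * (Sa (WX X) S a).card * (D / L)| := ⟨_, rfl⟩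
    rw [← hE] at hbad
    have hcl := Pool.Agent.Lib.SW.SC3_class_ge X (X + X) (WX X) a hWpos
    have hsub : (Ioc X (X + X)).filter (fun N => N ≡ a [MOD WX X]) ⊆
        E ∪ G.filter (fun N => N % WX X = a) := by
      intro N hN
      obtain ⟨hN1, hN2⟩ := mem_filter.1 hN
      rw [mem_union]
      by_cases hbN : δ * (cX X * ((Sa (WX X) S a).card : ℝ) * (D / L)) <
          |(cT k T S N : ℝ) - cX X * (Sa (WX X) S a).card * (D / L)|
      · left
        rw [hE]
        refine mem_filter.2 ⟨?_, hbN⟩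
        unfold wnd
        exact hN
      · right
        have h1 := (abs_le.mp (not_lt.1 hbN)).1
        have hs1 : 1 / L ^ (B + 2) ≤ D / L := by
          have e1 : 1 / L ^ (B + 2) = 1 / L ^ (B + 1) / L := by rw [pow_succ, div_div]
          rw [e1]
          exact div_le_div_of_nonneg_right hdT hL0.le
        have hA0 : (0 : ℝ) ≤ ((Sa (WX X) S a).card : ℝ) := Nat.cast_nonneg _
        have h2 : (1 / 2) * (H / L ^ (K + 3) * (1 / L ^ (B + 2))) ≤ (cT k T S N : ℝ) := by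
          have e0 : (1 - δ) * cX X * (((Sa (WX X) S a).card : ℝ) * (D / L)) ≤ (cT k T S N : ℝ) := by linarith
          refine le_trans ?_ e0
          have e2 : H / L ^ (K + 3) * (1 / L ^ (B + 2)) ≤ ((Sa (WX X) S a).card : ℝ) * (D / L) :=
            mul_le_mul hSa hs1 (by positivity) hA0
          have e3 : (1 / 2 : ℝ) ≤ (1 - δ) * cX X := by nlinarith
          exact mul_le_mul e3 e2 (by positivity) (by linarith)
        have h3 : H / L ^ (K + B + 7) ≤ (cT k T S N : ℝ) := by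
          refine le_trans ?_ h2
          have e1 : (1 / 2 : ℝ) * (H / L ^ (K + 3) * (1 / L ^ (B + 2))) = H / (2 * L ^ (K + B + 5)) := by
            have e2 : L ^ (K + B + 5) = L ^ (K + 3) * L ^ (B + 2) := by rw [← pow_add]; ring_nf
            rw [e2]
            field_simp
          rw [e1]
          refine div_le_div_of_nonneg_left hH0 (by positivity) ?_
          have e3 : L ^ (K + B + 7) = L ^ (K + B + 5) * L ^ 2 := by rw [← pow_add]
          rw [e3]
          have e4 : 0 < L ^ (K + B + 5) := by positivity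
          have e5 : (2 : ℝ) ≤ L ^ 2 := by nlinarith
          rw [mul_comm (2 : ℝ)]
          exact mul_le_mul_of_nonneg_left e5 e4.le
        have h8 : N % WX X = a := by
          have : N % WX X = a % WX X := hN2
          rw [this, haW]
        refine mem_filter.2 ⟨?_, h8⟩
        rw [hG]
        refine mem_filter.2 ⟨by rw [h2X]; exact hN1, ?_, h3⟩
        -- `m ∣ N`
        have h9 : N ≡ a [MOD m] := Nat.ModEq.of_dvd hm hN2
        exact (Nat.modEq_zero_iff_dvd).1 (h9.trans ((Nat.modEq_zero_iff_dvd).2 ha2))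
    have hle : (((Ioc X (X + X)).filter (fun N => N ≡ a [MOD WX X])).card : ℝ) ≤
        (E.card : ℝ) + ((G.filter (fun N => N % WX X = a)).card : ℝ) := by
      exact_mod_cast le_trans (card_le_card hsub) (card_union_le _ _)
    have e3 : (((X + X : ℕ) : ℝ) - X) / WX X = (X : ℝ) / WX X := by
      push_cast
      congr 1
      ring
    rw [e3] at hcl
    have e5 : 0 ≤ (X : ℝ) / WX X := by positivity
    have e6 : (1 - ε) * ((X : ℝ) / WX X) ≤ (1 - 2 * δ) * ((X : ℝ) / WX X) :=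
      mul_le_mul_of_nonneg_right (by linarith) e5
    have e7 : (1 - 2 * δ) * ((X : ℝ) / WX X) = (X : ℝ) / WX X - δ * ((X : ℝ) / WX X) - δ * ((X : ℝ) / WX X) := by
      ring
    linarith
  have hsum : ∑ a ∈ U, ((G.filter (fun N => N % WX X = a)).card : ℝ) ≤ (G.card : ℝ) := by
    have h1 : ∑ a ∈ U, (G.filter (fun N => N % WX X = a)).card =
        (U.biUnion (fun a => G.filter (fun N => N % WX X = a))).card := by
      rw [Finset.card_biUnion]
      intro a _ b _ hab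
      rw [Function.onFun, Finset.disjoint_left]
      intro N hN hN2
      rw [Finset.mem_filter] at hN hN2
      exact hab (hN.2.symm.trans hN2.2)
    have h2 : (U.biUnion (fun a => G.filter (fun N => N % WX X = a))).card ≤ G.card := by
      apply Finset.card_le_card
      intro N hN
      rw [Finset.mem_biUnion] at hN
      obtain ⟨a, _, ha⟩ := hN
      exact (Finset.mem_filter.mp ha).1
    rw [← h1] at h2
    exact_mod_cast h2
  by_cases hε1 : 1 ≤ ε
  · have h1 : (1 - ε) * X * ((WX X / m).totient : ℝ) / WX X ≤ 0 := by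
      refine div_nonpos_of_nonpos_of_nonneg ?_ hWr.le
      exact mul_nonpos_of_nonpos_of_nonneg
        (mul_nonpos_of_nonpos_of_nonneg (by linarith) hX0.le) (Nat.cast_nonneg _)
    exact h1.trans (Nat.cast_nonneg _)
  · have hε2 : 0 ≤ 1 - ε := by
      have := lt_of_not_ge hε1
      linarith
    calc (1 - ε) * X * ((WX X / m).totient : ℝ) / WX X
        = ((WX X / m).totient : ℝ) * ((1 - ε) * ((X : ℝ) / WX X)) := by ring
      _ ≤ (U.card : ℝ) * ((1 - ε) * ((X : ℝ) / WX X)) := by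
          refine mul_le_mul_of_nonneg_right (by exact_mod_cast hUc) ?_
          positivity
      _ = ∑ _a ∈ U, (1 - ε) * ((X : ℝ) / WX X) := by rw [sum_const, nsmul_eq_mul]
      _ ≤ ∑ a ∈ U, ((G.filter (fun N => N % WX X = a)).card : ℝ) := sum_le_sum hclass
      _ ≤ (G.card : ℝ) := hsum

end Pool.Agent.Lib.WT
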