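import Pool.Agent.Lib.WT.AL
import Pool.Agent.Lib.WL.DC
import Pool.Agent.Lib.WL.DW
import Pool.Agent.Lib.WL.DT

/-!
# WT, row DL: one cofactor `d ≤ log X` (copy of WL/DL.lean)

PROOF IN WORDS. `L = log X`. `alT k (K+1) (B+1)` gives `c0`, `C'`; `C = C' + K + B + 8`; for `ε` use it with `ε' = ε/64`: `η'`, and `η = min (η'/2) (1/4)`. For `r < d` let `A = (X-r)/d`, `B' = (X+X-r)/d`: `X/(2L) ≤ X/d - 2 ≤ A ≤ X/d`, `L' = log A`, `ρ' = dT k T A/log A`, `ρ = dT k T X/L`, `|ρ' - ρ| ≤ ε' ρ` (`dtL`), `w1 = wX A` is `w = wX X` or `w - 1` (`wpL`),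
`cX A = cW w1`, `W ≤ L^2`. `S' = Sq d r S ⊆ [1, H/d]`. `alT` at `X' = A`, `H' = H/d` (floor; `H'^2 ≤ A`: for `d = 1` it is `H^2 ≤ X`, for `d ≥ 2` `H^2/d^2 ≤ X/(2d) ≤ A`), the same `w'`, `T` (`w' ≤ A^η'`, `w' L'^C' ≤ H'`, `1/L'^(B+1) ≤ 1/L^B`) gives for `N' ∈ (A, 2A]` the bound `ε' A (|S'| + (H/d)/L'^(K+1)) ρ'`; the at most 3 further `N' ≤ B'` give at most
`3 H (1 + cW w1 ρ')`, tiny compared with `ε' (X/d)(H/L^K) ρ/d` (`ρ ≥ L^(-B)/((k-2)! L)`). `dcL` with `H := X`, `g = cW w1 ρ'` transports this to the `N ∈ (X, 2X]`, `N ≡ r`, with the error `(1 + g)(B' - A) ≤ (1 + 2 L^2 ρ) 2X/d`; summed over `r` this is `≤ ε' (X/d)(H/L^K) ρ` as `H ≥ L^C`. Sum over `r < d`: `∑_r |S'| ≤ |S|`, `∑_r (H/d)/L'^(K+1) ≤ H/L^K`.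
The change from `cW w1 sg w1 d ρ'` to `cW w sg w d ρ` as in WL/DL.lean by `dwA`, `dwB` with `H := X`.
-/

set_option autoImplicit false

open Finset

namespace Pool.Agent.Lib.WT

open Pool.Agent.Lib.SW (wX cX WX SN)
open Pool.Agent.Lib.WL (cD cT Sq)
open Pool.Agent.Lib.T8 (dT)
open Pool.Agent.Lib.MP_5d7b92_nt.UA (sg cW)

private theorem dlT_nb (d r X : ℕ) (hr : r < d) (hX : 4 * d ≤ X) :
    d * ((X - r) / d) ≤ X ∧ X ≤ 2 * (d * ((X - r) / d)) ∧ (X + X - r) / d ≤ 2 * ((X - r) / d) + 2 ∧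
      d * ((X + X - r) / d - (X - r) / d) ≤ 2 * X := by
  have hd : 0 < d := by omega
  have a1 := Nat.div_add_mod (X - r) d
  have a2 := Nat.mod_lt (X - r) hd
  have b1 := Nat.div_add_mod (X + X - r) d
  have b2 := Nat.mod_lt (X + X - r) hd
  obtain ⟨a, ha⟩ : ∃ a, a = (X - r) / d := ⟨_, rfl⟩
  obtain ⟨b, hb⟩ : ∃ b, b = (X + X - r) / d := ⟨_, rfl⟩
  rw [← ha] at a1
  rw [← hb] at b1
  rw [← ha, ← hb]
  refine ⟨by omega, by omega, ?_, ?_⟩
  · by_contra h
    have h1 : 2 * a + 3 ≤ b := by omega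
    have h2 : d * (2 * a + 3) ≤ d * b := Nat.mul_le_mul_left d h1
    have h3 : d * (2 * a + 3) = 2 * (d * a) + 3 * d := by ring
    omega
  · rw [Nat.mul_sub]
    omega

private theorem dlT_class (d r k w X : ℕ) (T S : Finset ℕ) (g : ℝ) (hg : 0 ≤ g) (hr : r < d) (hX : 4 * d ≤ X) :
    ∑ N ∈ (Ioc X (X + X)).filter (fun N => N % d = r), |(cD d k T S N : ℝ) - g * sg w d S N| ≤
      ∑ N ∈ Ioc ((X - r) / d) ((X - r) / d + (X - r) / d),
          |(cT k T (Sq d r S) N : ℝ) - g * (SN (primorial w) (Sq d r S) N).card| +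
        2 * (1 + g) * (Sq d r S).card + (1 + g) * (2 * ((X : ℝ) / d)) := by
  obtain ⟨n1, n2, n3, n4⟩ := dlT_nb d r X hr hX
  have hd0 : (0 : ℝ) < d := by exact_mod_cast (by omega : 0 < d)
  have h0 := Pool.Agent.Lib.WL.dcL d r k w X X T S g hg hr (by omega)
  obtain ⟨A, hA⟩ : ∃ A, A = (X - r) / d := ⟨_, rfl⟩
  obtain ⟨B', hB'⟩ : ∃ B', B' = (X + X - r) / d := ⟨_, rfl⟩
  rw [← hA, ← hB'] at h0
  rw [← hA] at n1 n2
  rw [← hA, ← hB'] at n3 n4
  rw [← hA]
  refine h0.trans ?_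
  have hF : ∀ N, |(cT k T (Sq d r S) N : ℝ) - g * (SN (primorial w) (Sq d r S) N).card| ≤
      (1 + g) * (Sq d r S).card := by
    intro N
    have c1 : (cT k T (Sq d r S) N : ℝ) ≤ (Sq d r S).card := by
      exact_mod_cast card_filter_le _ _
    have c2 : ((SN (primorial w) (Sq d r S) N).card : ℝ) ≤ (Sq d r S).card := by
      exact_mod_cast card_filter_le _ _
    have c3 : (0 : ℝ) ≤ (cT k T (Sq d r S) N : ℝ) := Nat.cast_nonneg _
    have c4 : (0 : ℝ) ≤ ((SN (primorial w) (Sq d r S) N).card : ℝ) := Nat.cast_nonneg _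
    have c5 : g * ((SN (primorial w) (Sq d r S) N).card : ℝ) ≤ g * (Sq d r S).card :=
      mul_le_mul_of_nonneg_left c2 hg
    have c6 : 0 ≤ g * ((SN (primorial w) (Sq d r S) N).card : ℝ) := mul_nonneg hg c4
    rw [abs_le]
    constructor <;> nlinarith
  have h1 : ∑ N ∈ Ioc A B', |(cT k T (Sq d r S) N : ℝ) - g * (SN (primorial w) (Sq d r S) N).card| ≤
      ∑ N ∈ Ioc A (A + A), |(cT k T (Sq d r S) N : ℝ) - g * (SN (primorial w) (Sq d r S) N).card| +
        2 * (1 + g) * (Sq d r S).card := by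
    have hsub : Ioc A B' ⊆ Ioc A (A + A) ∪ Ioc (A + A) (A + A + 2) := by
      intro N hN
      rw [mem_union, mem_Ioc, mem_Ioc]
      rw [mem_Ioc] at hN
      omega
    calc ∑ N ∈ Ioc A B', |(cT k T (Sq d r S) N : ℝ) - g * (SN (primorial w) (Sq d r S) N).card|
        ≤ ∑ N ∈ Ioc A (A + A) ∪ Ioc (A + A) (A + A + 2),
            |(cT k T (Sq d r S) N : ℝ) - g * (SN (primorial w) (Sq d r S) N).card| :=
          sum_le_sum_of_subset_of_nonneg hsub fun _ _ _ => abs_nonneg _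
      _ ≤ ∑ N ∈ Ioc A (A + A), |(cT k T (Sq d r S) N : ℝ) - g * (SN (primorial w) (Sq d r S) N).card| +
          ∑ N ∈ Ioc (A + A) (A + A + 2),
            |(cT k T (Sq d r S) N : ℝ) - g * (SN (primorial w) (Sq d r S) N).card| := by
          rw [← sum_union_inter]
          exact le_add_of_nonneg_right (sum_nonneg fun _ _ => abs_nonneg _)
      _ ≤ ∑ N ∈ Ioc A (A + A), |(cT k T (Sq d r S) N : ℝ) - g * (SN (primorial w) (Sq d r S) N).card| +
          ∑ _N ∈ Ioc (A + A) (A + A + 2), (1 + g) * ((Sq d r S).card : ℝ) := by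
          gcongr with N hN
          exact hF N
      _ = ∑ N ∈ Ioc A (A + A), |(cT k T (Sq d r S) N : ℝ) - g * (SN (primorial w) (Sq d r S) N).card| +
          2 * (1 + g) * (Sq d r S).card := by
          rw [sum_const, Nat.card_Ioc, nsmul_eq_mul]
          have : A + A + 2 - (A + A) = 2 := by omega
          rw [this]
          push_cast
          ring
  have h2 : ((B' - A : ℕ) : ℝ) ≤ 2 * ((X : ℝ) / d) := by
    rw [← mul_div_assoc, le_div_iff₀ hd0]
    have : ((d * (B' - A) : ℕ) : ℝ) ≤ ((2 * X : ℕ) : ℝ) := by exact_mod_cast n4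
    push_cast at this ⊢
    linarith
  have h3 : (1 + g) * ((B' - A : ℕ) : ℝ) ≤ (1 + g) * (2 * ((X : ℝ) / d)) :=
    mul_le_mul_of_nonneg_left h2 (by linarith)
  linarith

open Filter in
private theorem dlT_large (c : ℝ) (m : ℕ) : ∃ X1 : ℕ, ∀ X : ℕ, X1 ≤ X → c ≤ Real.log X ∧
    c * Real.log X ^ m ≤ X ∧ 2 * Real.log X ≤ (X : ℝ) ^ (1 / 2 : ℝ) ∧ c ≤ wX X := by
  have t1 : Tendsto (fun X : ℕ => Real.log (X : ℝ)) atTop atTop :=
    Real.tendsto_log_atTop.comp tendsto_natCast_atTop_atTop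
  have e1 : ∀ᶠ X : ℕ in atTop, c ≤ Real.log (X : ℝ) := t1.eventually_ge_atTop c
  have e2 : ∀ᶠ x : ℝ in atTop, c * Real.log x ^ m ≤ x := by
    have h := (Real.isLittleO_pow_log_id_atTop (n := m)).def (show (0 : ℝ) < 1 / (|c| + 1) by positivity)
    filter_upwards [h, eventually_ge_atTop (1 : ℝ)] with x hx hx1
    have hl : 0 ≤ Real.log x := Real.log_nonneg hx1
    simp only [id, Real.norm_eq_abs] at hx
    rw [abs_of_nonneg (by linarith : (0 : ℝ) ≤ x), abs_of_nonneg (pow_nonneg hl m)] at hx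
    have hc : 0 < |c| + 1 := by positivity
    calc c * Real.log x ^ m ≤ (|c| + 1) * Real.log x ^ m :=
          mul_le_mul_of_nonneg_right (by linarith [le_abs_self c]) (pow_nonneg hl m)
      _ ≤ (|c| + 1) * (1 / (|c| + 1) * x) := mul_le_mul_of_nonneg_left hx hc.le
      _ = x := by field_simp
  have e3 : ∀ᶠ x : ℝ in atTop, 2 * Real.log x ≤ x ^ (1 / 2 : ℝ) := by
    have h := (isLittleO_log_rpow_atTop (show (0 : ℝ) < 1 / 2 by norm_num)).def (show (0 : ℝ) < 1 / 2 by norm_num)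
    filter_upwards [h, eventually_ge_atTop (1 : ℝ)] with x hx hx1
    have hl : 0 ≤ Real.log x := Real.log_nonneg hx1
    simp only [Real.norm_eq_abs] at hx
    rw [abs_of_nonneg hl, abs_of_nonneg (Real.rpow_nonneg (by linarith) _)] at hx
    linarith
  have e4 : ∀ᶠ X : ℕ in atTop, c ≤ (wX X : ℝ) := by
    have h : Tendsto (fun X : ℕ => ((wX X : ℕ) : ℝ)) atTop atTop :=
      tendsto_natCast_atTop_atTop.comp (tendsto_nat_floor_atTop.comp (Real.tendsto_log_atTop.comp t1))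
    exact h.eventually_ge_atTop c
  obtain ⟨X1, hX1⟩ := eventually_atTop.1 (e1.and ((tendsto_natCast_atTop_atTop.eventually e2).and
    ((tendsto_natCast_atTop_atTop.eventually e3).and e4)))
  exact ⟨X1, fun X hX => hX1 X hX⟩

private theorem dlT_dT (k B : ℕ) (X : ℕ) (T : Finset ℕ) (L : ℝ) (hL : L = Real.log X) (hL1 : 1 ≤ L)
    (hX : (0 : ℝ) < X) (hT : ∀ q ∈ T, q.Prime ∧ (q : ℝ) ≤ (X : ℝ) ^ (1 / 4 : ℝ))
    (hTs : 1 / L ^ B ≤ ∑ q ∈ T, 1 / (q : ℝ)) :
    1 / (L ^ (B + 1) * (Nat.factorial (k - 2) : ℝ)) ≤ dT k T X / L := by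
  have hL0 : 0 < L := by linarith
  have hf : (0 : ℝ) < (Nat.factorial (k - 2) : ℝ) := by exact_mod_cast Nat.factorial_pos _
  have h1 : ∑ q ∈ T, 1 / (q : ℝ) * (1 / (Nat.factorial (k - 2) : ℝ)) ≤ dT k T X := by
    unfold dT
    refine sum_le_sum fun q hq => ?_
    obtain ⟨hq1, hq2⟩ := hT q hq
    have hq0 : (0 : ℝ) < q := by exact_mod_cast hq1.pos
    have hlq : 0 < Real.log q := Real.log_pos (by exact_mod_cast hq1.one_lt)
    have hlq4 : Real.log q ≤ L / 4 := by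
      have := Real.log_le_log hq0 hq2
      rw [Real.log_rpow hX, ← hL] at this
      linarith
    have h2 : 1 ≤ Real.log (Real.log X / Real.log q) := by
      rw [← hL, Real.le_log_iff_exp_le (div_pos hL0 hlq)]
      have h4 : (4 : ℝ) ≤ L / Real.log q := by
        rw [le_div_iff₀ hlq]
        linarith
      have he := Real.exp_one_lt_d9
      linarith
    have h3 : 1 ≤ (Real.log (Real.log X / Real.log q)) ^ (k - 2) := one_le_pow₀ h2
    gcongr
  rw [← sum_mul] at h1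
  rw [div_le_div_iff₀ (by positivity) hL0]
  have h5 : 1 / L ^ B * (1 / (Nat.factorial (k - 2) : ℝ)) ≤ dT k T X :=
    (mul_le_mul_of_nonneg_right hTs (by positivity)).trans h1
  have h6 : 1 / L ^ B * (1 / (Nat.factorial (k - 2) : ℝ)) * (L ^ (B + 1) * (Nat.factorial (k - 2) : ℝ)) = L := by
    rw [pow_succ]
    field_simp
  have h7 := mul_le_mul_of_nonneg_right h5 (show 0 ≤ L ^ (B + 1) * (Nat.factorial (k - 2) : ℝ) by positivity)
  rw [h6] at h7
  linarith

theorem dlT (k K B : ℕ) (hk : 2 ≤ k) : ∃ c0 C : ℕ, ∀ ε : ℝ, 0 < ε → ∃ η : ℝ, 0 < η ∧ ∃ X0 : ℕ, ∀ (X H : ℕ) (w' : ℝ) (T : Finset ℕ),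
    X0 ≤ X → 1 ≤ w' → w' ≤ (X : ℝ) ^ η → w' * (Real.log X) ^ C ≤ H → H * H ≤ X → (∀ q ∈ T, q.Prime ∧ (Real.log X) ^ c0 ≤ q ∧ (q : ℝ) ≤ w') →
      1 / (Real.log X) ^ B ≤ ∑ q ∈ T, 1 / (q : ℝ) → ∀ S : Finset ℕ, S ⊆ Icc 1 H → ∀ d : ℕ, 1 ≤ d → (d : ℝ) ≤ Real.log X →
        ∑ N ∈ Ioc X (X + X), |(cD d k T S N : ℝ) - cX X * (sg (wX X) d S N : ℝ) * (dT k T X / Real.log X)| ≤
          ε * (X / d) * (S.card + H / (Real.log X) ^ K) * (dT k T X / Real.log X) := by
  obtain ⟨c0, C', hal⟩ := alT k (K + 1) (B + 1) hk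
  refine ⟨c0, C' + K + B + 8, fun ε hε => ?_⟩
  obtain ⟨δ, hδ⟩ : ∃ δ : ℝ, δ = min (ε / 8) 1 := ⟨_, rfl⟩
  have hδ0 : 0 < δ := by rw [hδ]; exact lt_min (by positivity) one_pos
  have hδ1 : δ ≤ 1 := by rw [hδ]; exact min_le_right _ _
  have hδε : 8 * δ ≤ ε := by
    have : δ ≤ ε / 8 := by rw [hδ]; exact min_le_left _ _
    linarith
  obtain ⟨η', hη', X0, hX0⟩ := hal δ hδ0
  obtain ⟨Xd, hXd⟩ := Pool.Agent.Lib.WL.dtL k δ hδ0
  obtain ⟨Xw, hXw⟩ := Pool.Agent.Lib.WL.wpL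
  obtain ⟨Xc, hXc⟩ := Pool.Agent.Lib.SW.cX_le_log
  obtain ⟨fk, hfk⟩ : ∃ fk : ℝ, fk = (Nat.factorial (k - 2) : ℝ) := ⟨_, rfl⟩
  have hfk1 : 1 ≤ fk := by
    rw [hfk]
    exact_mod_cast Nat.factorial_pos (k - 2)
  obtain ⟨M, hM⟩ : ∃ M : ℕ, M = X0 + Xc := ⟨_, rfl⟩
  obtain ⟨c, hc⟩ : ∃ c : ℝ, c = 2 * M + 8 * fk / δ + 2 ^ (K + 1) + 2 ^ (B + 1) + 12 / δ + 8 := ⟨_, rfl⟩
  obtain ⟨X1, hX1⟩ := dlT_large c (B + 3)
  refine ⟨min (η' / 2) (1 / 4), lt_min (by positivity) (by norm_num), X1 + Xd + Xw + Xc, ?_⟩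
  intro X H w' T hX hw1 hwη hwH hHH hT hTs S hS d hd1 hdL
  obtain ⟨l1, l2, l3, l4⟩ := hX1 X (by omega)
  obtain ⟨L, hL⟩ : ∃ L : ℝ, L = Real.log X := ⟨_, rfl⟩
  rw [← hL] at l1 l2 l3 hwH hTs hdL ⊢
  have p1 : (0 : ℝ) ≤ 8 * fk / δ := by positivity
  have p2 : (0 : ℝ) ≤ 12 / δ := by positivity
  have p3 : (0 : ℝ) ≤ 2 ^ (K + 1) := by positivity
  have p4 : (0 : ℝ) ≤ 2 ^ (B + 1) := by positivity
  have p5 : (0 : ℝ) ≤ M := Nat.cast_nonneg _
  have hL8 : 8 ≤ L := by linarith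
  have hLf : 8 * fk / δ ≤ L := by linarith
  have hLK : (2 : ℝ) ^ (K + 1) ≤ L := by linarith
  have hLB : (2 : ℝ) ^ (B + 1) ≤ L := by linarith
  have hL0 : 0 < L := by linarith
  have hL1 : 1 ≤ L := by linarith
  have hc0 : 8 ≤ c := by linarith
  have hXL : c * L ^ (B + 2) * L ≤ X := by
    have : c * L ^ (B + 2) * L = c * L ^ (B + 3) := by ring
    rw [this]
    exact l2
  have hLpow : ∀ n : ℕ, 1 ≤ L ^ n := fun n => one_le_pow₀ hL1
  have hX0r : (0 : ℝ) < X := by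
    have : 0 < c * L ^ (B + 2) * L := by positivity
    linarith
  have hcL : c * L ≤ X := by
    refine le_trans ?_ hXL
    have h1 := hLpow (B + 2)
    have : c * L ≤ c * L * L ^ (B + 2) := le_mul_of_one_le_right (by positivity) h1
    linarith
  have hd0 : (0 : ℝ) < d := by exact_mod_cast hd1
  have h4d : 4 * d ≤ X := by
    have : (4 : ℝ) * d ≤ X := by nlinarith
    exact_mod_cast this
  -- the primes
  have hηle : (X : ℝ) ^ (min (η' / 2) (1 / 4)) ≤ (X : ℝ) ^ (1 / 4 : ℝ) := by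
    refine Real.rpow_le_rpow_of_exponent_le ?_ (min_le_right _ _)
    nlinarith
  have hX1r : (1 : ℝ) ≤ X := by nlinarith
  have hT4 : ∀ q ∈ T, q.Prime ∧ (q : ℝ) ≤ (X : ℝ) ^ (1 / 4 : ℝ) := fun q hq =>
    ⟨(hT q hq).1, ((hT q hq).2.2.trans hwη).trans hηle⟩
  obtain ⟨ρ, hρ⟩ : ∃ ρ : ℝ, ρ = dT k T X / L := ⟨_, rfl⟩
  have hρlow : 1 / (L ^ (B + 1) * fk) ≤ ρ := by
    rw [hρ, hfk]
    exact dlT_dT k B X T L hL hL1 hX0r hT4 hTs
  have hρ0 : 0 < ρ := lt_of_lt_of_le (by positivity) hρlow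
  rw [← hρ]
  have hρ1 : 1 ≤ ρ * (L ^ (B + 1) * fk) := by
    rw [div_le_iff₀ (by positivity)] at hρlow
    exact hρlow
  -- the two smallness facts
  have hF1 : 2 * (1 + 2 * L * ρ) ≤ δ * (X / d) * ρ := by
    have q1 : 8 * fk ≤ δ * c := by
      have : 8 * fk / δ ≤ c := by linarith
      rw [div_le_iff₀ hδ0] at this
      linarith
    have q2 : δ * (c * L ^ (B + 2)) ≤ δ * (X / d) := by
      refine mul_le_mul_of_nonneg_left ?_ hδ0.le
      rw [le_div_iff₀ hd0]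
      exact (mul_le_mul_of_nonneg_left hdL (by positivity)).trans hXL
    have q3 : 8 * fk * L ^ (B + 2) ≤ δ * (X / d) := by
      refine le_trans ?_ q2
      rw [← mul_assoc]
      exact mul_le_mul_of_nonneg_right q1 (by positivity)
    have q4 : 8 * fk * L ^ (B + 2) * ρ ≤ δ * (X / d) * ρ := mul_le_mul_of_nonneg_right q3 hρ0.le
    have q5 : 8 * fk * L ^ (B + 2) * ρ = 8 * L * (ρ * (L ^ (B + 1) * fk)) := by ring
    have q6 : 4 * L ≤ 4 * L * (ρ * (L ^ (B + 1) * fk)) := le_mul_of_one_le_right (by positivity) hρ1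
    have q7 : ρ ≤ ρ * (L ^ (B + 1) * fk) := by
      refine le_mul_of_one_le_right hρ0.le ?_
      exact one_le_mul_of_one_le_of_one_le (hLpow _) hfk1
    have q8 : 4 * L * ρ ≤ 4 * L * (ρ * (L ^ (B + 1) * fk)) := mul_le_mul_of_nonneg_left q7 (by positivity)
    linarith
  have hHL : L ^ (C' + K + B + 8) ≤ H := by
    refine le_trans ?_ hwH
    exact le_mul_of_one_le_left (by positivity) hw1
  have hF2 : 2 * (1 + 2 * L * ρ) * d ≤ δ * (H / L ^ K) * ρ := by
    have q1 : 8 * fk ≤ δ * L := by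
      rw [div_le_iff₀ hδ0] at hLf
      linarith
    have q2 : L ^ (B + 4) ≤ H / L ^ K := by
      rw [le_div_iff₀ (by positivity)]
      refine le_trans ?_ hHL
      rw [← pow_add]
      exact pow_le_pow_right₀ hL1 (by omega)
    have q3 : 8 * fk * L ^ (B + 3) ≤ δ * (H / L ^ K) := by
      calc 8 * fk * L ^ (B + 3) ≤ δ * L * L ^ (B + 3) := mul_le_mul_of_nonneg_right q1 (by positivity)
        _ = δ * L ^ (B + 4) := by ring
        _ ≤ δ * (H / L ^ K) := mul_le_mul_of_nonneg_left q2 hδ0.le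
    have q4 : 8 * fk * L ^ (B + 3) * ρ ≤ δ * (H / L ^ K) * ρ := mul_le_mul_of_nonneg_right q3 hρ0.le
    have q5 : 8 * fk * L ^ (B + 3) * ρ = 8 * L ^ 2 * (ρ * (L ^ (B + 1) * fk)) := by ring
    have q6 : 4 * L ^ 2 ≤ 4 * L ^ 2 * (ρ * (L ^ (B + 1) * fk)) := le_mul_of_one_le_right (by positivity) hρ1
    have q7 : ρ ≤ ρ * (L ^ (B + 1) * fk) := by
      refine le_mul_of_one_le_right hρ0.le ?_
      exact one_le_mul_of_one_le_of_one_le (hLpow _) hfk1
    have q8 : 4 * L ^ 2 * ρ ≤ 4 * L ^ 2 * (ρ * (L ^ (B + 1) * fk)) := mul_le_mul_of_nonneg_left q7 (by positivity)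
    have q9 : 2 * (1 + 2 * L * ρ) * d ≤ 2 * (1 + 2 * L * ρ) * L :=
      mul_le_mul_of_nonneg_left hdL (by positivity)
    have q10 : 2 * (1 + 2 * L * ρ) * L = 2 * L + 4 * L ^ 2 * ρ := by ring
    have q11 : 2 * L ≤ 4 * L ^ 2 := by nlinarith
    linarith
  -- the bounds for A
  have hAfacts : ∀ r < d, (X : ℝ) / (2 * L) ≤ (((X - r) / d : ℕ) : ℝ) ∧ (X - r) / d ≤ X ∧
      ((((X - r) / d : ℕ) : ℝ) ≤ X / d) ∧ Real.log (((X - r) / d : ℕ) : ℝ) ≤ L ∧ L / 2 ≤ Real.log (((X - r) / d : ℕ) : ℝ) ∧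
      M ≤ (X - r) / d := by
    intro r hr
    obtain ⟨n1, n2, -, -⟩ := dlT_nb d r X hr h4d
    obtain ⟨A, hA⟩ : ∃ A, A = (X - r) / d := ⟨_, rfl⟩
    rw [← hA] at n1 n2 ⊢
    have n1' : (d : ℝ) * A ≤ X := by exact_mod_cast n1
    have n2' : (X : ℝ) ≤ 2 * (d * A) := by exact_mod_cast n2
    have hAn : (0 : ℝ) ≤ A := Nat.cast_nonneg _
    have a1 : (X : ℝ) / (2 * L) ≤ A := by
      rw [div_le_iff₀ (by positivity)]
      have : (d : ℝ) * A ≤ L * A := mul_le_mul_of_nonneg_right hdL hAn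
      linarith
    have a2 : A ≤ X := by
      rw [hA]
      exact (Nat.div_le_self _ _).trans (Nat.sub_le _ _)
    have hs : (X : ℝ) ^ (1 / 2 : ℝ) * (X : ℝ) ^ (1 / 2 : ℝ) = X := by
      rw [← Real.rpow_add hX0r]
      norm_num
    have hsq : (X : ℝ) ^ (1 / 2 : ℝ) ≤ (X : ℝ) / (2 * L) := by
      rw [le_div_iff₀ (by positivity)]
      have := mul_le_mul_of_nonneg_left l3 (Real.rpow_nonneg hX0r.le (1 / 2 : ℝ))
      linarith
    have hspos : 0 < (X : ℝ) ^ (1 / 2 : ℝ) := Real.rpow_pos_of_pos hX0r _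
    have hApos : (0 : ℝ) < A := by linarith
    refine ⟨a1, a2, ?_, ?_, ?_, ?_⟩
    · rw [le_div_iff₀ hd0]
      linarith
    · rw [hL]
      exact Real.log_le_log hApos (by exact_mod_cast a2)
    · have := Real.log_le_log hspos (hsq.trans a1)
      rw [Real.log_rpow hX0r, ← hL] at this
      linarith
    · have h1 : (2 * (M : ℝ)) * L ≤ X := by
        refine le_trans ?_ hcL
        exact mul_le_mul_of_nonneg_right (by linarith) hL0.le
      have h2 : (M : ℝ) ≤ X / (2 * L) := by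
        rw [le_div_iff₀ (by positivity)]
        linarith
      exact_mod_cast h2.trans a1
  -- one class
  obtain ⟨w, hw⟩ : ∃ w, w = wX X := ⟨_, rfl⟩
  rw [← hw] at l4 ⊢
  have hcXw : cX X = cW w := by
    rw [hw]
    rfl
  rw [hcXw]
  have hclass : ∀ r ∈ range d,
      ∑ N ∈ (Ioc X (X + X)).filter (fun N => N % d = r), |(cD d k T S N : ℝ) - cW w * (sg w d S N : ℝ) * ρ| ≤
        3 * δ * (X / d) * ρ * ((Sq d r S).card + (H / d) / L ^ K) +
          ∑ N ∈ (Ioc X (X + X)).filter (fun N => N % d = r),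
            (2 * ρ * |cW (w - 1) * (sg (w - 1) d S N : ℝ) - cW w * (sg w d S N : ℝ)| +
              δ * ρ * (cW w * (sg w d S N : ℝ))) := by
    intro r hr
    rw [mem_range] at hr
    obtain ⟨a1, a2, a3, a4, a5, a6⟩ := hAfacts r hr
    obtain ⟨A, hA⟩ : ∃ A, A = (X - r) / d := ⟨_, rfl⟩
    rw [← hA] at a1 a2 a3 a4 a5 a6
    have hAn : (0 : ℝ) ≤ A := Nat.cast_nonneg _
    have hA0 : (0 : ℝ) < A := by
      have : (0 : ℝ) < X / (2 * L) := by positivity
      linarith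
    obtain ⟨ρ', hρ'⟩ : ∃ ρ' : ℝ, ρ' = dT k T A / Real.log A := ⟨_, rfl⟩
    have hdt := hXd X A T (by omega) (by rw [← hL]; exact a1) a2 hT4
    rw [← hL, ← hρ, ← hρ'] at hdt
    have hdt' := abs_le.1 hdt
    have hρρ : δ * ρ ≤ ρ := mul_le_of_le_one_left hρ0.le hδ1
    have hρ'0 : 0 ≤ ρ' := by linarith
    have hρ'2 : ρ' ≤ 2 * ρ := by linarith
    have hw1' := hXw X A (by omega) (by rw [← hL]; exact a1) a2
    rw [← hw] at hw1'
    obtain ⟨w1, hw1e⟩ : ∃ w1, w1 = wX A := ⟨_, rfl⟩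
    rw [← hw1e] at hw1'
    have hcA := (hXc A (by omega)).1
    have hcXA : cX A = cW w1 := by
      rw [hw1e]
      rfl
    have hcW0 : 0 ≤ cW w1 := by
      unfold Pool.Agent.Lib.MP_5d7b92_nt.UA.cW
      positivity
    have hcW0' : 0 ≤ cW w := by
      unfold Pool.Agent.Lib.MP_5d7b92_nt.UA.cW
      positivity
    rw [hcXA] at hcA
    obtain ⟨g, hg⟩ : ∃ g : ℝ, g = cW w1 * ρ' := ⟨_, rfl⟩
    have hg0 : 0 ≤ g := by rw [hg]; exact mul_nonneg hcW0 hρ'0
    have hg2 : g ≤ 2 * L * ρ := by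
      rw [hg]
      calc cW w1 * ρ' ≤ L * (2 * ρ) := mul_le_mul (hcA.trans a4) hρ'2 hρ'0 hL0.le
        _ = 2 * L * ρ := by ring
    have hcl := dlT_class d r k w1 X T S g hg0 hr h4d
    rw [← hA] at hcl
    -- the theorem at A
    have hSq : Sq d r S ⊆ Icc 1 (H / d) := by
      intro x hx
      simp only [Sq, mem_filter, mem_image] at hx
      obtain ⟨⟨s, ⟨hs, _⟩, rfl⟩, hx1⟩ := hx
      rw [mem_Icc]
      exact ⟨hx1, Nat.div_le_div_right (mem_Icc.1 (hS hs)).2⟩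
    have hlogA0 : 0 ≤ Real.log A := by linarith
    have hlogA1 : 0 < Real.log A := by linarith
    have hmain := hX0 A (H / d) w' T (by omega) hw1 ?_ ?_ ?_ ?_ ?_ (Sq d r S) hSq
    rotate_left
    · -- w' ≤ A^η'
      have hs : (X : ℝ) ^ (1 / 2 : ℝ) * (X : ℝ) ^ (1 / 2 : ℝ) = X := by
        rw [← Real.rpow_add hX0r]
        norm_num
      have hsq : (X : ℝ) ^ (1 / 2 : ℝ) ≤ A := by
        refine le_trans ?_ a1
        rw [le_div_iff₀ (by positivity)]
        have := mul_le_mul_of_nonneg_left l3 (Real.rpow_nonneg hX0r.le (1 / 2 : ℝ))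
        linarith
      calc w' ≤ (X : ℝ) ^ (min (η' / 2) (1 / 4)) := hwη
        _ ≤ (X : ℝ) ^ (η' / 2) := Real.rpow_le_rpow_of_exponent_le hX1r (min_le_left _ _)
        _ = ((X : ℝ) ^ (1 / 2 : ℝ)) ^ η' := by
          rw [← Real.rpow_mul hX0r.le]
          congr 1
          ring
        _ ≤ (A : ℝ) ^ η' := Real.rpow_le_rpow (Real.rpow_nonneg hX0r.le _) hsq hη'.le
    · -- w' (log A)^C' ≤ H/d
      have h1 : (H : ℝ) / d < ((H / d : ℕ) : ℝ) + 1 := by
        rw [div_lt_iff₀ hd0]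
        have : H < d * (H / d + 1) := Nat.lt_mul_div_succ H hd1
        have h2 : (H : ℝ) < d * (((H / d : ℕ) : ℝ) + 1) := by exact_mod_cast this
        linarith
      have h2 : w' * L ^ (C' + 1) ≤ (H : ℝ) / d := by
        rw [le_div_iff₀ hd0]
        calc w' * L ^ (C' + 1) * d ≤ w' * L ^ (C' + 1) * L := mul_le_mul_of_nonneg_left hdL (by positivity)
          _ = w' * L ^ (C' + 2) := by ring
          _ ≤ w' * L ^ (C' + K + B + 8) :=
            mul_le_mul_of_nonneg_left (pow_le_pow_right₀ hL1 (by omega)) (by linarith)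
          _ ≤ H := hwH
      have h3 : w' * Real.log A ^ C' ≤ w' * L ^ C' :=
        mul_le_mul_of_nonneg_left (pow_le_pow_left₀ hlogA0 a4 _) (by linarith)
      have h4 : 1 ≤ w' * L ^ C' := one_le_mul_of_one_le_of_one_le hw1 (hLpow _)
      have h5 : w' * L ^ (C' + 1) = w' * L ^ C' * L := by ring
      have h6 : w' * L ^ C' * 2 ≤ w' * L ^ C' * L := mul_le_mul_of_nonneg_left (by linarith) (by linarith)
      linarith
    · -- (H/d)^2 ≤ A
      rw [hA, Nat.le_div_iff_mul_le (by omega)]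
      rcases Nat.lt_or_ge 1 d with hd2 | hd2
      · have h1 : d * (H / d) ≤ H := Nat.mul_div_le H d
        have h2 : (d * (H / d)) * (d * (H / d)) ≤ X := (Nat.mul_le_mul h1 h1).trans hHH
        have h3 : (H / d * (H / d) * d) * d ≤ X := by
          have : (H / d * (H / d) * d) * d = (d * (H / d)) * (d * (H / d)) := by ring
          rw [this]
          exact h2
        have h4 : (H / d * (H / d) * d) * 2 ≤ (H / d * (H / d) * d) * d := Nat.mul_le_mul_left _ hd2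
        omega
      · have hd' : d = 1 := by omega
        have hr' : r = 0 := by omega
        rw [hd', hr']
        simpa using hHH
    · intro q hq
      obtain ⟨q1, q2, q3⟩ := hT q hq
      refine ⟨q1, le_trans ?_ q2, q3⟩
      rw [← hL]
      exact pow_le_pow_left₀ hlogA0 a4 _
    · refine le_trans ?_ hTs
      refine one_div_le_one_div_of_le (by positivity) ?_
      have h1 : (L / 2) ^ (B + 1) ≤ Real.log A ^ (B + 1) := pow_le_pow_left₀ (by positivity) a5 _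
      refine le_trans ?_ h1
      rw [div_pow, le_div_iff₀ (by positivity)]
      calc L ^ B * 2 ^ (B + 1) ≤ L ^ B * L := mul_le_mul_of_nonneg_left hLB (by positivity)
        _ = L ^ (B + 1) := by ring
    have hsum1 : ∑ N ∈ Ioc A (A + A), |(cT k T (Sq d r S) N : ℝ) - g * (SN (primorial w1) (Sq d r S) N).card| ≤
        2 * δ * (X / d) * ρ * ((Sq d r S).card + (H / d) / L ^ K) := by
      have e1 : ∑ N ∈ Ioc A (A + A), |(cT k T (Sq d r S) N : ℝ) - g * (SN (primorial w1) (Sq d r S) N).card| =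
          ∑ N ∈ Ioc A (A + A), |(cT k T (Sq d r S) N : ℝ) - cX A * (SN (WX A) (Sq d r S) N).card *
            (dT k T A / Real.log A)| := by
        refine sum_congr rfl fun N _ => ?_
        have : WX A = primorial w1 := by
          rw [hw1e]
          rfl
        rw [this, hcXA, ← hρ', hg]
        congr 2
        ring
      rw [e1]
      refine hmain.trans ?_
      rw [← hρ']
      have h1 : ((H / d : ℕ) : ℝ) / Real.log A ^ (K + 1) ≤ (H / d) / L ^ K := by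
        have h2 : ((H / d : ℕ) : ℝ) ≤ (H : ℝ) / d := Nat.cast_div_le
        have h3 : L ^ K ≤ Real.log A ^ (K + 1) := by
          refine le_trans ?_ (pow_le_pow_left₀ (by positivity : (0 : ℝ) ≤ L / 2) a5 (K + 1))
          rw [div_pow, le_div_iff₀ (by positivity)]
          calc L ^ K * 2 ^ (K + 1) ≤ L ^ K * L := mul_le_mul_of_nonneg_left hLK (by positivity)
            _ = L ^ (K + 1) := by ring
        exact div_le_div₀ (by positivity) h2 (by positivity) h3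
      have h4 : ((Sq d r S).card : ℝ) + ((H / d : ℕ) : ℝ) / Real.log A ^ (K + 1) ≤
          (Sq d r S).card + (H / d) / L ^ K := by linarith
      have h5 : (0 : ℝ) ≤ (Sq d r S).card + ((H / d : ℕ) : ℝ) / Real.log A ^ (K + 1) := by positivity
      calc δ * A * ((Sq d r S).card + ((H / d : ℕ) : ℝ) / Real.log A ^ (K + 1)) * ρ'
          ≤ δ * (X / d) * ((Sq d r S).card + (H / d) / L ^ K) * (2 * ρ) := by
            gcongr
        _ = 2 * δ * (X / d) * ρ * ((Sq d r S).card + (H / d) / L ^ K) := by ring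
    have hsum2 : 2 * (1 + g) * ((Sq d r S).card : ℝ) ≤ δ * (X / d) * ρ * (Sq d r S).card := by
      refine mul_le_mul_of_nonneg_right ?_ (Nat.cast_nonneg _)
      linarith
    have hsum3 : (1 + g) * (2 * ((X : ℝ) / d)) ≤ δ * (X / d) * ρ * ((H / d) / L ^ K) := by
      have h1 : 2 * (1 + g) * d ≤ δ * (H / L ^ K) * ρ := by
        refine le_trans ?_ hF2
        exact mul_le_mul_of_nonneg_right (by linarith) hd0.le
      have h2 : 2 * (1 + g) ≤ δ * (H / L ^ K) * ρ / d := by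
        rw [le_div_iff₀ hd0]
        exact h1
      calc (1 + g) * (2 * ((X : ℝ) / d)) = (2 * (1 + g)) * ((X : ℝ) / d) := by ring
        _ ≤ (δ * (H / L ^ K) * ρ / d) * ((X : ℝ) / d) := mul_le_mul_of_nonneg_right h2 (by positivity)
        _ = δ * (X / d) * ρ * ((H / d) / L ^ K) := by ring
    have hpt : ∀ N ∈ (Ioc X (X + X)).filter (fun N => N % d = r),
        |(cD d k T S N : ℝ) - cW w * (sg w d S N : ℝ) * ρ| ≤ |(cD d k T S N : ℝ) - g * sg w1 d S N| +
          (2 * ρ * |cW (w - 1) * (sg (w - 1) d S N : ℝ) - cW w * (sg w d S N : ℝ)| +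
              δ * ρ * (cW w * (sg w d S N : ℝ))) := by
      intro N _
      have e1 : (cD d k T S N : ℝ) - cW w * (sg w d S N : ℝ) * ρ =
          ((cD d k T S N : ℝ) - g * sg w1 d S N) +
            (ρ' * (cW w1 * (sg w1 d S N : ℝ) - cW w * (sg w d S N : ℝ)) + (ρ' - ρ) * (cW w * (sg w d S N : ℝ))) := by
        rw [hg]
        ring
      rw [e1]
      refine (abs_add_le _ _).trans (add_le_add le_rfl ((abs_add_le _ _).trans (add_le_add ?_ ?_)))
      · rw [abs_mul, abs_of_nonneg hρ'0]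
        refine mul_le_mul hρ'2 ?_ (abs_nonneg _) (by positivity)
        rcases hw1' with h | h
        · rw [h, sub_self, abs_zero]
          exact abs_nonneg _
        · have : w1 = w - 1 := by omega
          rw [this]
      · rw [abs_mul, abs_of_nonneg (mul_nonneg hcW0' (Nat.cast_nonneg _))]
        exact mul_le_mul_of_nonneg_right hdt (mul_nonneg hcW0' (Nat.cast_nonneg _))
    refine (sum_le_sum hpt).trans ?_
    rw [sum_add_distrib]
    refine add_le_add ?_ le_rfl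
    refine hcl.trans ?_
    have hfin : 3 * δ * (X / d) * ρ * ((Sq d r S).card + (H / d) / L ^ K) =
        2 * δ * (X / d) * ρ * ((Sq d r S).card + (H / d) / L ^ K) + δ * (X / d) * ρ * (Sq d r S).card +
          δ * (X / d) * ρ * ((H / d) / L ^ K) := by ring
    rw [hfin]
    linarith
  -- sum over the classes
  have hmaps : ∀ N ∈ Ioc X (X + X), N % d ∈ range d := fun N _ => mem_range.2 (Nat.mod_lt _ hd1)
  rw [← sum_fiberwise_of_maps_to hmaps]
  refine (sum_le_sum hclass).trans ?_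
  rw [sum_add_distrib, sum_fiberwise_of_maps_to hmaps, ← mul_sum, sum_add_distrib, sum_add_distrib,
    ← mul_sum, ← mul_sum]
  have hcard : ∑ r ∈ range d, ((Sq d r S).card : ℝ) ≤ S.card := by
    have h1 : ∀ r ∈ range d, (Sq d r S).card ≤ (S.filter fun s => s % d = r).card := by
      intro r _
      exact (card_filter_le _ _).trans card_image_le
    have h2 : ∑ r ∈ range d, (S.filter fun s => s % d = r).card = S.card :=
      (card_eq_sum_card_fiberwise fun s _ => mem_coe.2 (mem_range.2 (Nat.mod_lt s hd1))).symm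
    have h3 := (sum_le_sum h1).trans h2.le
    exact_mod_cast h3
  have hconst : ∑ _r ∈ range d, ((H : ℝ) / d) / L ^ K = H / L ^ K := by
    rw [sum_const, card_range, nsmul_eq_mul]
    field_simp
  rw [hconst]
  have hW2 : (WX X : ℝ) ≤ L ^ 2 := by
    rw [hL]
    exact (hXc X (by omega)).2
  have hprim : d * primorial w ≤ X := by
    have h1 : (WX X : ℕ) = primorial w := by
      rw [hw]
      rfl
    have h2 : (d : ℝ) * (primorial w : ℝ) ≤ X := by
      rw [← h1]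
      calc (d : ℝ) * (WX X : ℝ) ≤ L * L ^ 2 := mul_le_mul hdL hW2 (Nat.cast_nonneg _) hL0.le
        _ = 1 * L ^ 2 * L := by ring
        _ ≤ c * L ^ (B + 2) * L := by
          have : L ^ 2 ≤ L ^ (B + 2) := pow_le_pow_right₀ hL1 (by omega)
          gcongr
          linarith
        _ ≤ X := hXL
    exact_mod_cast h2
  have hw12 : 12 / δ ≤ (w : ℝ) := by linarith
  have hw0 : (0 : ℝ) < w := by
    have : 0 < 12 / δ := by positivity
    linarith
  have hw0' : 1 ≤ w := by exact_mod_cast hw0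
  have hB1 := Pool.Agent.Lib.WL.dwB w (w - 1) d X X S hw0' (Or.inr (by omega)) hd1 hprim
  have hA1 := Pool.Agent.Lib.WL.dwA w d X X S hd1 hprim
  have hHK : (0 : ℝ) ≤ H / L ^ K := by positivity
  have hS0 : (0 : ℝ) ≤ S.card := Nat.cast_nonneg _
  have f1 : 3 * δ * (X / d) * ρ * (∑ r ∈ range d, ((Sq d r S).card : ℝ) + H / L ^ K) ≤
      3 * δ * (X / d) * ρ * (S.card + H / L ^ K) :=
    mul_le_mul_of_nonneg_left (by linarith) (by positivity)
  have f2 : 2 * ρ * ∑ N ∈ Ioc X (X + X), |cW (w - 1) * (sg (w - 1) d S N : ℝ) - cW w * (sg w d S N : ℝ)| ≤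
      δ * (X / d) * ρ * S.card := by
    calc 2 * ρ * ∑ N ∈ Ioc X (X + X), |cW (w - 1) * (sg (w - 1) d S N : ℝ) - cW w * (sg w d S N : ℝ)|
        ≤ 2 * ρ * (6 * S.card * (X / (d * w))) := mul_le_mul_of_nonneg_left hB1 (by positivity)
      _ = (12 / w) * ((X / d) * ρ * S.card) := by
        field_simp
        ring
      _ ≤ δ * ((X / d) * ρ * S.card) := by
        refine mul_le_mul_of_nonneg_right ?_ (by positivity)
        rw [div_le_iff₀ hw0]
        rw [div_le_iff₀ hδ0] at hw12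
        linarith
      _ = δ * (X / d) * ρ * S.card := by ring
  have f3 : δ * ρ * ∑ N ∈ Ioc X (X + X), cW w * (sg w d S N : ℝ) ≤ 3 * δ * (X / d) * ρ * S.card := by
    calc δ * ρ * ∑ N ∈ Ioc X (X + X), cW w * (sg w d S N : ℝ)
        ≤ δ * ρ * (3 * S.card * (X / d)) := mul_le_mul_of_nonneg_left hA1 (by positivity)
      _ = 3 * δ * (X / d) * ρ * S.card := by ring
  have f4 : 8 * δ * ((X / d) * (S.card + H / L ^ K) * ρ) ≤ ε * ((X / d) * (S.card + H / L ^ K) * ρ) :=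
    mul_le_mul_of_nonneg_right hδε (by positivity)
  have f5 : 0 ≤ δ * (X / d) * ρ * (H / L ^ K) := by positivity
  have f6 : 0 ≤ δ * (X / d) * ρ * (S.card : ℝ) := by positivity
  have f7 : 8 * δ * ((X / d) * (S.card + H / L ^ K) * ρ) = 3 * δ * (X / d) * ρ * (S.card + H / L ^ K) +
      5 * (δ * (X / d) * ρ * (S.card : ℝ)) + 5 * (δ * (X / d) * ρ * (H / L ^ K)) := by ring
  have f8 : ε * (X / d) * (S.card + H / L ^ K) * ρ = ε * ((X / d) * (S.card + H / L ^ K) * ρ) := by ring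
  have f9 : 3 * δ * (X / d) * ρ * (S.card : ℝ) = 3 * (δ * (X / d) * ρ * (S.card : ℝ)) := by ring
  rw [f8]
  linarith

end Pool.Agent.Lib.WT
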