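import Pool.Agent.Lib.WL.Def

/-!
# WT: the tiny form of WL: `N = s + m`, `s` in an arbitrary set `S ⊆ [1, H]` with `H` from `(log X)^C` to `√X`, `m` almost prime,
`N` in ONE class modulo `W`, `X < N ≤ 2X`. Definitions (everything else is in WL/Def: `wnd`, `cE`, `cT`, `QT`, `Dd`, `ixd`)
-/

set_option autoImplicit false

open Finset

namespace Pool.Agent.Lib.WT

open Pool.Agent.Lib.G8 (EL)

open Classical in
/-- number of the `s ∈ S` such that `N - s` has exactly `k` prime factors, the least one in `T`, but is not typical -/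
noncomputable def cN (k U : ℕ) (T S : Finset ℕ) (N : ℕ) : ℕ :=
  (S.filter fun s => s < N ∧ (N - s).primeFactorsList.length = k ∧ (N - s).minFac ∈ T ∧ ¬ EL k U T (N - s)).card

end Pool.Agent.Lib.WT
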