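import Pool.Agent.Lib.WT.Mn
import Pool.Agent.Lib.MTR.Idx

/-!
# WT, row Ix: index sets with bounded gaps: almost all even `N` are a TINY prime of given index plus an almost prime (copy of WL/Ix.lean, landed, at the scale `H`)

PROOF IN WORDS. `L = log X`, `W = WX X` (even for large `X`), `S = (Icc 1 H).filter (ixd I)`. Let `a < W` be even, `N1 ≡ a (W)` in `(H - W, H]` (exists, `W ≤ L^2 ≤ H/2`), so `N1` is even, `N1 ≥ H/2`. `every m` (MTR/Idx; constants `r`, `C'`, `N₀`; `N1 ≥ N₀` as `N1 ≥ L^C/2`) at `N1`: at least `N1/(log N1)^C'` primes `p`, `4p ≤ 3 N1` (so `p ≤ H`),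
with `π(p) ∈ I` (the hypothesis on `I` for `n ≤ N1 ≤ H`) such that all prime factors `q` of `N1 - p` have `q^r > N1 ≥ L^C/2 ≥ (log log X)^r`, so `q > log log X`: `(N1 - p, W) = 1` and `p ∈ Sa W S a` (`cop_cast`). So `|Sa W S a| ≥ (H/2)/L^C' ≥ H/L^(C'+1)` (`log N1 ≤ log H ≤ L`). `mnT k (C'+1) B` with `ε' = min ε 1/4`: for all but
`ε' X/W` of the `N ≡ a`, `X < N ≤ 2X`: `cT k T S N ≥ (3/4) c |Sa| dT/L ≥ H/L^(C'+B+5)` (`dT k T X ≥ L^(-B)/(k-2)! ≥ L^(-B-1)`, `log (log X/log q) ≥ 1` as `q ≤ X^η`, `η ≤ 1/e` w.l.o.g.). `C1 = C' + B + 5`, `C` = the one of `mnT` plus `3`. At most `W` classes: `≤ ε' X` exceptions. (`m = 0`: the hypothesis on `I` is false at `n = 0`.)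
-/

set_option autoImplicit false

open Finset

namespace Pool.Agent.Lib.WT

open Pool.Agent.Lib.WL (cT ixd)
open Pool.Agent.Lib.WL (wnd)
open Pool.Agent.Lib.SW (WX wX cX Sa cop_cast mem_Sa one_le_cX cX_le_log)
open Pool.Agent.Lib.T8 (dT)

private theorem ixt_large (r N0 F : ℕ) : ∃ X1 : ℕ, ∀ X : ℕ, X1 ≤ X → 2 ≤ wX X ∧ ((wX X : ℕ) : ℝ) ^ r ≤ Real.log X / 2 ∧
    (WX X : ℝ) ≤ (Real.log X) ^ 2 ∧ 2 ≤ Real.log X ∧ 2 * (N0 : ℝ) ≤ Real.log X ∧ (F : ℝ) ≤ Real.log X := by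
  have hL : Filter.Tendsto (fun X : ℕ => Real.log (X : ℝ)) Filter.atTop Filter.atTop :=
    Real.tendsto_log_atTop.comp tendsto_natCast_atTop_atTop
  have hLL : Filter.Tendsto (fun X : ℕ => Real.log (Real.log (X : ℝ))) Filter.atTop Filter.atTop :=
    Real.tendsto_log_atTop.comp hL
  have hpow : ∀ᶠ X : ℕ in Filter.atTop, (Real.log (Real.log (X : ℝ))) ^ r ≤ 1 / 2 * |Real.log X| := by
    have h1 := (Real.isLittleO_pow_log_id_atTop (n := r)).bound (show (0 : ℝ) < 1 / 2 by norm_num)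
    filter_upwards [hL.eventually h1] with X hX
    simp only [Real.norm_eq_abs, id_eq] at hX
    exact (le_abs_self _).trans hX
  obtain ⟨Xc, hXc⟩ := cX_le_log
  have hev := (((((hLL.eventually_ge_atTop 2).and hpow).and (hL.eventually_ge_atTop 2)).and
    (hL.eventually_ge_atTop (2 * (N0 : ℝ)))).and (hL.eventually_ge_atTop (F : ℝ))).and (Filter.eventually_ge_atTop Xc)
  obtain ⟨X1, hX1⟩ := Filter.eventually_atTop.1 hev
  refine ⟨X1, fun X hX => ?_⟩
  obtain ⟨⟨⟨⟨⟨h1, h2⟩, h3⟩, h4⟩, h5⟩, h6⟩ := hX1 X hX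
  have hLL0 : (0 : ℝ) ≤ Real.log (Real.log X) := by linarith
  have hw : ((wX X : ℕ) : ℝ) ≤ Real.log (Real.log X) := Nat.floor_le hLL0
  refine ⟨Nat.le_floor (by exact_mod_cast h1), ?_, (hXc X h6).2, h3, h4, h5⟩
  rw [abs_of_nonneg (by linarith)] at h2
  calc ((wX X : ℕ) : ℝ) ^ r ≤ (Real.log (Real.log X)) ^ r := pow_le_pow_left₀ (Nat.cast_nonneg _) hw r
    _ ≤ 1 / 2 * Real.log X := h2
    _ = Real.log X / 2 := by ring

open Classical in
private theorem ixt_class {m r Ce N0 : ℕ} (hev : ∀ N : ℕ, N0 ≤ N → Even N →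
    ∀ S : ℕ → Prop, (∀ n ≤ N, ∃ b, n < b ∧ b ≤ n + m ∧ S b) →
    N / (Real.log N) ^ Ce ≤
      (((range N).filter (fun p => N ≤ 4 * p ∧ 4 * p ≤ 3 * N ∧ p.Prime ∧ S (Nat.primeCounting p) ∧
        ∀ q : ℕ, q.Prime → q ∣ N - p → N < q ^ r)).card : ℝ)) {X H a : ℕ} (h2 : 2 ≤ wX X)
    (h3 : ((wX X : ℕ) : ℝ) ^ r ≤ Real.log X / 2) (h4 : (WX X : ℝ) ≤ (Real.log X) ^ 2) (h5 : 2 ≤ Real.log X)
    (h6 : 2 * (N0 : ℝ) ≤ Real.log X) (hH : (Real.log X) ^ 3 ≤ H) (hHX : H ≤ X)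
    (ha : a < WX X) (hae : Even a) {I : Set ℕ} (hI : ∀ n : ℕ, n ≤ H → ∃ b ∈ I, n < b ∧ b ≤ n + m) :
    H / (Real.log X) ^ (Ce + 1) ≤ ((Sa (WX X) ((Icc 1 H).filter (ixd I)) a).card : ℝ) := by
  set W := WX X with hW
  set L : ℝ := Real.log X with hL
  have hL0 : 0 < L := by linarith
  have hWe : Even W := by
    rw [hW, even_iff_two_dvd]
    exact Nat.prime_two.dvd_primorial_iff.2 h2
  have hW0 : 0 < W := by omega
  have hL23 : 2 * L ^ 2 ≤ L ^ 3 := by
    have : 0 ≤ L ^ 2 := by positivity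
    calc 2 * L ^ 2 ≤ L * L ^ 2 := mul_le_mul_of_nonneg_right h5 this
      _ = L ^ 3 := by ring
  have hL13 : L ≤ L ^ 3 := by nlinarith
  have hWH : 2 * W ≤ H := by
    have : (2 : ℝ) * W ≤ H := by linarith
    exact_mod_cast this
  have hH8 : 8 ≤ H := by
    have h7 : (2 : ℝ) ^ 3 ≤ L ^ 3 := pow_le_pow_left₀ (by norm_num) h5 3
    have : (8 : ℝ) ≤ H := by linarith
    exact_mod_cast this
  have hN0H : 2 * N0 ≤ H := by
    have : (2 : ℝ) * N0 ≤ H := by linarith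
    exact_mod_cast this
  have hwH : 2 * (wX X) ^ r ≤ H := by
    have : (2 : ℝ) * ((wX X : ℕ) : ℝ) ^ r ≤ H := by linarith
    exact_mod_cast this
  set N1 : ℕ := a + W * ((H - a) / W) with hN1
  have e0 : W * ((H - a) / W) + (H - a) % W = H - a := Nat.div_add_mod (H - a) W
  have e1 : (H - a) % W < W := Nat.mod_lt _ hW0
  have hN1H : N1 ≤ H := by omega
  have hN1l : H ≤ 2 * N1 := by omega
  have hN1m : N1 ≡ a [MOD W] := by
    show N1 % W = a % W
    rw [hN1, Nat.add_mul_mod_self_left]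
  have hN1e : Even N1 := hae.add (hWe.mul_right _)
  have h := hev N1 (by omega) hN1e (fun n => n ∈ I) (fun n hn => by
    obtain ⟨b, hb, h7, h8⟩ := hI n (by omega)
    exact ⟨b, h7, h8, hb⟩)
  have hN1pos : (1 : ℝ) < N1 := by
    have : 1 < N1 := by omega
    exact_mod_cast this
  have hlogp : 0 < Real.log N1 := Real.log_pos hN1pos
  have hlog : Real.log N1 ≤ L := by
    rw [hL]
    refine Real.log_le_log (by linarith) ?_
    exact_mod_cast hN1H.trans hHX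
  have hHN : (H : ℝ) ≤ 2 * N1 := by exact_mod_cast hN1l
  have hA : (H : ℝ) / L ^ (Ce + 1) ≤ N1 / (Real.log N1) ^ Ce := by
    calc (H : ℝ) / L ^ (Ce + 1) ≤ N1 / L ^ Ce := by
          rw [div_le_div_iff₀ (by positivity) (by positivity), pow_succ]
          have h7 : (0 : ℝ) < L ^ Ce := by positivity
          have h8 : (H : ℝ) ≤ N1 * L := by nlinarith
          calc (H : ℝ) * L ^ Ce ≤ N1 * L * L ^ Ce := mul_le_mul_of_nonneg_right h8 h7.le
            _ = N1 * (L ^ Ce * L) := by ring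
      _ ≤ N1 / (Real.log N1) ^ Ce :=
          div_le_div_of_nonneg_left (by linarith) (pow_pos hlogp _) (pow_le_pow_left₀ hlogp.le hlog Ce)
  refine (hA.trans h).trans ?_
  have hsub : (range N1).filter (fun p => N1 ≤ 4 * p ∧ 4 * p ≤ 3 * N1 ∧ p.Prime ∧ (fun n => n ∈ I) (Nat.primeCounting p) ∧
        ∀ q : ℕ, q.Prime → q ∣ N1 - p → N1 < q ^ r) ⊆ Sa W ((Icc 1 H).filter (ixd I)) a := by
    intro p hp
    rw [mem_filter, mem_range] at hp
    obtain ⟨hpN, -, h8, hpp, hpI, hq⟩ := hp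
    rw [mem_Sa]
    refine ⟨mem_filter.2 ⟨mem_Icc.2 ⟨hpp.pos, by omega⟩, hpp, hpI⟩, (cop_cast hN1m hpN).1 ?_⟩
    by_contra hc
    obtain ⟨q, hqp, hq1, hq2⟩ := Nat.Prime.not_coprime_iff_dvd.1 hc
    have h9 : q ≤ wX X := hqp.dvd_primorial_iff.1 hq2
    have h10 := hq q hqp hq1
    have h11 : q ^ r ≤ (wX X) ^ r := Nat.pow_le_pow_left h9 r
    omega
  exact_mod_cast card_le_card hsub

/-- lower bound for the density `dT` -/
private theorem ixt_dT {k B X : ℕ} {w' : ℝ} {T : Finset ℕ} (h5 : 2 ≤ Real.log X) (hF : ((k - 2).factorial : ℝ) ≤ Real.log X)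
    (hw : w' ≤ (X : ℝ) ^ (1 / 4 : ℝ)) (hT : ∀ q ∈ T, q.Prime ∧ (q : ℝ) ≤ w')
    (hB : 1 / (Real.log X) ^ B ≤ ∑ q ∈ T, 1 / (q : ℝ)) : 1 / (Real.log X) ^ (B + 1) ≤ dT k T X := by
  set L : ℝ := Real.log X with hL
  have hL0 : 0 < L := by linarith
  have hX0 : (0 : ℝ) < X := by
    rcases Nat.eq_zero_or_pos X with h | h
    · rw [hL, h, Nat.cast_zero, Real.log_zero] at h5
      norm_num at h5
    · exact_mod_cast h
  have hFp : (0 : ℝ) < ((k - 2).factorial : ℝ) := by exact_mod_cast Nat.factorial_pos _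
  have hDq : ∀ q ∈ T, 1 / L ≤ (Real.log (Real.log X / Real.log q)) ^ (k - 2) / ((k - 2).factorial : ℝ) := fun q hq => by
    obtain ⟨h1, h3⟩ := hT q hq
    have hq2 : (2 : ℝ) ≤ q := by exact_mod_cast h1.two_le
    have hlq : 0 < Real.log q := Real.log_pos (by linarith)
    have h4 : Real.log q ≤ 1 / 4 * L := by
      have h7 : Real.log q ≤ Real.log ((X : ℝ) ^ (1 / 4 : ℝ)) := Real.log_le_log (by linarith) (h3.trans hw)
      rwa [Real.log_rpow hX0] at h7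
    have h6 : 4 ≤ L / Real.log q := by
      rw [le_div_iff₀ hlq]
      linarith
    have h7 : 1 ≤ Real.log (L / Real.log q) := by
      rw [Real.le_log_iff_exp_le (by linarith)]
      have := Real.exp_one_lt_d9
      linarith
    have h8 : 1 ≤ (Real.log (Real.log X / Real.log q)) ^ (k - 2) := one_le_pow₀ h7
    calc 1 / L ≤ 1 / ((k - 2).factorial : ℝ) := one_div_le_one_div_of_le hFp hF
      _ ≤ (Real.log (Real.log X / Real.log q)) ^ (k - 2) / ((k - 2).factorial : ℝ) := div_le_div_of_nonneg_right h8 hFp.le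
  have hdT : dT k T X = ∑ q ∈ T, 1 / (q : ℝ) * ((Real.log (Real.log X / Real.log q)) ^ (k - 2) / ((k - 2).factorial : ℝ)) := rfl
  rw [hdT]
  calc 1 / L ^ (B + 1) = 1 / L ^ B * (1 / L) := by
        rw [pow_succ]
        field_simp
    _ ≤ (∑ q ∈ T, 1 / (q : ℝ)) * (1 / L) := mul_le_mul_of_nonneg_right hB (by positivity)
    _ = ∑ q ∈ T, 1 / (q : ℝ) * (1 / L) := Finset.sum_mul _ _ _
    _ ≤ _ := Finset.sum_le_sum fun q hq => mul_le_mul_of_nonneg_left (hDq q hq) (by positivity)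

open Classical in
theorem ixT (k m B : ℕ) (hk : 2 ≤ k) : ∃ c0 C C1 : ℕ, ∀ ε : ℝ, 0 < ε → ∃ η : ℝ, 0 < η ∧ ∃ X0 : ℕ, ∀ (X H : ℕ) (w' : ℝ) (T : Finset ℕ),
    X0 ≤ X → 1 ≤ w' → w' ≤ (X : ℝ) ^ η → w' * (Real.log X) ^ C ≤ H → H * H ≤ X → (∀ q ∈ T, q.Prime ∧ (Real.log X) ^ c0 ≤ q ∧ (q : ℝ) ≤ w') →
      1 / (Real.log X) ^ B ≤ ∑ q ∈ T, 1 / (q : ℝ) → ∀ I : Set ℕ, (∀ n : ℕ, n ≤ H → ∃ b ∈ I, n < b ∧ b ≤ n + m) →
        (((Ioc X (2 * X)).filter fun N => Even N ∧ (cT k T ((Icc 1 H).filter (ixd I)) N : ℝ) < H / (Real.log X) ^ C1).card : ℝ) ≤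
          ε * X := by
  rcases Nat.eq_zero_or_pos m with rfl | hm
  · refine ⟨0, 0, 0, fun ε _ => ⟨1, one_pos, 0, ?_⟩⟩
    intro X H w' T _ _ _ _ _ _ _ I hI
    obtain ⟨b, _, h1, h2⟩ := hI 0 (Nat.zero_le _)
    omega
  obtain ⟨r, Ce, N0, hr, hev⟩ := MTR.every m hm
  obtain ⟨c0, C, hmn⟩ := mnT k (Ce + 1) B hk
  obtain ⟨X1, hX1⟩ := ixt_large r N0 (k - 2).factorial
  refine ⟨c0, C + 3, Ce + B + 4, fun ε hε => ?_⟩
  set ε' : ℝ := min ε (1 / 4) with hε'
  have hε0 : 0 < ε' := lt_min hε (by norm_num)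
  have hε4 : ε' ≤ 1 / 4 := min_le_right _ _
  obtain ⟨η, hη, X0, h⟩ := hmn ε' hε0
  refine ⟨min η (1 / 4), lt_min hη (by norm_num), max X0 X1, ?_⟩
  intro X H w' T hX hw1 hw2 hw3 hH hT hB I hI
  obtain ⟨g2, g3, g4, g5, g6, g7⟩ := hX1 X ((le_max_right _ _).trans hX)
  set W := WX X with hW
  set S : Finset ℕ := (Icc 1 H).filter (ixd I) with hS
  set L : ℝ := Real.log X with hL
  have hW0 : 0 < W := Pool.Agent.Lib.SW.WX_pos X
  have hWr : (0 : ℝ) < W := by exact_mod_cast hW0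
  have hL0 : 0 < L := by linarith
  have hX1r : (1 : ℝ) ≤ X := by
    rcases Nat.eq_zero_or_pos X with h0 | h0
    · rw [hL, h0, Nat.cast_zero, Real.log_zero] at g5
      norm_num at g5
    · exact_mod_cast h0
  have hw2a : w' ≤ (X : ℝ) ^ η := hw2.trans (Real.rpow_le_rpow_of_exponent_le hX1r (min_le_left _ _))
  have hw2b : w' ≤ (X : ℝ) ^ (1 / 4 : ℝ) := hw2.trans (Real.rpow_le_rpow_of_exponent_le hX1r (min_le_right _ _))
  have hL3 : (1 : ℝ) ≤ L ^ 3 := one_le_pow₀ (by linarith)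
  have hLC : (1 : ℝ) ≤ L ^ C := one_le_pow₀ (by linarith)
  have hw3a : w' * L ^ C ≤ H := by
    refine le_trans ?_ hw3
    rw [pow_add, ← mul_assoc]
    exact le_mul_of_one_le_right (by positivity) hL3
  have hH3 : L ^ 3 ≤ H := by
    refine le_trans ?_ hw3
    rw [pow_add, ← mul_assoc]
    exact le_mul_of_one_le_left (by positivity) (one_le_mul_of_one_le_of_one_le hw1 hLC)
  have hH1 : 1 ≤ H := by
    have : (1 : ℝ) ≤ H := hL3.trans hH3
    exact_mod_cast this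
  have hHX : H ≤ X := le_trans (Nat.le_mul_of_pos_left H hH1) hH
  have hd := ixt_dT (k := k) g5 g7 hw2b (fun q hq => ⟨(hT q hq).1, (hT q hq).2.2⟩) hB
  have hSH : S ⊆ Icc 1 H := filter_subset _ _
  have hfib : ∀ a ∈ (range W).filter Even, (((((Ioc X (2 * X)).filter fun N => Even N ∧ (cT k T S N : ℝ) <
      H / L ^ (Ce + B + 4)).filter fun N => N % W = a).card : ℕ) : ℝ) ≤ ε' * (X / W) := by
    intro a ha
    rw [mem_filter, mem_range] at ha
    have hcl := ixt_class hev g2 g3 g4 g5 g6 hH3 hHX ha.1 ha.2 hI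
    have h1 := h X H a w' T ((le_max_left _ _).trans hX) hw1 hw2a hw3a hH hT hB S hSH
    refine le_trans ?_ h1
    have hsub : (((Ioc X (2 * X)).filter fun N => Even N ∧ (cT k T S N : ℝ) < H / L ^ (Ce + B + 4)).filter
        fun N => N % W = a) ⊆ (wnd X X W a).filter fun N => ε' * (cX X * max ((Sa W S a).card : ℝ) (H / L ^ (Ce + 1)) * (dT k T X / L)) <
          |(cT k T S N : ℝ) - cX X * (Sa W S a).card * (dT k T X / L)| := by
      intro N hN
      rw [mem_filter, mem_filter] at hN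
      obtain ⟨⟨hN1, -, hN2⟩, hN3⟩ := hN
      have hNm : N ≡ a [MOD W] := by
        show N % W = a % W
        rw [hN3, Nat.mod_eq_of_lt ha.1]
      rw [two_mul] at hN1
      rw [mem_filter]
      refine ⟨mem_filter.2 ⟨hN1, hNm⟩, ?_⟩
      rw [max_eq_left hcl]
      set A : ℝ := ((Sa W S a).card : ℝ) with hA
      set δ : ℝ := dT k T X with hδ
      have hcX := one_le_cX X
      have hA0 : 0 ≤ A := Nat.cast_nonneg _
      have hδ1 : 1 / L ^ (B + 1) / L ≤ δ / L := div_le_div_of_nonneg_right hd hL0.le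
      have hcA : H / L ^ (Ce + 1) ≤ cX X * A := by
        calc H / L ^ (Ce + 1) ≤ A := hcl
          _ ≤ cX X * A := le_mul_of_one_le_left hA0 hcX
      have hmul : H / L ^ (Ce + 1) * (1 / L ^ (B + 1) / L) ≤ cX X * A * (δ / L) :=
        mul_le_mul hcA hδ1 (by positivity) (by positivity)
      have heq : H / L ^ (Ce + 1) * (1 / L ^ (B + 1) / L) = H / L ^ (Ce + B + 3) := by
        rw [show Ce + B + 3 = (Ce + 1) + (B + 1) + 1 by omega, pow_succ L (Ce + 1 + (B + 1)), pow_add L (Ce + 1) (B + 1)]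
        field_simp
      have hstep : H / L ^ (Ce + B + 4) ≤ (1 / 2) * (H / L ^ (Ce + B + 3)) := by
        rw [show Ce + B + 4 = (Ce + B + 3) + 1 by omega, pow_succ L (Ce + B + 3), ← div_div]
        rw [div_le_iff₀ hL0]
        have h0 : 0 ≤ H / L ^ (Ce + B + 3) := by positivity
        nlinarith
      rw [heq] at hmul
      set Mv : ℝ := cX X * A * (δ / L) with hMv
      have hM0 : 0 ≤ Mv := le_trans (by positivity) hmul
      have h8 : ε' * Mv ≤ 1 / 4 * Mv := mul_le_mul_of_nonneg_right hε4 hM0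
      have h9 : Mv - (cT k T S N : ℝ) ≤ |(cT k T S N : ℝ) - Mv| := by
        rw [abs_sub_comm]
        exact le_abs_self _
      linarith
    exact_mod_cast card_le_card hsub
  have hmaps : ∀ N ∈ (Ioc X (2 * X)).filter (fun N => Even N ∧ (cT k T S N : ℝ) < H / L ^ (Ce + B + 4)),
      N % W ∈ (range W).filter Even := by
    intro N hN
    rw [mem_filter] at hN
    rw [mem_filter, mem_range]
    refine ⟨Nat.mod_lt _ hW0, ?_⟩
    have hWe : 2 ∣ W := Nat.prime_two.dvd_primorial_iff.2 g2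
    rw [Nat.even_iff, Nat.mod_mod_of_dvd _ hWe]
    exact Nat.even_iff.1 hN.2.1
  rw [card_eq_sum_card_fiberwise hmaps]
  push_cast
  calc ∑ a ∈ (range W).filter Even, (((((Ioc X (2 * X)).filter fun N => Even N ∧ (cT k T S N : ℝ) <
      H / L ^ (Ce + B + 4)).filter fun N => N % W = a).card : ℕ) : ℝ)
      ≤ ∑ a ∈ (range W).filter Even, ε' * (X / W) := sum_le_sum hfib
    _ = (((range W).filter Even).card : ℝ) * (ε' * (X / W)) := by rw [sum_const, nsmul_eq_mul]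
    _ ≤ W * (ε' * (X / W)) := by
        refine mul_le_mul_of_nonneg_right ?_ (by positivity)
        have h7 : ((range W).filter Even).card ≤ W := (card_filter_le _ _).trans (card_range W).le
        exact_mod_cast h7
    _ = ε' * X := by field_simp
    _ ≤ ε * X := mul_le_mul_of_nonneg_right (min_le_left _ _) (Nat.cast_nonneg _)

end Pool.Agent.Lib.WT
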