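import Pool.Agent.Lib.WT.Ty
import Pool.Agent.Lib.WT.Bs
import Pool.Agent.Lib.T8.Mer

/-!
# WT, row Mn: the asymptotic formula for all `k` (compare WL/Mn.lean, landed, and WL/M2.lean)

PROOF IN WORDS. `L = log X`, `c = cX X`, `m = max |Sa| (H/L^K)`. `tyT K k (B+1)` gives `c10`; `bsT k K B` gives `c0'`, `M1`; `c0 = max (c10 + 3) c0'`, use `tyT` with `c1 = c0 - 3 ≥ c10`, its `C`. For `ε` (w.l.o.g. `ε ≤ 1`): `tyT` with `ε/8` gives `M ≥ 2`; `M' = max M M1`; `U` = the largest with `U^(2M') ≤ X` (so `U^(2M) ≤ X` and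
`X ≤ (U+1)^(2M')`, as in WL/Mn.lean); `merA k (2M') (ε/8)` (T8/Mer, `Y = X`) gives `η1`, `bsT` at `M'` with `ε/8` gives `η2`; `η = min (min η1 η2) (1/(8M'))`. `w'' = ⌊w'⌋₊ ≥ 1`: `2 w'' ≤ U` for large `X`. `merA`: `|sL k U T - dT k T X| ≤ (ε/8) dT`. `dT ≥ L^(-B)/(k-2)!`, so `sL ≥ L^(-B-1)`.
`cE ≤ cT ≤ cE + cN` (`EL_len` in T8/Sp; a counted `s` is typical or counted by `cN`). Outside the two exceptional sets (`≤ (ε/8) X/W` each): `|cE - c |Sa| sL/L| ≤ (ε/8) c m sL/L`, `|sL - dT| ≤ (ε/8) dT`, `cN ≤ (ε/8) c m dT/L`, so `|cT - c |Sa| dT/L| ≤ (ε/2) c m dT/L + (ε/8) c m dT/L`.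
-/

set_option autoImplicit false

open Finset

namespace Pool.Agent.Lib.WT

open Pool.Agent.Lib.SW (WX cX Sa)
open Pool.Agent.Lib.WL (wnd cT cE)
open Pool.Agent.Lib.T8 (dT)
open Pool.Agent.Lib.G8 (EL sL di)
open Pool.Agent.Lib.G5 (esy)

private theorem mt_ev (M f : ℕ) (hM : 1 ≤ M) : ∃ X0 : ℕ, ∀ X : ℕ, X0 ≤ X → 1 ≤ (X : ℝ) ∧
    2 ≤ (X : ℝ) ^ (1 / (8 * M) : ℝ) ∧ 2 * (f : ℝ) + 2 ≤ Real.log X := by
  have hl4 : ∀ᶠ x : ℝ in Filter.atTop, 2 * (f : ℝ) + 2 ≤ Real.log x :=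
    Real.tendsto_log_atTop.eventually (Filter.eventually_ge_atTop _)
  have hM0 : (0 : ℝ) < M := by exact_mod_cast hM
  have hp : ∀ᶠ x : ℝ in Filter.atTop, (2 : ℝ) ≤ x ^ (1 / (8 * M : ℝ)) :=
    (tendsto_rpow_atTop (by positivity)).eventually (Filter.eventually_ge_atTop _)
  obtain ⟨x1, hx1⟩ := Filter.eventually_atTop.1 ((hl4.and hp).and (Filter.eventually_ge_atTop (1 : ℝ)))
  refine ⟨⌈x1⌉₊, fun X hX => ?_⟩
  have hX' : x1 ≤ X := (Nat.le_ceil _).trans (by exact_mod_cast hX)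
  obtain ⟨⟨h2, h4⟩, h3⟩ := hx1 X hX'
  exact ⟨h3, h4, h2⟩

private theorem mt_U (M : ℕ) (hM : 1 ≤ M) (Y : ℕ) (hY : 1 ≤ Y) : ∃ U : ℕ, U ^ M ≤ Y ∧ Y ≤ (U + 1) ^ M ∧
    (Y : ℝ) ^ (1 / (M : ℝ)) - 1 ≤ U := by
  have hn0 : (0 : ℝ) < M := by exact_mod_cast hM
  have hY0 : (0 : ℝ) < Y := by exact_mod_cast hY
  have hy : (0 : ℝ) ≤ (Y : ℝ) ^ (1 / (M : ℝ)) := by positivity
  have b1 : ((⌊(Y : ℝ) ^ (1 / (M : ℝ))⌋₊ : ℕ) : ℝ) ≤ (Y : ℝ) ^ (1 / (M : ℝ)) := Nat.floor_le hy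
  have b2 : (Y : ℝ) ^ (1 / (M : ℝ)) < (⌊(Y : ℝ) ^ (1 / (M : ℝ))⌋₊ : ℝ) + 1 := Nat.lt_floor_add_one _
  have e1 : ((Y : ℝ) ^ (1 / (M : ℝ))) ^ M = Y := by
    rw [← Real.rpow_natCast, ← Real.rpow_mul hY0.le]
    rw [one_div, inv_mul_cancel₀ hn0.ne', Real.rpow_one]
  refine ⟨⌊(Y : ℝ) ^ (1 / (M : ℝ))⌋₊, ?_, ?_, by linarith⟩
  · have h : ((⌊(Y : ℝ) ^ (1 / (M : ℝ))⌋₊ : ℕ) : ℝ) ^ M ≤ Y := by
      calc ((⌊(Y : ℝ) ^ (1 / (M : ℝ))⌋₊ : ℕ) : ℝ) ^ M ≤ ((Y : ℝ) ^ (1 / (M : ℝ))) ^ M := pow_le_pow_left₀ (Nat.cast_nonneg _) b1 M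
        _ = Y := e1
    exact_mod_cast h
  · have h : (Y : ℝ) ≤ ((⌊(Y : ℝ) ^ (1 / (M : ℝ))⌋₊ : ℝ) + 1) ^ M := by
      calc (Y : ℝ) = ((Y : ℝ) ^ (1 / (M : ℝ))) ^ M := e1.symm
        _ ≤ _ := pow_le_pow_left₀ hy b2.le M
    exact_mod_cast h

private theorem mt_cE_le {k U N : ℕ} {T S : Finset ℕ} (hT : ∀ q ∈ T, q.Prime) : cE k U T S N ≤ cT k T S N := by
  classical
  unfold cE cT
  refine Finset.card_le_card fun s hs => ?_
  rw [mem_filter] at hs ⊢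
  obtain ⟨h1, h2, h3⟩ := hs
  exact ⟨h1, h2, Pool.Agent.Lib.T8.EL_len hT h3⟩

private theorem mt_cT_le {k U N : ℕ} {T S : Finset ℕ} : cT k T S N ≤ cE k U T S N + cN k U T S N := by
  classical
  have h1 : (S.filter fun s => s < N ∧ (N - s).primeFactorsList.length = k ∧ (N - s).minFac ∈ T) ⊆
      (S.filter fun s => s < N ∧ EL k U T (N - s)) ∪ (S.filter fun s => s < N ∧ (N - s).primeFactorsList.length = k ∧
        (N - s).minFac ∈ T ∧ ¬ EL k U T (N - s)) := by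
    intro s hs
    rw [mem_filter] at hs
    obtain ⟨h1, h2, h3, h4⟩ := hs
    rw [mem_union, mem_filter, mem_filter]
    by_cases h : EL k U T (N - s)
    · exact Or.inl ⟨h1, h2, h⟩
    · exact Or.inr ⟨h1, h2, h3, h4, h⟩
  have h2 := Finset.card_le_card h1
  have h4 := Finset.card_union_le (S.filter fun s => s < N ∧ EL k U T (N - s))
    (S.filter fun s => s < N ∧ (N - s).primeFactorsList.length = k ∧ (N - s).minFac ∈ T ∧ ¬ EL k U T (N - s))
  have e1 : cE k U T S N = (S.filter fun s => s < N ∧ EL k U T (N - s)).card := by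
    unfold cE
    congr
  have e2 : cN k U T S N = (S.filter fun s => s < N ∧ (N - s).primeFactorsList.length = k ∧
      (N - s).minFac ∈ T ∧ ¬ EL k U T (N - s)).card := by
    unfold cN
    congr
  rw [e1, e2]
  unfold cT
  omega

/-- the comparison of the two main terms -/
private theorem mt_cmp {E c A m s d L e : ℝ} (he0 : 0 < e) (he : e ≤ 1 / 8) (hc : 0 ≤ c) (hA : 0 ≤ A) (hAm : A ≤ m)
    (hd : 0 ≤ d) (hL : 0 < L) (h1 : |E - c * A * (s / L)| ≤ e * (c * m * (s / L))) (h2 : |s - d| ≤ e * d) :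
    |E - c * A * (d / L)| ≤ 4 * e * (c * m * (d / L)) := by
  have hm : 0 ≤ m := hA.trans hAm
  obtain ⟨s1, s2⟩ := abs_le.1 h2
  have hs : s ≤ 2 * d := by nlinarith
  have e1 : E - c * A * (d / L) = (E - c * A * (s / L)) + c * A * ((s - d) / L) := by
    field_simp
    ring
  rw [e1]
  refine (abs_add_le _ _).trans ?_
  have h3 : |c * A * ((s - d) / L)| ≤ e * (c * m * (d / L)) := by
    rw [abs_mul, abs_of_nonneg (mul_nonneg hc hA), abs_div, abs_of_pos hL]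
    have h4 : |s - d| / L ≤ e * d / L := div_le_div_of_nonneg_right h2 hL.le
    calc c * A * (|s - d| / L) ≤ c * A * (e * d / L) := mul_le_mul_of_nonneg_left h4 (mul_nonneg hc hA)
      _ ≤ c * m * (e * d / L) := mul_le_mul_of_nonneg_right (mul_le_mul_of_nonneg_left hAm hc) (by positivity)
      _ = e * (c * m * (d / L)) := by ring
  have h5 : e * (c * m * (s / L)) ≤ e * (c * m * (2 * d / L)) := by
    refine mul_le_mul_of_nonneg_left (mul_le_mul_of_nonneg_left ?_ (mul_nonneg hc hm)) he0.le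
    exact div_le_div_of_nonneg_right hs hL.le
  have h6 : e * (c * m * (2 * d / L)) = 2 * e * (c * m * (d / L)) := by ring
  have h7 : 0 ≤ e * (c * m * (d / L)) := by positivity
  linarith

theorem mnT (k K B : ℕ) (hk : 2 ≤ k) : ∃ c0 C : ℕ, ∀ ε : ℝ, 0 < ε → ∃ η : ℝ, 0 < η ∧ ∃ X0 : ℕ, ∀ (X H a : ℕ) (w' : ℝ) (T : Finset ℕ),
    X0 ≤ X → 1 ≤ w' → w' ≤ (X : ℝ) ^ η → w' * (Real.log X) ^ C ≤ H → H * H ≤ X → (∀ q ∈ T, q.Prime ∧ (Real.log X) ^ c0 ≤ q ∧ (q : ℝ) ≤ w') →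
      1 / (Real.log X) ^ B ≤ ∑ q ∈ T, 1 / (q : ℝ) → ∀ S : Finset ℕ, S ⊆ Icc 1 H →
        (((wnd X X (WX X) a).filter fun N => ε * (cX X * max ((Sa (WX X) S a).card : ℝ) (H / (Real.log X) ^ K) * (dT k T X / Real.log X)) <
          |(cT k T S N : ℝ) - cX X * (Sa (WX X) S a).card * (dT k T X / Real.log X)|).card : ℝ) ≤ ε * (X / WX X) := by
  classical
  obtain ⟨c10, hco⟩ := tyT K k (B + 1)
  obtain ⟨c0', M1, hcb⟩ := bsT k K B hk
  obtain ⟨c0, hc0⟩ : ∃ c0 : ℕ, c0 = max (c10 + 3) c0' := ⟨_, rfl⟩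
  have hc01 : c10 + 3 ≤ c0 := by omega
  have hc02 : c0' ≤ c0 := by omega
  obtain ⟨C, hco⟩ := hco (c0 - 3) (by omega)
  refine ⟨c0, C, fun ε hε => ?_⟩
  set e : ℝ := min ε 1 with he
  have he0 : 0 < e := lt_min hε one_pos
  have heε : e ≤ ε := min_le_left _ _
  have he1 : e ≤ 1 := min_le_right _ _
  obtain ⟨M, X1, hM, hco⟩ := hco (e / 8) (by positivity)
  obtain ⟨M2, hM2d⟩ : ∃ M2 : ℕ, M2 = max M M1 := ⟨_, rfl⟩
  have hMM : M ≤ M2 := by omega
  have hM2 : 2 ≤ M2 := by omega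
  have hM0 : (0 : ℝ) < M2 := by
    have : 0 < M2 := by omega
    exact_mod_cast this
  obtain ⟨η1, hη1, y0, hmer⟩ := Pool.Agent.Lib.T8.merA k (2 * M2) hk (by omega) (e / 8) (by positivity)
  obtain ⟨η2, hη2, X3, hcb⟩ := hcb M2 (by omega) (e / 8) (by positivity)
  obtain ⟨X2, hev⟩ := mt_ev M2 (Nat.factorial (k - 2)) (by omega)
  refine ⟨min η1 (min η2 (1 / (8 * M2))), lt_min hη1 (lt_min hη2 (by positivity)),
    max (max X1 X2) (max (max ⌈y0⌉₊ 1) X3), ?_⟩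
  intro X H a w' T hX hw1 hw2 hw3 hHX hT hTs S hS
  have hX1 : X1 ≤ X := le_trans (le_trans (le_max_left _ _) (le_max_left _ _)) hX
  have hX2 : X2 ≤ X := le_trans (le_trans (le_max_right _ _) (le_max_left _ _)) hX
  have hX3 : y0 ≤ X := (Nat.le_ceil _).trans (by
    exact_mod_cast le_trans (le_trans (le_trans (le_max_left _ _) (le_max_left _ _)) (le_max_right _ _)) hX)
  have hXn : 1 ≤ X := le_trans (le_trans (le_trans (le_max_right _ _) (le_max_left _ _)) (le_max_right _ _)) hX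
  have hX4 : X3 ≤ X := le_trans (le_trans (le_max_right _ _) (le_max_right _ _)) hX
  obtain ⟨hXr, ht2, hLf⟩ := hev X hX2
  set L : ℝ := Real.log X with hLdef
  have hf1 : (1 : ℝ) ≤ (Nat.factorial (k - 2) : ℝ) := by exact_mod_cast Nat.factorial_pos (k - 2)
  have hL4 : 4 ≤ L := by linarith
  have hL0 : 0 < L := by linarith
  have hX0 : (0 : ℝ) < X := by linarith
  obtain ⟨U, hU1, hU2, hU3⟩ := mt_U (2 * M2) (by omega) X hXn
  have hUM : U ^ (2 * M) ≤ X := by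
    rcases Nat.eq_zero_or_pos U with h0 | h0
    · rw [h0, zero_pow (by omega)]
      exact Nat.zero_le _
    · exact (Nat.pow_le_pow_right h0 (by omega)).trans hU1
  set t : ℝ := (X : ℝ) ^ (1 / (8 * M2) : ℝ) with ht
  have ht4 : (X : ℝ) ^ (1 / ((2 * M2 : ℕ) : ℝ)) = t ^ 4 := by
    rw [ht, ← Real.rpow_natCast, ← Real.rpow_mul hX0.le]
    congr 1
    push_cast
    field_simp
    norm_num
  have hwt : w' ≤ t := hw2.trans (Real.rpow_le_rpow_of_exponent_le hXr ((min_le_right _ _).trans (min_le_right _ _)))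
  have hwη : w' ≤ (X : ℝ) ^ η1 := hw2.trans (Real.rpow_le_rpow_of_exponent_le hXr (min_le_left _ _))
  have h2tU : 2 * t ≤ U := by
    rw [ht4] at hU3
    have h1 : 2 * t + 1 ≤ t ^ 4 := by
      have h2 : 8 * t ≤ t ^ 4 := by
        have h3 : (2 : ℝ) ^ 3 ≤ t ^ 3 := pow_le_pow_left₀ (by norm_num) ht2 3
        calc 8 * t = 2 ^ 3 * t := by norm_num
          _ ≤ t ^ 3 * t := mul_le_mul_of_nonneg_right h3 (by linarith)
          _ = t ^ 4 := by ring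
      linarith
    linarith
  have hwfl : ((⌊w'⌋₊ : ℕ) : ℝ) ≤ w' := Nat.floor_le (by linarith)
  have hwU : 2 * ⌊w'⌋₊ ≤ U := by
    have h1 : ((2 * ⌊w'⌋₊ : ℕ) : ℝ) ≤ U := by
      push_cast
      linarith
    exact_mod_cast h1
  have hw1' : 1 ≤ ⌊w'⌋₊ := Nat.le_floor (by exact_mod_cast hw1)
  have hT' : ∀ q ∈ T, q.Prime ∧ L ^ c0 ≤ q ∧ q ≤ ⌊w'⌋₊ := fun q hq => by
    obtain ⟨h1, h2, h3⟩ := hT q hq
    exact ⟨h1, h2, Nat.le_floor h3⟩
  have hT3 : ∀ q ∈ T, q.Prime ∧ L ^ (c0 - 3 + 3) ≤ q ∧ q ≤ ⌊w'⌋₊ := by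
    have e3 : c0 - 3 + 3 = c0 := by omega
    rw [e3]
    exact hT'
  have hTU : ∀ q ∈ T, q.Prime ∧ 2 * q ≤ U := fun q hq => by
    obtain ⟨h1, h2, h3⟩ := hT' q hq
    exact ⟨h1, by omega⟩
  have hLq : ∀ q ∈ T, L ≤ q := fun q hq => by
    obtain ⟨h1, h2, h3⟩ := hT q hq
    refine le_trans ?_ h2
    calc L = L ^ 1 := (pow_one L).symm
      _ ≤ L ^ c0 := pow_le_pow_right₀ (by linarith) (by omega)
  -- the two densities
  set D : ℕ → ℝ := fun q => (Real.log (Real.log X / Real.log q)) ^ (k - 2) / (Nat.factorial (k - 2) : ℝ) with hD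
  have hdT : dT k T X = ∑ q ∈ T, 1 / (q : ℝ) * D q := rfl
  have hDq : ∀ q ∈ T, 1 / (Nat.factorial (k - 2) : ℝ) ≤ D q := fun q hq => by
    obtain ⟨h1, h2, h3⟩ := hT q hq
    have hq2 : (2 : ℝ) ≤ q := by exact_mod_cast h1.two_le
    have hlq : 0 < Real.log q := Real.log_pos (by linarith)
    have h4 : Real.log q ≤ 1 / (8 * M2) * L := by
      have h5 : Real.log q ≤ Real.log t := Real.log_le_log (by linarith) (h3.trans hwt)
      rwa [ht, Real.log_rpow hX0] at h5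
    have h5 : Real.log q ≤ L / 16 := by
      refine h4.trans ?_
      have hM2 : (2 : ℝ) ≤ M2 := by exact_mod_cast hM2
      rw [div_mul_eq_mul_div, one_mul, div_le_div_iff₀ (by positivity) (by norm_num)]
      nlinarith
    have h6 : 16 ≤ L / Real.log q := by
      rw [le_div_iff₀ hlq]
      linarith
    have h7 : 1 ≤ Real.log (L / Real.log q) := by
      rw [Real.le_log_iff_exp_le (by linarith)]
      have := Real.exp_one_lt_d9
      linarith
    have h8 : 1 ≤ (Real.log (Real.log X / Real.log q)) ^ (k - 2) := one_le_pow₀ h7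
    exact div_le_div_of_nonneg_right h8 (by linarith)
  have hD0 : ∀ q ∈ T, 0 ≤ D q := fun q hq => le_trans (by positivity) (hDq q hq)
  have hd0 : 0 ≤ dT k T X := by
    rw [hdT]
    exact Finset.sum_nonneg fun q hq => mul_nonneg (by positivity) (hD0 q hq)
  have hdl : 1 / (Nat.factorial (k - 2) : ℝ) * (1 / L ^ B) ≤ dT k T X := by
    rw [hdT]
    calc 1 / (Nat.factorial (k - 2) : ℝ) * (1 / L ^ B) ≤ 1 / (Nat.factorial (k - 2) : ℝ) * ∑ q ∈ T, 1 / (q : ℝ) :=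
          mul_le_mul_of_nonneg_left hTs (by positivity)
      _ = ∑ q ∈ T, 1 / (q : ℝ) * (1 / (Nat.factorial (k - 2) : ℝ)) := by
          rw [Finset.mul_sum]
          exact Finset.sum_congr rfl fun q _ => mul_comm _ _
      _ ≤ ∑ q ∈ T, 1 / (q : ℝ) * D q :=
          Finset.sum_le_sum fun q hq => mul_le_mul_of_nonneg_left (hDq q hq) (by positivity)
  have hsd : |sL k U T - dT k T X| ≤ e / 8 * dT k T X := by
    rw [hdT]
    unfold sL
    rw [← Finset.sum_sub_distrib]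
    refine (Finset.abs_sum_le_sum_abs _ _).trans ?_
    rw [Finset.mul_sum]
    refine Finset.sum_le_sum fun q hq => ?_
    obtain ⟨h1, h2, h3⟩ := hT q hq
    have h4 := hmer X U q hX3 hU1 hU2 (hLq q hq) (h3.trans hwη)
    rw [← mul_sub, abs_mul, abs_of_nonneg (by positivity : (0 : ℝ) ≤ 1 / (q : ℝ))]
    calc 1 / (q : ℝ) * |esy (k - 2) (2 ^ (di q + 1)) U - D q| ≤ 1 / (q : ℝ) * (e / 8 * D q) :=
          mul_le_mul_of_nonneg_left h4 (by positivity)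
      _ = e / 8 * (1 / (q : ℝ) * D q) := by ring
  have hsl : 1 / L ^ (B + 1) ≤ sL k U T := by
    have h1 : (7 / 8) * dT k T X ≤ sL k U T := by
      have h2 := (abs_le.1 hsd).1
      have h3 : e / 8 * dT k T X ≤ 1 / 8 * dT k T X := mul_le_mul_of_nonneg_right (by linarith) hd0
      linarith
    have h2 : 1 / L ^ (B + 1) ≤ (7 / 8) * (1 / (Nat.factorial (k - 2) : ℝ) * (1 / L ^ B)) := by
      have hLB : 0 < L ^ B := by positivity
      have e1 : (7 / 8) * (1 / (Nat.factorial (k - 2) : ℝ) * (1 / L ^ B)) = (7 / (8 * (Nat.factorial (k - 2) : ℝ))) / L ^ B := by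
        field_simp
      have e2 : 1 / L ^ (B + 1) = (1 / L) / L ^ B := by
        rw [pow_succ]
        field_simp
      rw [e1, e2]
      refine div_le_div_of_nonneg_right ?_ hLB.le
      rw [div_le_div_iff₀ hL0 (by positivity)]
      linarith
    linarith
  have hco' := hco X H a k U ⌊w'⌋₊ T hX1 hk le_rfl hT3 hwU hUM hsl hw1'
    ((mul_le_mul_of_nonneg_right hwfl (by positivity)).trans hw3) hHX S hS
  have hc1 : 1 ≤ cX X := Pool.Agent.Lib.SW.one_le_cX X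
  have hc0' : 0 ≤ cX X := by linarith
  have hW0 : (0 : ℝ) < WX X := by exact_mod_cast Pool.Agent.Lib.SW.WX_pos X
  have hHW : 0 ≤ (X : ℝ) / WX X := by positivity
  set m : ℝ := max ((Sa (WX X) S a).card : ℝ) (H / L ^ K) with hm
  have hm0 : 0 ≤ m := le_trans (Nat.cast_nonneg _) (le_max_left _ _)
  have hmd : 0 ≤ cX X * m * (dT k T X / L) := by positivity
  have hTη : ∀ q ∈ T, q.Prime ∧ L ^ c0' ≤ q ∧ (q : ℝ) ≤ (X : ℝ) ^ η2 := fun q hq => by
    obtain ⟨h1, h2, h3⟩ := hT q hq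
    refine ⟨h1, (pow_le_pow_right₀ (by linarith) hc02).trans h2, h3.trans (hw2.trans ?_)⟩
    exact Real.rpow_le_rpow_of_exponent_le hXr ((min_le_right _ _).trans (min_le_left _ _))
  have hHC : 1 ≤ H := by
    have h1 : (1 : ℝ) ≤ H := by
      refine le_trans ?_ hw3
      calc (1 : ℝ) = 1 * 1 := (one_mul _).symm
        _ ≤ w' * L ^ C := mul_le_mul hw1 (one_le_pow₀ (by linarith)) zero_le_one (by linarith)
    exact_mod_cast h1
  have hcb' := hcb X H a U T hX4 hU1 hU2 hTη hTs hHC hHX S hS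
  have hTp : ∀ q ∈ T, q.Prime := fun q hq => (hT q hq).1
  have hsub : ((wnd X X (WX X) a).filter fun N => ε * (cX X * m * (dT k T X / L)) <
      |(cT k T S N : ℝ) - cX X * (Sa (WX X) S a).card * (dT k T X / L)|) ⊆
      ((wnd X X (WX X) a).filter fun N => e / 8 * (cX X * m * (sL k U T / L)) <
        |(cE k U T S N : ℝ) - cX X * (Sa (WX X) S a).card * (sL k U T / L)|) ∪
      ((wnd X X (WX X) a).filter fun N => e / 8 * (cX X * m * (dT k T X / L)) < (cN k U T S N : ℝ)) := by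
    intro N hN
    rw [mem_filter] at hN
    rw [mem_union, mem_filter, mem_filter]
    by_contra hcon
    rw [not_or] at hcon
    obtain ⟨hc1', hc2'⟩ := hcon
    have hnot := fun h => hc1' ⟨hN.1, h⟩
    have hnot2 := not_lt.1 fun h => hc2' ⟨hN.1, h⟩
    have hAm : ((Sa (WX X) S a).card : ℝ) ≤ m := le_max_left _ _
    have h := mt_cmp (e := e / 8) (by positivity) (by linarith) hc0' (Nat.cast_nonneg _) hAm hd0 hL0 (not_lt.1 hnot) hsd
    have h2 : (cE k U T S N : ℝ) ≤ cT k T S N := by exact_mod_cast mt_cE_le hTp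
    have h3 : (cT k T S N : ℝ) ≤ cE k U T S N + cN k U T S N := by
      exact_mod_cast mt_cT_le
    obtain ⟨b1, b2⟩ := abs_le.1 h
    have h4 : |(cT k T S N : ℝ) - cX X * (Sa (WX X) S a).card * (dT k T X / L)| ≤
        e * (cX X * m * (dT k T X / L)) := by
      have : 0 ≤ e * (cX X * m * (dT k T X / L)) := by positivity
      rw [abs_le]
      constructor <;> linarith
    have h5 : e * (cX X * m * (dT k T X / L)) ≤ ε * (cX X * m * (dT k T X / L)) :=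
      mul_le_mul_of_nonneg_right heε hmd
    linarith [hN.2]
  have h1 := (Finset.card_le_card hsub).trans (Finset.card_union_le _ _)
  refine le_trans (Nat.cast_le.2 h1) ?_
  rw [Nat.cast_add]
  refine (add_le_add hco' hcb').trans ?_
  have : (e / 8 + e / 8) * ((X : ℝ) / WX X) ≤ ε * (X / WX X) := mul_le_mul_of_nonneg_right (by linarith) hHW
  linarith

end Pool.Agent.Lib.WT
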