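import Pool.Agent.Lib.WT.Def
import Pool.Agent.Lib.WL.Sm
import Pool.Agent.Lib.WL.Ka
import Pool.Agent.Lib.WL.De
import Pool.Agent.Lib.SW.SP1

/-!
# WT, row Mt: the main term in one class modulo `W`, for a set `S ⊆ [1, H]` with `H` independent of the window (copy of WL/Mt.lean, landed)

PROOF IN WORDS. Copy WL/Mt.lean with its private lemmas (`mt_diag`, `mt_dg`, `mt_col`, `mt_E3`, `mt_E4`, `mt_split`, `mt_sq`, `mt_sq2`; they have the size of the set and the window as separate parameters already) and `g0 = 4K + 16`, `C = 4g + 2K + 12`. Changes in the last proof: `mt_col`, `kapT` with `H` in the place of `2X` (`S ⊆ Icc 1 H`, `s ≤ H ≤ Z`),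
window `J` in the place of `H`, `|S| ≤ H`. Sizes (`L = log X`): `Q |S'| ≤ δ |S'| H/L^K` and `W^2 Q H ≤ δ (H/L^K)^2` because `Q ≤ (2L)^g`, `W ≤ L^2`, `H ≥ L^C` (this replaces the fact that `X` is large compared with the powers of `L`); `4 |S'| H D0/L^(K+1) ≤ δ |S'| H/L^K`; `W^2 1000 H · H/√(Q/W) ≤ δ (H/L^K)^2` as there;
`Q^4 |S'|^2`, `W^2 Q^4 H^2 ≤ δ (J/W) (H/L^K)^2`, `J/W ≥ 1` because `J ≥ L^C`.
-/

set_option autoImplicit false

open Finset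

namespace Pool.Agent.Lib.WT

open Pool.Agent.Lib.SW (WX cX Sa)
open Pool.Agent.Lib.VKT (ram)
open Pool.Agent.Lib.WL (wnd)

section

open Pool.Agent.Lib.SW Pool.Agent.Lib.WL

private theorem mt_diag (S : Finset ℕ) (F : ℕ → ℕ → ℝ) : ∑ s ∈ S, ∑ s' ∈ S, F s s' =
    ∑ s ∈ S, F s s + ∑ s ∈ S, ∑ s' ∈ S.filter (fun s' => s' ≠ s), F s s' := by
  rw [← sum_add_distrib]
  refine sum_congr rfl fun s hs => ?_
  rw [filter_ne', add_sum_erase S (F s) hs]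

/-- the diagonal -/
private theorem mt_dg (Q : ℕ) (𝒬 : Finset ℕ) (h𝒬 : ∀ q ∈ 𝒬, 1 ≤ q ∧ q ≤ Q) (S : Finset ℕ) :
    ∑ s ∈ S, ∑ q ∈ 𝒬, |gq q ((s : ℤ) - s)| / (q.totient : ℝ) ≤ Q * S.card := by
  have hcard : 𝒬.card ≤ Q := by
    have h1 : 𝒬 ⊆ Icc 1 Q := fun q hq => mem_Icc.2 (h𝒬 q hq)
    have h2 := card_le_card h1
    rw [Nat.card_Icc] at h2
    omega
  have hcardr : (𝒬.card : ℝ) ≤ Q := by exact_mod_cast hcard
  have h1 : ∀ s ∈ S, ∑ q ∈ 𝒬, |gq q ((s : ℤ) - s)| / (q.totient : ℝ) ≤ Q := by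
    intro s _
    have h2 : ∀ q ∈ 𝒬, |gq q ((s : ℤ) - s)| / (q.totient : ℝ) ≤ 1 := by
      intro q hq
      have h3 : 1 ≤ q.totient := Nat.totient_pos.2 (h𝒬 q hq).1
      have h4 : (1 : ℝ) ≤ q.totient := by exact_mod_cast h3
      rw [div_le_one (by linarith)]
      exact (abs_gq_le q _).trans h4
    refine (sum_le_sum h2).trans ?_
    rw [sum_const, nsmul_eq_mul, mul_one]
    exact hcardr
  refine (sum_le_sum h1).trans ?_
  rw [sum_const, nsmul_eq_mul, mul_comm]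

/-- the collisions (`E3_bound`) -/
private theorem mt_col (w X W Q : ℕ) (hw : 1 ≤ w) (hW : W = primorial w)
    (S' : Finset ℕ) (hS' : S' ⊆ Icc 1 X) (lm ε' δ : ℝ) (hlm : 1 ≤ lm) (hε' : 0 < ε')
    (h1 : Real.exp ε' - 1 ≤ δ) (h2 : Real.exp (2 / w) - 1 ≤ δ) (h3 : Real.exp (2 / w) ≤ 2)
    (D : ℝ) (hD : Real.exp (lm * Real.exp lm - (lm * w - 1) * ε') ≤ D) :
    ∑ s ∈ S', ∑ s' ∈ S'.filter (fun s' => s' ≠ s), ∑ q ∈ Q2Of W Q, |gq q ((s : ℤ) - s')| / (q.totient : ℝ) ≤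
      3 * δ * (S'.card : ℝ) ^ 2 + 4 * S'.card * X * D := by
  have hQ2 : ∀ q ∈ Q2Of W Q, Squarefree q ∧ 1 < q ∧ ∀ p : ℕ, p.Prime → p ∣ q → w < p := by
    intro q hq
    rw [mem_Q2Of] at hq
    refine ⟨hq.2.1, hq.2.2.1, fun p hp hpq => ?_⟩
    by_contra hpw
    push Not at hpw
    have hpW : p ∣ W := by
      rw [hW]
      unfold primorial
      apply Finset.dvd_prod_of_mem (fun p => p)
      rw [Finset.mem_filter, Finset.mem_range]
      exact ⟨by omega, hp⟩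
    have := Nat.Coprime.eq_one_of_dvd (hq.2.2.2.coprime_dvd_left hpW) hpq
    exact hp.one_lt.ne' this
  have hkap : ∑ s ∈ S', ∑ s' ∈ S'.filter (fun s' => s' ≠ s), ∑ q ∈ Q2Of W Q, |gq q ((s : ℤ) - s')| / (q.totient : ℝ) ≤
      ∑ s ∈ S', ∑ s' ∈ S'.filter (fun s' => s' ≠ s),
          (Real.exp (Tp w ((s : ℤ) - (s' : ℤ)).natAbs + 2 / w) - 1) := by
    refine sum_le_sum fun s _ => sum_le_sum fun s' hs' => ?_
    refine sum_kappa_le w hw (Q2Of W Q) hQ2 _ ?_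
    have := (mem_filter.1 hs').2
    intro h
    exact this (by omega)
  refine hkap.trans ?_
  have hcol := collide w X hw lm ε' hlm hε' S' hS'
  have hδ0 : 0 ≤ δ := le_trans (by have := Real.add_one_le_exp ε'; linarith) h1
  have hn0 : (0 : ℝ) ≤ S'.card := Nat.cast_nonneg _
  have hX0 : (0 : ℝ) ≤ X := Nat.cast_nonneg _
  set E := Real.exp (2 / (w : ℝ)) with hE
  have hE0 : 0 ≤ E := (Real.exp_pos _).le
  have hE1 : 1 ≤ E := by rw [hE]; apply Real.one_le_exp; positivity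
  have e1 : ∀ s ∈ S', ∑ s' ∈ S'.filter (fun s' => s' ≠ s),
        (Real.exp (Tp w ((s : ℤ) - (s' : ℤ)).natAbs + 2 / w) - 1) ≤
      E * ∑ s' ∈ S'.filter (fun s' => s' ≠ s),
        (Real.exp (Tp w ((s : ℤ) - (s' : ℤ)).natAbs) - 1) + (E - 1) * S'.card := by
    intro s _
    have e2 : ∀ s' ∈ S'.filter (fun s' => s' ≠ s),
        (Real.exp (Tp w ((s : ℤ) - (s' : ℤ)).natAbs + 2 / w) - 1) =
        E * (Real.exp (Tp w ((s : ℤ) - (s' : ℤ)).natAbs) - 1) + (E - 1) := by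
      intro s' _
      rw [Real.exp_add, ← hE]
      ring
    rw [Finset.sum_congr rfl e2, Finset.sum_add_distrib, ← Finset.mul_sum, Finset.sum_const,
      nsmul_eq_mul]
    have e3 : (((S'.filter (fun s' => s' ≠ s)).card : ℕ) : ℝ) ≤ S'.card := by
      exact_mod_cast Finset.card_filter_le _ _
    nlinarith [mul_le_mul_of_nonneg_right e3 (sub_nonneg.mpr hE1)]
  refine (Finset.sum_le_sum e1).trans ?_
  rw [Finset.sum_add_distrib, ← Finset.mul_sum, Finset.sum_const, nsmul_eq_mul]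
  have e4 : E * ∑ s ∈ S', ∑ s' ∈ S'.filter (fun s' => s' ≠ s),
        (Real.exp (Tp w ((s : ℤ) - (s' : ℤ)).natAbs) - 1) ≤
      E * ((Real.exp ε' - 1) * (S'.card : ℝ) ^ 2 +
        2 * S'.card * X * Real.exp (lm * Real.exp lm - (lm * w - 1) * ε')) :=
    mul_le_mul_of_nonneg_left hcol hE0
  have e5 : E * ((Real.exp ε' - 1) * (S'.card : ℝ) ^ 2 +
        2 * S'.card * X * Real.exp (lm * Real.exp lm - (lm * w - 1) * ε')) ≤
      2 * (δ * (S'.card : ℝ) ^ 2 + 2 * S'.card * X * D) := by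
    apply mul_le_mul h3 _ _ (by norm_num)
    · have := mul_le_mul_of_nonneg_right h1 (sq_nonneg (S'.card : ℝ))
      have := mul_le_mul_of_nonneg_left hD (show (0 : ℝ) ≤ 2 * S'.card * X by positivity)
      linarith
    · have e6 : 0 ≤ Real.exp ε' - 1 := by
        have := Real.add_one_le_exp ε'; linarith
      have := Real.exp_pos (lm * Real.exp lm - (lm * w - 1) * ε')
      positivity
  have e7 : (E - 1) * (S'.card : ℝ) ^ 2 ≤ δ * (S'.card : ℝ) ^ 2 :=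
    mul_le_mul_of_nonneg_right h2 (sq_nonneg _)
  nlinarith

private theorem mt_E3 (w X Z H W Q Q1 a : ℕ) (hw : 1 ≤ w) (hW : W = primorial w) (hW1 : 1 ≤ W) (hQ1 : Q1 ≤ Q)
    (S' : Finset ℕ) (hS' : S' ⊆ Icc 1 X) (hZ : ∀ s ∈ S', s ≤ Z) (lm ε' δ : ℝ) (hlm : 1 ≤ lm) (hε' : 0 < ε')
    (h1 : Real.exp ε' - 1 ≤ δ) (h2 : Real.exp (2 / w) - 1 ≤ δ) (h3 : Real.exp (2 / w) ≤ 2)
    (D : ℝ) (hD : Real.exp (lm * Real.exp lm - (lm * w - 1) * ε') ≤ D) :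
    ∑ N ∈ wnd Z H W a, (∑ s ∈ S', ∑ q ∈ Q2Of W Q1, gq q ((N : ℤ) - s)) ^ 2 ≤
      ((H : ℝ) / W + 1) * (Q * S'.card + (3 * δ * (S'.card : ℝ) ^ 2 + 4 * S'.card * X * D)) +
        (Q : ℝ) ^ 4 * (S'.card : ℝ) ^ 2 := by
  have hq : ∀ q ∈ Q2Of W Q1, Squarefree q ∧ 1 ≤ q ∧ q ≤ Q ∧ Nat.Coprime W q := by
    intro q hq
    rw [mem_Q2Of] at hq
    exact ⟨hq.2.1, hq.2.2.1.le, hq.1.trans hQ1, hq.2.2.2⟩
  have h := smC Z H W Q a hW1 (Q2Of W Q1) hq S' hZ (fun _ _ => 1) 1 (fun _ _ _ _ => by rw [abs_one])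
  simp only [one_mul, one_pow] at h
  refine h.trans (add_le_add_left (mul_le_mul_of_nonneg_left ?_ (by positivity)) _)
  rw [mt_diag S' fun s s' => ∑ q ∈ Q2Of W Q1, |gq q ((s : ℤ) - s')| / (q.totient : ℝ)]
  exact add_le_add (mt_dg Q _ (fun q h' => ⟨(hq q h').2.1, (hq q h').2.2.1⟩) S')
    (mt_col w X W Q1 hw hW S' hS' lm ε' δ hlm hε' h1 h2 h3 D hD)

private theorem mt_E4 (X Z H W Q a : ℕ) (hW1 : 1 ≤ W) (hWQ : W ≤ Q) (S : Finset ℕ) (hS : S ⊆ Icc 1 X) (hZ : ∀ s ∈ S, s ≤ Z) :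
    ∑ N ∈ wnd Z H W a, (∑ s ∈ S, ∑ q ∈ QT W Q, Dd W Q q ((a : ℤ) - s) * gq q ((N : ℤ) - s)) ^ 2 ≤
      (W : ℝ) ^ 2 * (((H : ℝ) / W + 1) * (Q * S.card + 1000 * S.card * X / Real.sqrt ((Q / W : ℕ) : ℝ)) +
        (Q : ℝ) ^ 4 * (S.card : ℝ) ^ 2) := by
  have hq : ∀ q ∈ QT W Q, Squarefree q ∧ 1 ≤ q ∧ q ≤ Q ∧ Nat.Coprime W q := by
    intro q hq
    unfold QT at hq
    rw [mem_filter, mem_Q2Of] at hq
    exact ⟨hq.1.2.1, hq.1.2.2.1.le, hq.1.1, hq.1.2.2.2⟩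
  have h := smC Z H W Q a hW1 (QT W Q) hq S hZ (fun q s => Dd W Q q ((a : ℤ) - s)) W (fun q _ s _ => Dd_le W Q q _)
  refine h.trans (mul_le_mul_of_nonneg_left (add_le_add_left (mul_le_mul_of_nonneg_left ?_ (by positivity)) _)
    (by positivity))
  rw [mt_diag S fun s s' => ∑ q ∈ QT W Q, |gq q ((s : ℤ) - s')| / (q.totient : ℝ)]
  refine add_le_add (mt_dg Q _ (fun q h' => ⟨(hq q h').2.1, (hq q h').2.2.1⟩) S) ?_
  refine kapT (Q / W) X ((Nat.one_le_div_iff (by omega)).2 hWQ) (QT W Q) (fun q hq' => ⟨(hq q hq').1, ?_⟩) S hS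
  unfold QT at hq'
  rw [Nat.div_lt_iff_lt_mul (by omega)]
  exact (mem_filter.1 hq').2

private theorem mt_split (W Z H Q N a : ℕ) (hW : Squarefree W) (hWQ : W ≤ Q) (hN : N ∈ wnd Z H W a) (S : Finset ℕ)
    (hZ : ∀ s ∈ S, s ≤ Z) :
    ∑ s ∈ S, ram Q (N - s) - (W : ℝ) / (W.totient : ℝ) * (Sa W S a).card =
      (W : ℝ) / (W.totient : ℝ) * ∑ s ∈ Sa W S a, ∑ q ∈ Q2Of W (Q / W), gq q ((N : ℤ) - s) +
        ∑ s ∈ S, ∑ q ∈ QT W Q, Dd W Q q ((a : ℤ) - s) * gq q ((N : ℤ) - s) := by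
  classical
  unfold wnd at hN
  rw [mem_filter, mem_Ioc] at hN
  have h1 : ∑ s ∈ S, ram Q (N - s) = ∑ s ∈ S, ((if IsCoprime ((a : ℤ) - s) (W : ℤ) then
        (W : ℝ) / (W.totient : ℝ) * (1 + ∑ q ∈ Q2Of W (Q / W), gq q ((N : ℤ) - s)) else 0) +
      ∑ q ∈ QT W Q, Dd W Q q ((a : ℤ) - s) * gq q ((N : ℤ) - s)) := by
    refine sum_congr rfl fun s hs => ?_
    have h2 := hZ s hs
    rw [ramD W Q N a s hW hWQ hN.2 (by omega)]
  rw [h1, sum_add_distrib, ← sum_filter]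
  have h3 : S.filter (fun s : ℕ => IsCoprime ((a : ℤ) - (s : ℤ)) (W : ℤ)) = Sa W S a := by
    ext s
    rw [mem_filter, mem_Sa]
  rw [h3, ← mul_sum, sum_add_distrib, sum_const, nsmul_eq_mul, mul_one]
  ring

private theorem mt_sq (x y : ℝ) : (x + y) ^ 2 ≤ 2 * x ^ 2 + 2 * y ^ 2 := by
  nlinarith [sq_nonneg (x - y)]

private theorem mt_sq2 (x y : ℝ) (h : 0 ≤ x * y) : x ^ 2 + y ^ 2 ≤ (x + y) ^ 2 := by
  nlinarith

private theorem mt_main (K : ℕ) : ∃ g0 : ℕ, ∀ g : ℕ, g0 ≤ g → ∃ C : ℕ, ∀ ε : ℝ, 0 < ε → ∃ X0 : ℕ, ∀ X Q Z J H a : ℕ, X0 ≤ X → (Real.log X / 2) ^ g ≤ Q →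
    (Q : ℝ) ≤ (2 * Real.log X) ^ g → (Real.log X) ^ C ≤ J → (Real.log X) ^ C ≤ H → H ≤ Z → ∀ S : Finset ℕ, S ⊆ Icc 1 H →
      ∑ N ∈ wnd Z J (WX X) a, (∑ s ∈ S, ram Q (N - s) - cX X * (Sa (WX X) S a).card) ^ 2 ≤
        ε * (J / WX X) * (cX X) ^ 2 * (((Sa (WX X) S a).card : ℝ) + H / (Real.log X) ^ K) ^ 2 := by
  refine ⟨4 * K + 16, fun g hg => ⟨4 * g + 2 * K + 12, fun ε₁ hε₁ => ?_⟩⟩
  obtain ⟨ε, hε, hεε, hεone⟩ : ∃ ε : ℝ, 0 < ε ∧ ε ≤ ε₁ ∧ ε ≤ 1 :=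
    ⟨min ε₁ 1, lt_min hε₁ one_pos, min_le_left _ _, min_le_right _ _⟩
  set ε' : ℝ := min 1 (ε / 200) with hε'
  have hε'0 : 0 < ε' := by rw [hε']; exact lt_min one_pos (by linarith)
  have hε'1 : ε' ≤ 1 := min_le_left _ _
  have hε'2 : ε' ≤ ε / 200 := min_le_right _ _
  set lm : ℝ := (K + 1) / ε' with hlm
  have hlme : lm * ε' = K + 1 := by rw [hlm]; field_simp
  have hlm1 : 1 ≤ lm := by
    rw [hlm, le_div_iff₀ hε'0]
    have : (0 : ℝ) ≤ K := Nat.cast_nonneg K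
    linarith
  set δ : ℝ := ε / 100 with hδ
  have hδ0 : 0 < δ := by rw [hδ]; linarith
  set D0 : ℝ := Real.exp (lm * Real.exp lm + ε' + (K + 1)) with hD0
  have hD00 : 0 < D0 := Real.exp_pos _
  have hexp : ∀ x : ℝ, 0 ≤ x → x ≤ 1 → x ≤ ε / 200 → Real.exp x - 1 ≤ δ := by
    intro x hx0 hx1 hx2
    have h := Real.abs_exp_sub_one_le (x := x) (by rw [abs_of_nonneg hx0]; exact hx1)
    rw [abs_of_nonneg hx0] at h
    have := le_abs_self (Real.exp x - 1)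
    rw [hδ]
    linarith
  have hev : ∀ᶠ X : ℕ in Filter.atTop, 2 ≤ X ∧ 1 ≤ Real.log (X : ℝ) ∧
      (4 ≤ wX X ∧ 400 / ε ≤ (wX X : ℝ)) ∧ 4 * D0 / δ ≤ Real.log (X : ℝ) ∧
      4 * 16 ^ g / δ ≤ Real.log (X : ℝ) ∧ 2 ^ g * (2 * (8000 / δ) ^ 2) ≤ Real.log (X : ℝ) := by
    filter_upwards [Filter.eventually_ge_atTop 2, ev_log 1, ev_w 4, ev_w ⌈400 / ε⌉₊,
      ev_log (4 * D0 / δ), ev_log (4 * 16 ^ g / δ),
      ev_log (2 ^ g * (2 * (8000 / δ) ^ 2))] with X h1 h2 h3 h4 h5 h7 h8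
    exact ⟨h1, h2, ⟨h3, (Nat.le_ceil _).trans (by exact_mod_cast h4)⟩, h5, h7, h8⟩
  obtain ⟨X₀, hX₀⟩ := Filter.eventually_atTop.mp hev
  refine ⟨X₀, fun X Q Z J H a hX hQlo hQhi hJ hH hHZ S hS2 => ?_⟩
  obtain ⟨hX2, hL1, ⟨hw4, hw400⟩, hLD, hL16, hL8⟩ := hX₀ X hX
  set L : ℝ := Real.log (X : ℝ) with hL
  have hL0 : 0 < L := by linarith
  set W : ℕ := WX X with hWdef
  have hWsq : Squarefree W := WX_squarefree _
  have hW1 : 1 ≤ W := Nat.one_le_iff_ne_zero.mpr hWsq.ne_zero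
  have hWR : (0 : ℝ) < W := by exact_mod_cast hW1
  have hWL : (W : ℝ) ≤ L ^ 2 := WX_le X hL1
  have hXpos : 0 < X := by omega
  have hXR : (0 : ℝ) < X := by exact_mod_cast hXpos
  set w : ℕ := wX X with hw
  have hw0 : (4 : ℝ) ≤ w := by exact_mod_cast hw4
  have h2w : 2 / (w : ℝ) ≤ 1 / 2 := by
    rw [div_le_iff₀ (by linarith)]; linarith
  have h2w' : 2 / (w : ℝ) ≤ ε / 200 := by
    rw [div_le_iff₀ (by linarith)]
    have h := mul_le_mul_of_nonneg_left hw400 hε.le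
    have e : ε * (400 / ε) = 400 := by field_simp
    rw [e] at h
    linarith
  have h2w0 : 0 ≤ 2 / (w : ℝ) := by positivity
  have hexp2 : Real.exp (2 / (w : ℝ)) ≤ 2 := by
    have h := Real.abs_exp_sub_one_le (x := 2 / (w : ℝ)) (by
      rw [abs_of_nonneg h2w0]; linarith)
    rw [abs_of_nonneg h2w0] at h
    have := le_abs_self (Real.exp (2 / (w : ℝ)) - 1)
    linarith
  have hpow : ∀ m n : ℕ, m ≤ n → L ^ m ≤ L ^ n := fun m n h => pow_le_pow_right₀ hL1 h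
  -- the modulus is below `Q`, and `Q / W` is large
  have hQW : L ^ (4 * K + 8) * (2 * (8000 / δ) ^ 2) ≤ (Q : ℝ) / W := by
    rw [le_div_iff₀ hWR]
    refine le_trans ?_ hQlo
    have h1 : (L / 2) ^ g = L ^ g / 2 ^ g := div_pow _ _ _
    rw [h1, le_div_iff₀ (by positivity)]
    calc L ^ (4 * K + 8) * (2 * (8000 / δ) ^ 2) * W * 2 ^ g = L ^ (4 * K + 8) * (2 ^ g * (2 * (8000 / δ) ^ 2)) * W := by ring
      _ ≤ L ^ (4 * K + 8) * L * L ^ 2 := by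
          apply mul_le_mul _ hWL hWR.le (by positivity)
          exact mul_le_mul_of_nonneg_left hL8 (by positivity)
      _ = L ^ (4 * K + 11) := by ring
      _ ≤ L ^ g := hpow _ _ (by omega)
  have hδ8 : 1 ≤ 8000 / δ := by
    rw [le_div_iff₀ hδ0, hδ]
    linarith
  have hbig : 1 ≤ L ^ (4 * K + 8) * (8000 / δ) ^ 2 := by
    have h1 : 1 ≤ L ^ (4 * K + 8) := one_le_pow₀ hL1
    have h2 : 1 ≤ (8000 / δ) ^ 2 := one_le_pow₀ hδ8
    calc (1 : ℝ) = 1 * 1 := by ring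
      _ ≤ _ := mul_le_mul h1 h2 (by norm_num) (by positivity)
  have hWQ : W ≤ Q := by
    have h1 : (1 : ℝ) ≤ (Q : ℝ) / W := by linarith
    rw [le_div_iff₀ hWR, one_mul] at h1
    exact_mod_cast h1
  have hQ1 : L ^ (4 * K + 8) * (8000 / δ) ^ 2 ≤ ((Q / W : ℕ) : ℝ) := by
    have h1 : (Q : ℝ) / W < ((Q / W : ℕ) : ℝ) + 1 := by
      rw [div_lt_iff₀ hWR]
      have h2 : Q < (Q / W + 1) * W := by
        have h3 := Nat.div_add_mod Q W
        have h4 := Nat.mod_lt Q hW1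
        have h5 : (Q / W + 1) * W = W * (Q / W) + W := by ring
        omega
      exact_mod_cast h2
    linarith
  have hsq : 8000 * L ^ (2 * K + 4) ≤ δ * Real.sqrt ((Q / W : ℕ) : ℝ) := by
    have h1 : 8000 / δ * L ^ (2 * K + 4) ≤ Real.sqrt ((Q / W : ℕ) : ℝ) := by
      apply Real.le_sqrt_of_sq_le
      have e : (8000 / δ * L ^ (2 * K + 4)) ^ 2 = L ^ (4 * K + 8) * (8000 / δ) ^ 2 := by
        rw [mul_pow, ← pow_mul, mul_comm]
        congr 2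
        ring
      rw [e]
      exact hQ1
    have h2 := mul_le_mul_of_nonneg_left h1 hδ0.le
    have e : δ * (8000 / δ * L ^ (2 * K + 4)) = 8000 * L ^ (2 * K + 4) := by field_simp
    rwa [e] at h2
  have hsq0 : 0 < Real.sqrt ((Q / W : ℕ) : ℝ) := by
    have h1 : 0 < 8000 * L ^ (2 * K + 4) := by positivity
    by_contra h2
    have h3 : Real.sqrt ((Q / W : ℕ) : ℝ) = 0 := le_antisymm (not_lt.1 h2) (Real.sqrt_nonneg _)
    rw [h3, mul_zero] at hsq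
    linarith
  -- the sets
  have hSZ : ∀ s ∈ S, s ≤ Z := fun s hs => (mem_Icc.1 (hS2 hs)).2.trans hHZ
  set S' : Finset ℕ := Sa W S a with hS'
  have hS'S : S' ⊆ S := by
    intro s hs
    rw [hS', mem_Sa] at hs
    exact hs.1
  set n : ℝ := (S'.card : ℝ) with hn
  set m : ℝ := (S.card : ℝ) with hm
  have hn0 : 0 ≤ n := Nat.cast_nonneg _
  have hm0 : 0 ≤ m := Nat.cast_nonneg _
  have hmX : m ≤ H := by
    rw [hm]
    have := Finset.card_le_card hS2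
    rw [Nat.card_Icc] at this
    have h1 : S.card ≤ H := by omega
    exact_mod_cast h1
  have hnX : n ≤ H := by
    refine le_trans ?_ hmX
    rw [hn, hm]
    exact_mod_cast Finset.card_le_card hS'S
  have hHR : (0 : ℝ) < H := lt_of_lt_of_le (by positivity) hH
  have hB3 := mt_E3 w H Z J W Q (Q / W) a (by omega) rfl hW1 (Nat.div_le_self _ _) S' (hS'S.trans hS2)
    (fun s hs => hSZ s (hS'S hs)) lm ε' δ hlm1 hε'0
    (hexp ε' hε'0.le hε'1 hε'2) (hexp _ h2w0 (by linarith) h2w') hexp2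
    (D0 / L ^ (K + 1)) (D_bound X K ε' lm hL1 hlme)
  have hB4 := mt_E4 H Z J W Q a hW1 hWQ S hS2 hSZ
  set c : ℝ := (W : ℝ) / (W.totient : ℝ) with hc
  have hcX : cX X = c := rfl
  rw [hcX]
  have hc1 : 1 ≤ c := by
    rw [hc, le_div_iff₀ (by exact_mod_cast Nat.totient_pos.mpr hW1), one_mul]
    exact_mod_cast Nat.totient_le W
  set h : ℝ := (J : ℝ) / W with hh
  have hh1 : 1 ≤ h := by
    rw [hh, le_div_iff₀ hWR, one_mul]
    refine hWL.trans ((hpow 2 _ (by omega)).trans hJ)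
  have hh0 : 0 < h := by linarith
  set G3 : ℕ → ℝ := fun N => ∑ s ∈ S', ∑ q ∈ Q2Of W (Q / W), gq q ((N : ℤ) - s) with hG3
  set G4 : ℕ → ℝ := fun N => ∑ s ∈ S, ∑ q ∈ QT W Q, Dd W Q q ((a : ℤ) - s) * gq q ((N : ℤ) - s) with hG4
  have hsplit : ∑ N ∈ wnd Z J W a, (∑ s ∈ S, ram Q (N - s) - c * n) ^ 2 ≤
      2 * c ^ 2 * ∑ N ∈ wnd Z J W a, (G3 N) ^ 2 + 2 * ∑ N ∈ wnd Z J W a, (G4 N) ^ 2 := by
    rw [Finset.mul_sum, Finset.mul_sum, ← Finset.sum_add_distrib]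
    apply Finset.sum_le_sum
    intro N hN
    have hd := mt_split W Z J Q N a hWsq hWQ hN S hSZ
    have e : ∑ s ∈ S, ram Q (N - s) - c * n = c * G3 N + G4 N := hd
    rw [e]
    refine (mt_sq (c * G3 N) (G4 N)).trans (le_of_eq ?_)
    rw [mul_pow, ← mul_assoc]
  set P : ℝ := (H : ℝ) / L ^ K with hP
  have hLK : 0 < L ^ K := by positivity
  have hP0 : 0 < P := by rw [hP]; positivity
  have hPX : P ^ 2 * L ^ (2 * K) = (H : ℝ) ^ 2 := by
    rw [hP, div_pow, ← pow_mul, mul_comm K 2]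
    field_simp
  have hL2K : 0 < L ^ (2 * K) := by positivity
  have hQ0 : (0 : ℝ) ≤ Q := Nat.cast_nonneg _
  have h16 : 4 * 16 ^ g ≤ δ * L := by
    have h := mul_le_mul_of_nonneg_left hL16 hδ0.le
    have e : δ * (4 * 16 ^ g / δ) = 4 * 16 ^ g := by field_simp
    rwa [e] at h
  have hLJ : ∀ (M : ℕ), L ^ (4 * g + 2 * K + 12) ≤ (M : ℝ) → ∀ j : ℕ, j ≤ 4 * g + 2 * K + 11 → 4 * 16 ^ g * L ^ j ≤ δ * M := by
    intro M hM j hj
    calc 4 * 16 ^ g * L ^ j ≤ δ * L * L ^ j := mul_le_mul_of_nonneg_right h16 (by positivity)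
      _ = δ * L ^ (j + 1) := by ring
      _ ≤ δ * M := mul_le_mul_of_nonneg_left ((hpow _ _ (by omega)).trans hM) hδ0.le
  have h4 : 4 * 2 ^ g * L ^ (g + 2 * K + 4) ≤ δ * H := by
    refine le_trans ?_ (hLJ H hH (g + 2 * K + 4) (by omega))
    refine mul_le_mul_of_nonneg_right ?_ (by positivity)
    refine mul_le_mul_of_nonneg_left ?_ (by norm_num)
    exact pow_le_pow_left₀ (by norm_num) (by norm_num) g
  have hQ4 : (Q : ℝ) ^ 4 ≤ 16 ^ g * L ^ (4 * g) := by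
    calc (Q : ℝ) ^ 4 ≤ ((2 * L) ^ g) ^ 4 := pow_le_pow_left₀ hQ0 hQhi 4
      _ = 16 ^ g * L ^ (4 * g) := by
          rw [mul_pow, mul_pow, ← pow_mul, ← pow_mul, mul_comm g 4, pow_mul (2 : ℝ) 4 g]
          norm_num
  -- the first moment
  have hF1 : (Q : ℝ) * n ≤ δ * P ^ 2 := by
    have h2 : (Q : ℝ) * n * L ^ (2 * K) ≤ δ * P ^ 2 * L ^ (2 * K) := by
      rw [mul_assoc δ, hPX]
      calc (Q : ℝ) * n * L ^ (2 * K) ≤ (2 * L) ^ g * H * L ^ (2 * K) := by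
            apply mul_le_mul_of_nonneg_right _ (by positivity)
            exact mul_le_mul hQhi hnX hn0 (by positivity)
        _ = 1 * 2 ^ g * L ^ (g + 2 * K) * H := by rw [mul_pow, pow_add]; ring
        _ ≤ 4 * 2 ^ g * L ^ (g + 2 * K + 4) * H := by
            apply mul_le_mul_of_nonneg_right _ hHR.le
            apply mul_le_mul _ (hpow _ _ (by omega)) (by positivity) (by positivity)
            have : (0 : ℝ) < 2 ^ g := by positivity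
            linarith
        _ ≤ δ * H * H := mul_le_mul_of_nonneg_right h4 hHR.le
        _ = _ := by ring
    exact le_of_mul_le_mul_right h2 hL2K
  have hF2 : 4 * n * H * (D0 / L ^ (K + 1)) ≤ δ * (n ^ 2 + P ^ 2) := by
    have h1 : 4 * D0 ≤ δ * L := by
      have h := mul_le_mul_of_nonneg_left hLD hδ0.le
      have e : δ * (4 * D0 / δ) = 4 * D0 := by field_simp
      rwa [e] at h
    have e1 : 4 * n * H * (D0 / L ^ (K + 1)) = (n * P) * (4 * D0 / L) := by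
      rw [hP, pow_succ]
      field_simp
    have h2 : 4 * D0 / L ≤ δ := by rw [div_le_iff₀ hL0]; exact h1
    rw [e1]
    calc (n * P) * (4 * D0 / L) ≤ (n * P) * δ :=
          mul_le_mul_of_nonneg_left h2 (by positivity)
      _ ≤ 2 * (n * P) * δ := by
          have : 0 ≤ n * P * δ := by positivity
          linarith
      _ ≤ δ * (n ^ 2 + P ^ 2) := two_mul_le_sq' n P δ hδ0.le
  have hF3 : (Q : ℝ) ^ 4 ≤ δ * h := by
    rw [hh, ← mul_div_assoc, le_div_iff₀ hWR]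
    calc (Q : ℝ) ^ 4 * W ≤ 16 ^ g * L ^ (4 * g) * L ^ 2 := mul_le_mul hQ4 hWL hWR.le (by positivity)
      _ = 1 * 16 ^ g * L ^ (4 * g + 2) := by ring
      _ ≤ 4 * 16 ^ g * L ^ (4 * g + 2) := by
          apply mul_le_mul_of_nonneg_right _ (by positivity)
          apply mul_le_mul_of_nonneg_right (by norm_num) (by positivity)
      _ ≤ δ * J := hLJ J hJ _ (by omega)
  have hh2 : h + 1 ≤ 2 * h := by linarith
  have hA3 : ∑ N ∈ wnd Z J W a, (G3 N) ^ 2 ≤ 9 * δ * (h * (n ^ 2 + P ^ 2)) := by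
    refine hB3.trans ?_
    have h5 : (h + 1) * (Q * n + (3 * δ * n ^ 2 + 4 * n * H * (D0 / L ^ (K + 1)))) ≤
        2 * h * (δ * P ^ 2 + (3 * δ * n ^ 2 + δ * (n ^ 2 + P ^ 2))) := by
      apply mul_le_mul hh2 _ _ (by linarith)
      · linarith
      · have : 0 ≤ 4 * n * H * (D0 / L ^ (K + 1)) := by positivity
        positivity
    have h6 : (Q : ℝ) ^ 4 * n ^ 2 ≤ δ * h * n ^ 2 := mul_le_mul_of_nonneg_right hF3 (sq_nonneg n)
    have h7 : 0 ≤ 5 * (δ * h * P ^ 2) := by positivity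
    have e : 2 * h * (δ * P ^ 2 + (3 * δ * n ^ 2 + δ * (n ^ 2 + P ^ 2))) + δ * h * n ^ 2 =
        9 * δ * (h * (n ^ 2 + P ^ 2)) - 5 * (δ * h * P ^ 2) := by ring
    linarith
  -- the second moment
  have hW2 : (W : ℝ) ^ 2 ≤ L ^ 4 := by
    calc (W : ℝ) ^ 2 ≤ (L ^ 2) ^ 2 := pow_le_pow_left₀ hWR.le hWL 2
      _ = L ^ 4 := by ring
  have hF4 : (W : ℝ) ^ 2 * (2 * (Q * m)) ≤ δ * P ^ 2 := by
    have h2 : (W : ℝ) ^ 2 * (2 * (Q * m)) * L ^ (2 * K) ≤ δ * P ^ 2 * L ^ (2 * K) := by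
      rw [mul_assoc δ, hPX]
      calc (W : ℝ) ^ 2 * (2 * (Q * m)) * L ^ (2 * K) ≤ L ^ 4 * (2 * ((2 * L) ^ g * H)) * L ^ (2 * K) := by
            apply mul_le_mul_of_nonneg_right _ (by positivity)
            apply mul_le_mul hW2 _ (by positivity) (by positivity)
            exact mul_le_mul_of_nonneg_left (mul_le_mul hQhi hmX hm0 (by positivity)) (by norm_num)
        _ = 2 * 2 ^ g * L ^ (g + 2 * K + 4) * H := by rw [mul_pow, pow_add, pow_add]; ring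
        _ ≤ 4 * 2 ^ g * L ^ (g + 2 * K + 4) * H := by
            apply mul_le_mul_of_nonneg_right _ hHR.le
            apply mul_le_mul_of_nonneg_right _ (by positivity)
            have : (0 : ℝ) < 2 ^ g := by positivity
            linarith
        _ ≤ δ * H * H := mul_le_mul_of_nonneg_right h4 hHR.le
        _ = _ := by ring
    exact le_of_mul_le_mul_right h2 hL2K
  have hF5 : (W : ℝ) ^ 2 * (2 * (1000 * m * H / Real.sqrt ((Q / W : ℕ) : ℝ))) ≤ δ * P ^ 2 := by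
    have h2 : (W : ℝ) ^ 2 * (2 * (1000 * m * H / Real.sqrt ((Q / W : ℕ) : ℝ))) * L ^ (2 * K) ≤
        δ * P ^ 2 * L ^ (2 * K) := by
      rw [mul_assoc δ, hPX]
      have e : (W : ℝ) ^ 2 * (2 * (1000 * m * H / Real.sqrt ((Q / W : ℕ) : ℝ))) * L ^ (2 * K) =
          ((W : ℝ) ^ 2 * (2000 * m * H) * L ^ (2 * K)) / Real.sqrt ((Q / W : ℕ) : ℝ) := by ring
      rw [e, div_le_iff₀ hsq0]
      calc (W : ℝ) ^ 2 * (2000 * m * H) * L ^ (2 * K) ≤ L ^ 4 * (2000 * H * H) * L ^ (2 * K) := by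
            apply mul_le_mul_of_nonneg_right _ (by positivity)
            apply mul_le_mul hW2 _ (by positivity) (by positivity)
            apply mul_le_mul_of_nonneg_right _ hHR.le
            exact mul_le_mul_of_nonneg_left hmX (by norm_num)
        _ = 2000 * L ^ (2 * K + 4) * (H : ℝ) ^ 2 := by rw [pow_add]; ring
        _ ≤ 8000 * L ^ (2 * K + 4) * (H : ℝ) ^ 2 := by
            apply mul_le_mul_of_nonneg_right _ (by positivity)
            apply mul_le_mul_of_nonneg_right _ (by positivity)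
            norm_num
        _ ≤ δ * Real.sqrt ((Q / W : ℕ) : ℝ) * (H : ℝ) ^ 2 := mul_le_mul_of_nonneg_right hsq (by positivity)
        _ = _ := by ring
    exact le_of_mul_le_mul_right h2 hL2K
  have hF6 : (W : ℝ) ^ 2 * ((Q : ℝ) ^ 4 * m ^ 2) ≤ δ * h * P ^ 2 := by
    have h2 : (W : ℝ) ^ 2 * ((Q : ℝ) ^ 4 * m ^ 2) * L ^ (2 * K) ≤ δ * h * P ^ 2 * L ^ (2 * K) := by
      rw [mul_assoc (δ * h), hPX]
      have h3 : (W : ℝ) ^ 2 * (Q : ℝ) ^ 4 * 4 * L ^ (2 * K) ≤ δ * h := by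
        rw [hh, ← mul_div_assoc, le_div_iff₀ hWR]
        calc (W : ℝ) ^ 2 * (Q : ℝ) ^ 4 * 4 * L ^ (2 * K) * W
            ≤ L ^ 4 * (16 ^ g * L ^ (4 * g)) * 4 * L ^ (2 * K) * L ^ 2 := by
              apply mul_le_mul _ hWL hWR.le (by positivity)
              apply mul_le_mul_of_nonneg_right _ (by positivity)
              apply mul_le_mul_of_nonneg_right _ (by norm_num)
              exact mul_le_mul hW2 hQ4 (by positivity) (by positivity)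
          _ = 4 * 16 ^ g * L ^ (4 * g + 2 * K + 6) := by rw [pow_add, pow_add]; ring
          _ ≤ δ * J := hLJ J hJ _ (by omega)
      have hm2 : m ^ 2 ≤ 4 * (H : ℝ) ^ 2 := by
        have h5 : m ^ 2 ≤ (H : ℝ) ^ 2 := pow_le_pow_left₀ hm0 hmX 2
        have h6 : 0 ≤ (H : ℝ) ^ 2 := sq_nonneg _
        linarith
      calc (W : ℝ) ^ 2 * ((Q : ℝ) ^ 4 * m ^ 2) * L ^ (2 * K)
          ≤ (W : ℝ) ^ 2 * ((Q : ℝ) ^ 4 * (4 * (H : ℝ) ^ 2)) * L ^ (2 * K) := by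
            apply mul_le_mul_of_nonneg_right _ (by positivity)
            apply mul_le_mul_of_nonneg_left _ (by positivity)
            exact mul_le_mul_of_nonneg_left hm2 (by positivity)
        _ = (W : ℝ) ^ 2 * (Q : ℝ) ^ 4 * 4 * L ^ (2 * K) * (H : ℝ) ^ 2 := by ring
        _ ≤ δ * h * (H : ℝ) ^ 2 := mul_le_mul_of_nonneg_right h3 (by positivity)
    exact le_of_mul_le_mul_right h2 hL2K
  have hA4 : ∑ N ∈ wnd Z J W a, (G4 N) ^ 2 ≤ 3 * δ * (h * P ^ 2) := by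
    refine hB4.trans ?_
    have h5 : (h + 1) * (Q * m + 1000 * m * H / Real.sqrt ((Q / W : ℕ) : ℝ)) ≤
        2 * h * (Q * m + 1000 * m * H / Real.sqrt ((Q / W : ℕ) : ℝ)) :=
      mul_le_mul_of_nonneg_right hh2 (by positivity)
    have h6 := mul_le_mul_of_nonneg_left h5 (sq_nonneg (W : ℝ))
    have h7 := mul_le_mul_of_nonneg_left hF4 hh0.le
    have h8 := mul_le_mul_of_nonneg_left hF5 hh0.le
    have e : (W : ℝ) ^ 2 * (2 * h * (Q * m + 1000 * m * H / Real.sqrt ((Q / W : ℕ) : ℝ))) =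
        h * ((W : ℝ) ^ 2 * (2 * (Q * m))) +
        h * ((W : ℝ) ^ 2 * (2 * (1000 * m * H / Real.sqrt ((Q / W : ℕ) : ℝ)))) := by ring
    rw [e] at h6
    rw [mul_add]
    have e2 : 3 * δ * (h * P ^ 2) = h * (δ * P ^ 2) + h * (δ * P ^ 2) + δ * h * P ^ 2 := by ring
    rw [e2]
    linarith
  -- the final inequality
  refine hsplit.trans ?_
  have hc2 : 1 ≤ c ^ 2 := one_le_pow₀ hc1
  have h5 : 2 * c ^ 2 * ∑ N ∈ wnd Z J W a, (G3 N) ^ 2 ≤ 18 * δ * (h * c ^ 2 * (n ^ 2 + P ^ 2)) := by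
    have h := mul_le_mul_of_nonneg_left hA3 (show 0 ≤ 2 * c ^ 2 by positivity)
    refine h.trans (le_of_eq ?_)
    ring
  have h6 : 2 * ∑ N ∈ wnd Z J W a, (G4 N) ^ 2 ≤ 6 * δ * (h * c ^ 2 * (n ^ 2 + P ^ 2)) := by
    have h7 : h * P ^ 2 ≤ h * c ^ 2 * (n ^ 2 + P ^ 2) := by
      have h8 : h * P ^ 2 * 1 ≤ h * (n ^ 2 + P ^ 2) * c ^ 2 := by
        apply mul_le_mul _ hc2 (by norm_num) (by positivity)
        apply mul_le_mul_of_nonneg_left _ hh0.le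
        have := sq_nonneg n
        linarith
      linarith
    have h9 := mul_le_mul_of_nonneg_left h7 (show 0 ≤ 6 * δ by positivity)
    linarith
  have h7 : h * c ^ 2 * (n ^ 2 + P ^ 2) ≤ h * c ^ 2 * (n + P) ^ 2 := by
    exact mul_le_mul_of_nonneg_left (mt_sq2 n P (mul_nonneg hn0 hP0.le)) (by positivity)
  have h8 : 0 ≤ h * c ^ 2 * (n + P) ^ 2 := by positivity
  have h9 : 24 * δ * (h * c ^ 2 * (n ^ 2 + P ^ 2)) ≤ 24 * δ * (h * c ^ 2 * (n + P) ^ 2) :=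
    mul_le_mul_of_nonneg_left h7 (by positivity)
  have h10 : 24 * δ * (h * c ^ 2 * (n + P) ^ 2) ≤ ε₁ * (h * c ^ 2 * (n + P) ^ 2) := by
    apply mul_le_mul_of_nonneg_right _ h8
    rw [hδ]
    linarith
  have e : ε₁ * h * c ^ 2 * (n + P) ^ 2 = ε₁ * (h * c ^ 2 * (n + P) ^ 2) := by ring
  rw [e]
  linarith

end

theorem mtT (K : ℕ) : ∃ g0 : ℕ, ∀ g : ℕ, g0 ≤ g → ∃ C : ℕ, ∀ ε : ℝ, 0 < ε → ∃ X0 : ℕ, ∀ X Q Z J H a : ℕ, X0 ≤ X → (Real.log X / 2) ^ g ≤ Q →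
    (Q : ℝ) ≤ (2 * Real.log X) ^ g → (Real.log X) ^ C ≤ J → (Real.log X) ^ C ≤ H → H ≤ Z → ∀ S : Finset ℕ, S ⊆ Icc 1 H →
      ∑ N ∈ wnd Z J (WX X) a, (∑ s ∈ S, ram Q (N - s) - cX X * (Sa (WX X) S a).card) ^ 2 ≤
        ε * (J / WX X) * (cX X) ^ 2 * (((Sa (WX X) S a).card : ℝ) + H / (Real.log X) ^ K) ^ 2 :=
  mt_main K

end Pool.Agent.Lib.WT
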