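import Pool.Agent.Lib.WT.DL
import Pool.Agent.Lib.WL.PR
import Pool.Agent.Lib.MP_5d7b92_nt.UA.EP
import Pool.Agent.Lib.MP_5d7b92_nt.UA.Me

/-!
# WT, row NA: almost all `N`, no classes, tiny sets (copy of WL/NA.lean)

PROOF IN WORDS. Word for word WL/NA.lean (read its proof words) with `dlT` in the place of `dlL`, `prL` with `H := X`, the sum over `Ioc X (X + X)`, `H/L^K` in the place of `X/L^K`; all `s ≤ H < N`, so `{s < N} = S`.
-/

set_option autoImplicit false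

open Finset

namespace Pool.Agent.Lib.WT

open Pool.Agent.Lib.SW (wX)
open Pool.Agent.Lib.WL (cA)
open Pool.Agent.Lib.T8 (dT)

open Pool.Agent.Lib.WL (SmD cD)

private theorem na_smD {w D d : ℕ} (h : d ∈ SmD w D) : (1 ≤ d ∧ d ≤ D) ∧ ∀ p : ℕ, p.Prime → p ∣ d → p ≤ w := by
  unfold SmD at h
  rw [mem_filter, mem_Icc] at h
  exact ⟨h.1, fun p hp hpd => h.2 p (Nat.mem_primeFactors.2 ⟨hp, hpd, by omega⟩)⟩

/-- `cA` is the sum of the `cD` -/
private theorem na_sum (w D k : ℕ) (hk : 2 ≤ k) (T S : Finset ℕ) (hT : ∀ q ∈ T, w < q) (N : ℕ) :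
    cA w D k T S N = ∑ d ∈ SmD w D, cD d k T S N := by
  classical
  unfold cA cD
  rw [← card_biUnion]
  · congr 1
    ext s
    simp only [mem_filter, mem_biUnion]
    constructor
    · rintro ⟨h1, h2, d, hd, h3⟩
      exact ⟨d, hd, h1, h2, h3⟩
    · rintro ⟨d, hd, h1, h2, h3⟩
      exact ⟨h1, h2, d, hd, h3⟩
  · intro d hd e he hne
    rw [Function.onFun, disjoint_left]
    intro s hs hs'
    rw [mem_filter] at hs hs'
    have key : ∀ d ∈ SmD w D, d ∣ N - s → ((N - s) / d).primeFactorsList.length = k → ((N - s) / d).minFac ∈ T →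
        Pool.Agent.Lib.MP_5d7b92_nt.UA.sp w (N - s) = d := by
      intro d hd h1 h2 h3
      obtain ⟨⟨hd1, -⟩, hdp⟩ := na_smD hd
      have hn0 : (N - s) / d ≠ 0 := by
        intro h0
        rw [h0] at h2
        simp at h2
        omega
      have hc : Nat.Coprime ((N - s) / d) (primorial w) := by
        refine Nat.coprime_of_dvd fun p hp h4 h5 => ?_
        rw [hp.dvd_primorial_iff] at h5
        have h6 := Nat.minFac_le_of_dvd hp.two_le h4
        have h7 := hT _ h3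
        omega
      have h8 := Pool.Agent.Lib.MP_5d7b92_nt.UA.sp_unique (w := w) (d := d) (e := (N - s) / d) (by omega) hn0 hdp hc
      rwa [Nat.mul_div_cancel' h1] at h8
    exact hne ((key d hd hs.2.2.1 hs.2.2.2.1 hs.2.2.2.2).symm.trans (key e he hs'.2.2.1 hs'.2.2.2.1 hs'.2.2.2.2))

theorem naT (k K B : ℕ) (hk : 2 ≤ k) : ∃ c0 C : ℕ, ∀ ε : ℝ, 0 < ε → ∃ (D0 : ℕ) (η : ℝ), 0 < η ∧ ∃ X0 : ℕ, ∀ (X H : ℕ) (w' : ℝ) (T : Finset ℕ),
    X0 ≤ X → 1 ≤ w' → w' ≤ (X : ℝ) ^ η → w' * (Real.log X) ^ C ≤ H → H * H ≤ X → (∀ q ∈ T, q.Prime ∧ (Real.log X) ^ c0 ≤ q ∧ (q : ℝ) ≤ w') →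
      1 / (Real.log X) ^ B ≤ ∑ q ∈ T, 1 / (q : ℝ) → ∀ S : Finset ℕ, S ⊆ Icc 1 H → ∀ D : ℕ, (wX X) ^ D0 ≤ D → (D : ℝ) ≤ Real.log X →
        (((Ioc X (2 * X)).filter fun N => ε * (Real.log (Real.log (Real.log X)) * (S.card + H / (Real.log X) ^ K) * (dT k T X / Real.log X)) <
          |(cA (wX X) D k T S N : ℝ) - Real.exp Real.eulerMascheroniConstant *
            (Real.log (Real.log (Real.log X)) * S.card * (dT k T X / Real.log X))|).card : ℝ) ≤ ε * X := by
  classical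
  obtain ⟨c0, C, hdl⟩ := dlT k K B hk
  refine ⟨c0 + 1, C + 3, fun ε hε => ?_⟩
  set G : ℝ := Real.exp Real.eulerMascheroniConstant with hG
  have hG0 : 0 < G := Real.exp_pos _
  have hG1 : 0 < G + 1 := by linarith
  set ε1 : ℝ := ε ^ 2 / (4 * (G + 1)) with hε1
  have hε10 : 0 < ε1 := by positivity
  set ε2 : ℝ := min 1 (ε ^ 2 / 2) with hε2
  have hε20 : 0 < ε2 := lt_min one_pos (by positivity)
  obtain ⟨D0, X1, hpr⟩ := Pool.Agent.Lib.WL.prL ε1 hε10
  obtain ⟨η, hη, X2, hdl2⟩ := hdl ε1 hε10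
  obtain ⟨X3, hme⟩ := Pool.Agent.Lib.MP_5d7b92_nt.UA.cW_asymp ε2 hε20
  obtain ⟨X4, hX4⟩ : ∃ X4 : ℕ, ∀ X : ℕ, X4 ≤ X → 1 ≤ Real.log X ∧ 1 < Real.log (Real.log X) := by
    have h1 : Filter.Tendsto (fun X : ℕ => Real.log (X : ℝ)) Filter.atTop Filter.atTop :=
      Real.tendsto_log_atTop.comp tendsto_natCast_atTop_atTop
    have h2 : Filter.Tendsto (fun X : ℕ => Real.log (Real.log (X : ℝ))) Filter.atTop Filter.atTop :=
      Real.tendsto_log_atTop.comp h1
    exact Filter.eventually_atTop.mp ((h1.eventually_ge_atTop 1).and (h2.eventually_gt_atTop 1))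
  refine ⟨D0, min η (1 / 4), lt_min hη (by norm_num), X1 + X2 + X3 + X4 + 1, ?_⟩
  intro X H w' T hX hw1 hwη hH hHX hT hTB S hS D hD hDL
  obtain ⟨hL1, hLL1⟩ := hX4 X (by omega)
  have hHX1 : H ≤ X := by
    rcases Nat.eq_zero_or_pos H with h0 | h0
    · omega
    · exact (Nat.le_mul_of_pos_left H h0).trans hHX
  have hSX : S ⊆ Icc 1 (2 * X) := hS.trans (Icc_subset_Icc le_rfl (by omega))
  have hX1 : (1 : ℝ) ≤ X := by exact_mod_cast (by omega : 1 ≤ X)
  have hX0 : (0 : ℝ) < X := by linarith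
  set L : ℝ := Real.log X with hL
  have hL0 : 0 < L := by linarith
  have hl3 : 0 < Real.log (Real.log L) := Real.log_pos hLL1
  set l3 : ℝ := Real.log (Real.log L) with hl3d
  -- the parameters
  have hwη' : w' ≤ (X : ℝ) ^ η := hwη.trans (Real.rpow_le_rpow_of_exponent_le hX1 (min_le_left _ _))
  have hw4 : w' ≤ (X : ℝ) ^ (1 / 4 : ℝ) := hwη.trans (Real.rpow_le_rpow_of_exponent_le hX1 (min_le_right _ _))
  have hH3 : L ^ 3 ≤ H := by
    refine le_trans ?_ hH
    calc L ^ 3 ≤ L ^ (C + 3) := pow_le_pow_right₀ hL1 (by omega)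
      _ ≤ w' * L ^ (C + 3) := le_mul_of_one_le_left (by positivity) hw1
  have hHC : w' * L ^ C ≤ H := by
    refine le_trans (mul_le_mul_of_nonneg_left (pow_le_pow_right₀ hL1 (by omega)) (by linarith)) hH
  have hTL : ∀ q ∈ T, q.Prime ∧ L ^ c0 ≤ q ∧ (q : ℝ) ≤ w' := fun q hq =>
    ⟨(hT q hq).1, (pow_le_pow_right₀ hL1 (by omega)).trans (hT q hq).2.1, (hT q hq).2.2⟩
  have hwle : ((wX X : ℕ) : ℝ) ≤ Real.log L := Nat.floor_le (by linarith)
  have hwlt : Real.log L < (wX X : ℕ) + 1 := Nat.lt_floor_add_one _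
  have hTw : ∀ q ∈ T, wX X < q := by
    intro q hq
    have h1 : L ≤ q := by
      calc L = L ^ 1 := (pow_one L).symm
        _ ≤ L ^ (c0 + 1) := pow_le_pow_right₀ hL1 (by omega)
        _ ≤ q := (hT q hq).2.1
    have h2 : Real.log L < L := by
      have := Real.add_one_le_exp (Real.log L)
      rw [Real.exp_log hL0] at this
      linarith
    have h3 : ((wX X : ℕ) : ℝ) < q := by linarith
    exact_mod_cast h3
  -- `ρ > 0`
  set ρ : ℝ := dT k T X / L with hρ
  have hρ0 : 0 < ρ := by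
    rw [hρ]
    refine div_pos ?_ hL0
    have hne : T.Nonempty := by
      rw [nonempty_iff_ne_empty]
      intro h0
      rw [h0, sum_empty] at hTB
      have : (0 : ℝ) < 1 / L ^ B := by positivity
      linarith
    unfold dT
    refine sum_pos (fun q hq => ?_) hne
    have hq2 : (2 : ℝ) ≤ q := by exact_mod_cast (hT q hq).1.two_le
    have hlq : 0 < Real.log q := Real.log_pos (by linarith)
    have h1 : Real.log q ≤ 1 / 4 * L := by
      have h2 : Real.log q ≤ Real.log ((X : ℝ) ^ (1 / 4 : ℝ)) :=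
        Real.log_le_log (by linarith) ((hT q hq).2.2.trans hw4)
      rwa [Real.log_rpow hX0] at h2
    have h3 : 1 < Real.log X / Real.log q := by
      rw [lt_div_iff₀ hlq]
      linarith
    have h4 : 0 < Real.log (Real.log X / Real.log q) := Real.log_pos h3
    positivity
  -- the constant
  set c : ℝ := Pool.Agent.Lib.SW.cX X with hc
  have hcW : c = Pool.Agent.Lib.MP_5d7b92_nt.UA.cW (wX X) := rfl
  have hc0 : 0 < c := by
    rw [hcW]
    exact Pool.Agent.Lib.MP_5d7b92_nt.UA.cW_pos _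
  have hcl : |c - G * l3| ≤ ε2 * l3 := by
    rw [hcW]
    exact hme X (by omega) (wX X) (by
      rw [abs_le]
      constructor <;> linarith)
  have hc1 : c ≤ (G + 1) * l3 := by
    have h1 := (abs_le.1 hcl).2
    have h2 : ε2 * l3 ≤ 1 * l3 := mul_le_mul_of_nonneg_right (min_le_left _ _) hl3.le
    linarith
  -- the total
  set Z : ℝ := (S.card : ℝ) + H / L ^ K with hZ
  have hHp : (0 : ℝ) < H := lt_of_lt_of_le (by positivity) hH3
  have hZ0 : 0 < Z := by positivity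
  have hSZ : (S.card : ℝ) ≤ Z := by
    rw [hZ]
    have : (0 : ℝ) ≤ H / L ^ K := by positivity
    linarith
  have hH0 : (0 : ℝ) ≤ X := Nat.cast_nonneg X
  have hsum : ∀ N, (cA (wX X) D k T S N : ℝ) = ∑ d ∈ SmD (wX X) D, (cD d k T S N : ℝ) := by
    intro N
    rw [na_sum (wX X) D k hk T S hTw N]
    push_cast
    rfl
  have hmt : ∀ N, (Pool.Agent.Lib.MP_5d7b92_nt.UA.mt (wX X) (SmD (wX X) D) S N : ℝ) =
      ∑ d ∈ SmD (wX X) D, (Pool.Agent.Lib.MP_5d7b92_nt.UA.sg (wX X) d S N : ℝ) := by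
    intro N
    rw [← Pool.Agent.Lib.MP_5d7b92_nt.UA.sum_sg (wX X) (SmD (wX X) D) S N
      (fun d hd => ⟨(na_smD hd).1.1, (na_smD hd).2⟩)]
    push_cast
    rfl
  have hmtle : ∀ N, (Pool.Agent.Lib.MP_5d7b92_nt.UA.mt (wX X) (SmD (wX X) D) S N : ℝ) ≤ ((S.filter fun s => s < N).card : ℝ) := by
    intro N
    unfold Pool.Agent.Lib.MP_5d7b92_nt.UA.mt
    refine Nat.cast_le.2 (card_le_card fun s hs => ?_)
    rw [mem_filter] at hs ⊢
    exact ⟨hs.1, hs.2.1⟩
  have hA : ∑ N ∈ Ioc X (X + X), |(cA (wX X) D k T S N : ℝ) -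
      c * (Pool.Agent.Lib.MP_5d7b92_nt.UA.mt (wX X) (SmD (wX X) D) S N : ℝ) * ρ| ≤ ε1 * X * c * Z * ρ := by
    calc ∑ N ∈ Ioc X (X + X), |(cA (wX X) D k T S N : ℝ) -
          c * (Pool.Agent.Lib.MP_5d7b92_nt.UA.mt (wX X) (SmD (wX X) D) S N : ℝ) * ρ|
        ≤ ∑ N ∈ Ioc X (X + X), ∑ d ∈ SmD (wX X) D,
          |(cD d k T S N : ℝ) - c * (Pool.Agent.Lib.MP_5d7b92_nt.UA.sg (wX X) d S N : ℝ) * ρ| := by
          refine sum_le_sum fun N _ => ?_
          rw [hsum N, hmt N, mul_sum, sum_mul, ← sum_sub_distrib]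
          exact abs_sum_le_sum_abs _ _
      _ = ∑ d ∈ SmD (wX X) D, ∑ N ∈ Ioc X (X + X),
          |(cD d k T S N : ℝ) - c * (Pool.Agent.Lib.MP_5d7b92_nt.UA.sg (wX X) d S N : ℝ) * ρ| := sum_comm
      _ ≤ ∑ d ∈ SmD (wX X) D, ε1 * (X / d) * Z * ρ := by
          refine sum_le_sum fun d hd => ?_
          obtain ⟨⟨hd1, hdD⟩, -⟩ := na_smD hd
          exact hdl2 X H w' T (by omega) hw1 hwη' hHC hHX hTL hTB S hS d hd1
            (le_trans (by exact_mod_cast hdD) hDL)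
      _ = ε1 * X * Z * ρ * ∑ d ∈ SmD (wX X) D, 1 / (d : ℝ) := by
          rw [mul_sum]
          refine sum_congr rfl fun d _ => ?_
          ring
      _ ≤ ε1 * X * Z * ρ * c := by
          refine mul_le_mul_of_nonneg_left ?_ (by positivity)
          rw [hcW]
          exact Pool.Agent.Lib.MP_5d7b92_nt.UA.sum_inv_le (wX X) (SmD (wX X) D)
            (fun d hd => ⟨(na_smD hd).1.1, (na_smD hd).2⟩)
      _ = ε1 * X * c * Z * ρ := by ring
  have hB := hpr X X (by omega) (hH3.trans (by exact_mod_cast hHX1)) le_rfl S hSX D hD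
  have hF : ∑ N ∈ Ioc X (X + X), |(cA (wX X) D k T S N : ℝ) - G * (l3 * (S.filter fun s => s < N).card * ρ)| ≤
      ε ^ 2 * X * (l3 * Z * ρ) := by
    have h1 : ∀ N ∈ Ioc X (X + X), |(cA (wX X) D k T S N : ℝ) - G * (l3 * (S.filter fun s => s < N).card * ρ)| ≤
        |(cA (wX X) D k T S N : ℝ) - c * (Pool.Agent.Lib.MP_5d7b92_nt.UA.mt (wX X) (SmD (wX X) D) S N : ℝ) * ρ| +
        c * ρ * (((S.filter fun s => s < N).card : ℝ) - Pool.Agent.Lib.MP_5d7b92_nt.UA.mt (wX X) (SmD (wX X) D) S N) +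
        ε2 * l3 * Z * ρ := by
      intro N _
      have e1 : (cA (wX X) D k T S N : ℝ) - G * (l3 * (S.filter fun s => s < N).card * ρ) =
          ((cA (wX X) D k T S N : ℝ) - c * (Pool.Agent.Lib.MP_5d7b92_nt.UA.mt (wX X) (SmD (wX X) D) S N : ℝ) * ρ) +
          (-(c * ρ * (((S.filter fun s => s < N).card : ℝ) - Pool.Agent.Lib.MP_5d7b92_nt.UA.mt (wX X) (SmD (wX X) D) S N))) +
          (c - G * l3) * ((S.filter fun s => s < N).card * ρ) := by ring
      rw [e1]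
      refine (abs_add_three _ _ _).trans ?_
      have h2 : |-(c * ρ * (((S.filter fun s => s < N).card : ℝ) - Pool.Agent.Lib.MP_5d7b92_nt.UA.mt (wX X) (SmD (wX X) D) S N))| =
          c * ρ * (((S.filter fun s => s < N).card : ℝ) - Pool.Agent.Lib.MP_5d7b92_nt.UA.mt (wX X) (SmD (wX X) D) S N) := by
        rw [abs_neg, abs_of_nonneg]
        exact mul_nonneg (by positivity) (by linarith [hmtle N])
      have h3 : |(c - G * l3) * ((S.filter fun s => s < N).card * ρ)| ≤ ε2 * l3 * Z * ρ := by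
        rw [abs_mul, abs_of_nonneg (by positivity : (0 : ℝ) ≤ (S.filter fun s => s < N).card * ρ)]
        have h4 : ((S.filter fun s => s < N).card : ℝ) ≤ Z :=
          le_trans (Nat.cast_le.2 (card_le_card (filter_subset _ _))) hSZ
        calc |c - G * l3| * ((S.filter fun s => s < N).card * ρ) ≤ (ε2 * l3) * (Z * ρ) :=
              mul_le_mul hcl (mul_le_mul_of_nonneg_right h4 hρ0.le) (by positivity) (by positivity)
          _ = ε2 * l3 * Z * ρ := by ring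
      rw [h2]
      linarith
    refine (sum_le_sum h1).trans ?_
    rw [sum_add_distrib, sum_add_distrib, ← mul_sum, sum_const, Nat.card_Ioc, nsmul_eq_mul]
    have e2 : ((X + X - X : ℕ) : ℝ) = X := by
      rw [Nat.add_sub_cancel_left]
    rw [e2]
    have h5 : c * ρ * ∑ N ∈ Ioc X (X + X), (((S.filter fun s => s < N).card : ℝ) - Pool.Agent.Lib.MP_5d7b92_nt.UA.mt (wX X) (SmD (wX X) D) S N) ≤
        c * ρ * (ε1 * X * Z) := by
      refine mul_le_mul_of_nonneg_left (hB.trans ?_) (by positivity)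
      exact mul_le_mul_of_nonneg_left hSZ (by positivity)
    have h6 : ε1 * X * c * Z * ρ ≤ ε1 * X * ((G + 1) * l3) * Z * ρ := by
      have : ε1 * X * c ≤ ε1 * X * ((G + 1) * l3) := mul_le_mul_of_nonneg_left hc1 (by positivity)
      exact mul_le_mul_of_nonneg_right (mul_le_mul_of_nonneg_right this hZ0.le) hρ0.le
    have h7 : ε1 * X * ((G + 1) * l3) * Z * ρ = ε ^ 2 / 4 * X * (l3 * Z * ρ) := by
      rw [hε1]
      field_simp
    have h8 : (X : ℝ) * (ε2 * l3 * Z * ρ) ≤ ε ^ 2 / 2 * X * (l3 * Z * ρ) := by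
      have h9 : ε2 ≤ ε ^ 2 / 2 := min_le_right _ _
      calc (X : ℝ) * (ε2 * l3 * Z * ρ) = ε2 * (X * (l3 * Z * ρ)) := by ring
        _ ≤ ε ^ 2 / 2 * (X * (l3 * Z * ρ)) := mul_le_mul_of_nonneg_right h9 (by positivity)
        _ = ε ^ 2 / 2 * X * (l3 * Z * ρ) := by ring
    have h10 : c * ρ * (ε1 * X * Z) = ε1 * X * c * Z * ρ := by ring
    nlinarith
  -- Markov
  set P : ℝ := l3 * Z * ρ with hP
  have hP0 : 0 < P := by positivity
  set E := (Ioc X (X + X)).filter fun N => ε * (l3 * Z * ρ) <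
    |(cA (wX X) D k T S N : ℝ) - G * (l3 * (S.filter fun s => s < N).card * ρ)| with hE
  have h11 : (E.card : ℝ) * (ε * P) ≤ ∑ N ∈ E, |(cA (wX X) D k T S N : ℝ) - G * (l3 * (S.filter fun s => s < N).card * ρ)| := by
    rw [← nsmul_eq_mul, ← sum_const]
    refine sum_le_sum fun N hN => ?_
    rw [hE, mem_filter] at hN
    exact hN.2.le
  have h12 : ∑ N ∈ E, |(cA (wX X) D k T S N : ℝ) - G * (l3 * (S.filter fun s => s < N).card * ρ)| ≤
      ∑ N ∈ Ioc X (X + X), |(cA (wX X) D k T S N : ℝ) - G * (l3 * (S.filter fun s => s < N).card * ρ)| :=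
    sum_le_sum_of_subset_of_nonneg (filter_subset _ _) fun _ _ _ => abs_nonneg _
  have h13 : (E.card : ℝ) * (ε * P) ≤ (ε * X) * (ε * P) := by
    calc (E.card : ℝ) * (ε * P) ≤ ε ^ 2 * X * P := h11.trans (h12.trans hF)
      _ = (ε * X) * (ε * P) := by ring
  have h14 : ((Ioc X (2 * X)).filter fun N => ε * (l3 * Z * ρ) < |(cA (wX X) D k T S N : ℝ) - G * (l3 * S.card * ρ)|) = E := by
    rw [hE, two_mul]
    refine filter_congr fun N hN => ?_
    rw [mem_Ioc] at hN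
    have h15 : (S.filter fun s => s < N) = S := by
      refine filter_true_of_mem fun s hs => ?_
      have := (mem_Icc.1 (hS hs)).2
      omega
    rw [h15]
  rw [h14]
  exact le_of_mul_le_mul_right h13 (by positivity)

end Pool.Agent.Lib.WT
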