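import Pool.Agent.Lib.WT.NA
import Pool.Agent.Lib.SW.SC.SC2

/-!
# WT, row NP: almost all `N`, tiny (iterated) prime-indexed primes

PROOF IN WORDS. `naT k (j+2) B` with `ε' = ε/16` and `S = {p ≤ H : PI j p}`; `|S| = (1 + o(1)) H/(log H)^(j+1)` (`PI_asymp`; `H ≥ L^C` tends to infinity with `X`), `H/L^(j+2) ≤ H/(log H)^(j+1)` as `log H ≤ L`. As in WT/Pj.lean (landed).
-/

set_option autoImplicit false

open Finset

namespace Pool.Agent.Lib.WT

open Pool.Agent.Lib.SW (wX PI)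
open Pool.Agent.Lib.WL (cA)
open Pool.Agent.Lib.T8 (dT)

open Pool.Agent.Lib.SW (PI_unif SC2_log LG3_log3_ev)
open Filter Topology

theorem npT (k j B : ℕ) (hk : 2 ≤ k) : ∃ c0 C : ℕ, ∀ ε : ℝ, 0 < ε → ∃ (D0 : ℕ) (η : ℝ), 0 < η ∧ ∃ X0 : ℕ, ∀ (X H : ℕ) (w' : ℝ) (T : Finset ℕ),
    X0 ≤ X → 1 ≤ w' → w' ≤ (X : ℝ) ^ η → w' * (Real.log X) ^ C ≤ H → H * H ≤ X → (∀ q ∈ T, q.Prime ∧ (Real.log X) ^ c0 ≤ q ∧ (q : ℝ) ≤ w') →
      1 / (Real.log X) ^ B ≤ ∑ q ∈ T, 1 / (q : ℝ) → ∀ D : ℕ, (wX X) ^ D0 ≤ D → (D : ℝ) ≤ Real.log X →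
        (((Ioc X (2 * X)).filter fun N => ε * (Real.log (Real.log (Real.log X)) * (H / ((Real.log H) ^ (j + 1) * Real.log X)) * dT k T X) <
          |(cA (wX X) D k T ((Icc 1 H).filter (PI j)) N : ℝ) - Real.exp Real.eulerMascheroniConstant *
            (Real.log (Real.log (Real.log X)) * (H / ((Real.log H) ^ (j + 1) * Real.log X)) * dT k T X)|).card : ℝ) ≤ ε * X := by
  obtain ⟨G, hG⟩ : ∃ G : ℝ, G = Real.exp Real.eulerMascheroniConstant := ⟨_, rfl⟩
  have hG0 : 0 < G := by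
    rw [hG]
    exact Real.exp_pos _
  obtain ⟨c0, C, hna⟩ := naT k (j + 2) B hk
  refine ⟨c0, C + 1, fun ε hε => ?_⟩
  obtain ⟨κ, hκ0, hκ1, hκε⟩ : ∃ κ : ℝ, 0 < κ ∧ κ ≤ 1 ∧ (G + 3) * κ ≤ ε := by
    refine ⟨min (ε / (G + 3)) 1, by positivity, min_le_right _ _, ?_⟩
    have h := min_le_left (ε / (G + 3)) 1
    calc (G + 3) * min (ε / (G + 3)) 1 ≤ (G + 3) * (ε / (G + 3)) :=
          mul_le_mul_of_nonneg_left h (by positivity)
      _ = ε := by field_simp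
  have hκε' : κ ≤ ε := by nlinarith
  obtain ⟨D0, η, hη, X₁, hX₁⟩ := hna κ hκ0
  obtain ⟨X₂, hX₂⟩ := PI_unif j κ hκ0
  obtain ⟨X₀, hX₀⟩ := eventually_atTop.1 ((LG3_log3_ev 1).and
    ((SC2_log.eventually_ge_atTop (max (X₂ : ℝ) 3)).and
      (eventually_ge_atTop (max X₁ 3))))
  refine ⟨D0, min η 1, lt_min hη one_pos, X₀, fun X H w' T hX hw1 hw2' hw3' hH hT hTB D hD1 hD2 => ?_⟩
  obtain ⟨k3, k5, k6⟩ := hX₀ X hX
  have hXa : X₁ ≤ X := (le_max_left _ _).trans k6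
  have hX3 : 3 ≤ X := (le_max_right _ _).trans k6
  have hXr : (3 : ℝ) ≤ X := by exact_mod_cast hX3
  have hX0 : (0 : ℝ) < X := by linarith
  have hLX2 : (X₂ : ℝ) ≤ Real.log X := (le_max_left _ _).trans k5
  have hL3 : (3 : ℝ) ≤ Real.log X := (le_max_right _ _).trans k5
  have hL1 : (1 : ℝ) ≤ Real.log X := by linarith
  have hw3 : w' * (Real.log X) ^ C ≤ H := by
    refine le_trans ?_ hw3'
    exact mul_le_mul_of_nonneg_left (pow_le_pow_right₀ hL1 (by omega)) (by linarith)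
  have hLH : Real.log X ≤ H := by
    refine le_trans ?_ hw3'
    calc Real.log X = 1 * (Real.log X) ^ 1 := by rw [pow_one, one_mul]
      _ ≤ w' * (Real.log X) ^ (C + 1) :=
          mul_le_mul hw1 (pow_le_pow_right₀ hL1 (by omega)) (by positivity) (by linarith)
  have hHb : X₂ ≤ H := by
    have : (X₂ : ℝ) ≤ H := hLX2.trans hLH
    exact_mod_cast this
  have hHr : (3 : ℝ) ≤ H := hL3.trans hLH
  have hH0 : (0 : ℝ) < H := by linarith
  have hHX : (H : ℝ) ≤ X := by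
    have h1 : (H : ℝ) * H ≤ X := by exact_mod_cast hH
    nlinarith
  have hlHL : Real.log H ≤ Real.log X := Real.log_le_log hH0 hHX
  have hlH0 : 0 < Real.log H := Real.log_pos (by linarith)
  obtain ⟨S, hS⟩ : ∃ S : Finset ℕ, S = (Icc 1 H).filter (PI j) := ⟨_, rfl⟩
  have hSX : S ⊆ Icc 1 H := by
    rw [hS]
    exact filter_subset _ _
  have hw2 : w' ≤ (X : ℝ) ^ η :=
    hw2'.trans (Real.rpow_le_rpow_of_exponent_le (by linarith) (min_le_left _ _))
  have hmain := hX₁ X H w' T hXa hw1 hw2 hw3 hH hT hTB S hSX D hD1 hD2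
  have hcount := hX₂ H hHb H le_rfl
  obtain ⟨δ, hδ⟩ : ∃ δ : ℝ, δ = dT k T X := ⟨_, rfl⟩
  have hδ0 : 0 ≤ δ := by
    rw [hδ]
    unfold dT
    refine sum_nonneg fun q hq => ?_
    obtain ⟨g1, _, g3⟩ := hT q hq
    have g4 : (q : ℝ) ≤ X := by
      refine g3.trans (hw2'.trans ?_)
      calc (X : ℝ) ^ (min η 1) ≤ (X : ℝ) ^ (1 : ℝ) :=
            Real.rpow_le_rpow_of_exponent_le (by linarith) (min_le_right _ _)
        _ = X := Real.rpow_one _
    have g5 : (1 : ℝ) < q := by exact_mod_cast g1.one_lt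
    have g6 : 0 < Real.log q := Real.log_pos g5
    have g7 : 0 ≤ Real.log (Real.log X / Real.log q) := by
      refine Real.log_nonneg ?_
      rw [le_div_iff₀ g6, one_mul]
      exact Real.log_le_log (by linarith) g4
    positivity
  rw [← hS, ← hG, ← hδ]
  rw [← hG, ← hδ] at hmain
  rw [← hS] at hcount
  refine le_trans ?_ (hmain.trans (mul_le_mul_of_nonneg_right hκε' (by positivity)))
  refine Nat.cast_le.2 (card_le_card ?_)
  intro N hN
  rw [mem_filter] at hN ⊢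
  obtain ⟨hN1, hbad⟩ := hN
  refine ⟨hN1, ?_⟩
  by_contra hgood
  have hgood2 := le_of_not_gt hgood
  refine absurd hbad (not_lt.2 ?_)
  obtain ⟨L, hL⟩ : ∃ L : ℝ, L = Real.log X := ⟨_, rfl⟩
  obtain ⟨t, ht⟩ : ∃ t : ℝ, t = Real.log (Real.log L) := ⟨_, rfl⟩
  obtain ⟨P, hP⟩ : ∃ P : ℝ, P = (Real.log H) ^ (j + 1) := ⟨_, rfl⟩
  have hP0 : 0 < P := by
    rw [hP]
    positivity
  rw [← hL] at k3 hL3 hL1 hlHL hgood2
  rw [← ht] at k3 hgood2
  rw [← hL, ← ht, ← hP]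
  rw [← hP] at hcount
  have hL0 : 0 < L := by linarith
  have ht0 : 0 < t := by linarith
  have hPL : P ≤ L ^ (j + 2) := by
    rw [hP]
    exact (pow_le_pow_left₀ hlH0.le hlHL _).trans (pow_le_pow_right₀ hL1 (by omega))
  obtain ⟨s, hs⟩ : ∃ s : ℝ, s = (S.card : ℝ) := ⟨_, rfl⟩
  rw [← hs] at hgood2 hcount
  have hfN := abs_le.1 hcount
  have hHP : 0 < (H : ℝ) / P := by positivity
  have hκH : κ * (H : ℝ) / P = κ * (H / P) := by ring
  rw [hκH] at hfN
  have hs3 : |s - H / P| ≤ κ * (H / P) := by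
    rw [abs_le]
    exact ⟨by linarith [hfN.1], by linarith [hfN.2]⟩
  have h1 : (H : ℝ) / L ^ (j + 2) ≤ H / P := div_le_div_of_nonneg_left hH0.le hP0 hPL
  have hs4 : s + H / L ^ (j + 2) ≤ 3 * (H / P) := by
    have : κ * (H / P) ≤ H / P := by nlinarith
    linarith [hfN.2]
  obtain ⟨E, hE⟩ : ∃ E : ℝ, E = t * (H / (P * L)) * δ := ⟨_, rfl⟩
  have hE0 : 0 ≤ E := by
    rw [hE]
    positivity
  rw [← hE]
  obtain ⟨c, hc⟩ : ∃ c : ℝ, c = (cA (wX X) D k T S N : ℝ) := ⟨_, rfl⟩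
  rw [← hc] at hgood2 ⊢
  have t1 : |c - G * (t * s * (δ / L))| ≤ 3 * κ * E := by
    refine hgood2.trans ?_
    calc κ * (t * (s + H / L ^ (j + 2)) * (δ / L))
        ≤ κ * (t * (3 * (H / P)) * (δ / L)) := by
          refine mul_le_mul_of_nonneg_left ?_ hκ0.le
          refine mul_le_mul_of_nonneg_right ?_ (by positivity)
          exact mul_le_mul_of_nonneg_left hs4 ht0.le
      _ = 3 * κ * E := by
          rw [hE]
          field_simp
  have t2 : |G * (t * s * (δ / L)) - G * E| ≤ G * κ * E := by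
    have e1 : G * (t * s * (δ / L)) - G * E = G * t * (s - H / P) * (δ / L) := by
      rw [hE]
      field_simp
    rw [e1, abs_mul, abs_mul, abs_of_nonneg (by positivity : 0 ≤ δ / L), abs_of_pos (by positivity : 0 < G * t)]
    calc G * t * |s - H / P| * (δ / L) ≤ G * t * (κ * (H / P)) * (δ / L) := by
          refine mul_le_mul_of_nonneg_right ?_ (by positivity)
          exact mul_le_mul_of_nonneg_left hs3 (by positivity)
      _ = G * κ * E := by
          rw [hE]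
          field_simp
  have e1 : c - G * E = (c - G * (t * s * (δ / L))) + (G * (t * s * (δ / L)) - G * E) := by ring
  rw [e1]
  refine ((abs_add_le _ _).trans (add_le_add t1 t2)).trans ?_
  calc 3 * κ * E + G * κ * E = ((G + 3) * κ) * E := by ring
    _ ≤ ε * E := mul_le_mul_of_nonneg_right hκε hE0

end Pool.Agent.Lib.WT
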