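import Pool.Agent.Lib.WT.Mn
import Pool.Agent.Lib.SW.SC.SC2

/-!
# WT, row Pj: the multiples of `W` and the iterated prime-indexed primes `≤ H` (copy of WL/Pj.lean, landed, at the scale `H`)

PROOF IN WORDS. `mnT k (j+2) B` with `ε' = κ`, `a = 0`, `S = (Icc 1 H).filter (PI j)`. `|Sa W S 0|` is the number of the `p ∈ P_j`, `p ≤ H`, prime to `W`: the number of all `p ∈ P_j`, `p ≤ H`, up to `log log X + 1` (a prime `p > log log X` is prime to `W`). `PI_unif j κ` at `X := H`, `N := H` (`H ≥ L^C ≥ X₀` for large `X`, `C ≥ 1`):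
`H/(log H)^(j+1)` up to `κ H/(log H)^(j+1)`; and `log log X + 1 ≤ κ H/(log H)^(j+1)` because `H ≥ L^C`, `C ≥ j + 3` (take `C` = the one of `mnT` plus `j + 3`), `log H ≤ L`. `cX X = (e^γ + o(1)) log log log X` (`cX_ratio`), `max |Sa| (H/L^(j+2)) ≤ 2 H/(log H)^(j+1)` (`log H ≤ L`), `dT k T X ≥ 0`
(`log (log X/log q) ≥ 0` since `q ≤ X`). No change from `log 2X` to `log X` is needed.
-/

set_option autoImplicit false

open Finset

namespace Pool.Agent.Lib.WT

open Pool.Agent.Lib.SW (WX PI)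
open Pool.Agent.Lib.WL (cT)
open Pool.Agent.Lib.T8 (dT)
open Pool.Agent.Lib.WL (wnd)
open Pool.Agent.Lib.SW (cX Sa wX wX_le PI_unif PI_prime cX_ratio one_le_cX SC2_log LG3_log3_ev)
open Filter Topology

theorem pjT (k j B : ℕ) (hk : 2 ≤ k) : ∃ c0 C : ℕ, ∀ ε : ℝ, 0 < ε → ∃ η : ℝ, 0 < η ∧ ∃ X0 : ℕ, ∀ (X H : ℕ) (w' : ℝ) (T : Finset ℕ),
    X0 ≤ X → 1 ≤ w' → w' ≤ (X : ℝ) ^ η → w' * (Real.log X) ^ C ≤ H → H * H ≤ X → (∀ q ∈ T, q.Prime ∧ (Real.log X) ^ c0 ≤ q ∧ (q : ℝ) ≤ w') →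
      1 / (Real.log X) ^ B ≤ ∑ q ∈ T, 1 / (q : ℝ) →
        (((Ioc X (2 * X)).filter fun N => WX X ∣ N ∧
          ε * (Real.log (Real.log (Real.log X)) * (H / ((Real.log H) ^ (j + 1) * Real.log X)) * dT k T X) <
            |(cT k T ((Icc 1 H).filter (PI j)) N : ℝ) - Real.exp Real.eulerMascheroniConstant *
              (Real.log (Real.log (Real.log X)) * (H / ((Real.log H) ^ (j + 1) * Real.log X)) * dT k T X)|).card : ℝ) ≤ ε * (X / WX X) := by
  obtain ⟨G, hG⟩ : ∃ G : ℝ, G = Real.exp Real.eulerMascheroniConstant := ⟨_, rfl⟩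
  have hG0 : 0 < G := by
    rw [hG]
    exact Real.exp_pos _
  obtain ⟨c0, C, hmn⟩ := mnT k (j + 2) B hk
  refine ⟨c0, C + (j + 3), fun ε hε => ?_⟩
  obtain ⟨κ, hκ0, hκ1, hκε⟩ : ∃ κ : ℝ, 0 < κ ∧ κ ≤ 1 ∧ (4 * G + 5) * κ ≤ ε := by
    refine ⟨min (ε / (4 * G + 5)) 1, by positivity, min_le_right _ _, ?_⟩
    have h := min_le_left (ε / (4 * G + 5)) 1
    calc (4 * G + 5) * min (ε / (4 * G + 5)) 1 ≤ (4 * G + 5) * (ε / (4 * G + 5)) :=
          mul_le_mul_of_nonneg_left h (by positivity)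
      _ = ε := by field_simp
  have hκε' : κ ≤ ε := by nlinarith
  obtain ⟨η, hη, X₁, hX₁⟩ := hmn κ hκ0
  obtain ⟨X₂, hX₂⟩ := PI_unif j κ hκ0
  -- `|cX - G T| ≤ κ T`
  have hc : ∀ᶠ X : ℕ in atTop, |cX X / Real.log (Real.log (Real.log X)) - G| < κ := by
    have h := Metric.tendsto_atTop.1 cX_ratio κ hκ0
    obtain ⟨N, hN⟩ := h
    filter_upwards [eventually_ge_atTop N] with X hX
    have := hN X hX
    rwa [Real.dist_eq, ← hG] at this
  obtain ⟨X₀, hX₀⟩ := eventually_atTop.1 (hc.and ((LG3_log3_ev 1).and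
    ((SC2_log.eventually_ge_atTop (max (X₂ : ℝ) (max 3 (2 / κ)))).and
      (eventually_ge_atTop (max X₁ 3)))))
  refine ⟨min η 1, lt_min hη one_pos, X₀, fun X H w' T hX hw1 hw2' hw3' hH hT hTB => ?_⟩
  obtain ⟨k1, k3, k5, k6⟩ := hX₀ X hX
  have hXa : X₁ ≤ X := (le_max_left _ _).trans k6
  have hX3 : 3 ≤ X := (le_max_right _ _).trans k6
  have hXr : (3 : ℝ) ≤ X := by exact_mod_cast hX3
  have hX0 : (0 : ℝ) < X := by linarith
  have hLX2 : (X₂ : ℝ) ≤ Real.log X := (le_max_left _ _).trans k5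
  have hL3 : (3 : ℝ) ≤ Real.log X := (le_max_left _ _).trans ((le_max_right _ _).trans k5)
  have hLκ : 2 / κ ≤ Real.log X := (le_max_right _ _).trans ((le_max_right _ _).trans k5)
  have hL1 : (1 : ℝ) ≤ Real.log X := by linarith
  -- the size of `H`
  have hw3 : w' * (Real.log X) ^ C ≤ H := by
    refine le_trans ?_ hw3'
    exact mul_le_mul_of_nonneg_left (pow_le_pow_right₀ hL1 (by omega)) (by linarith)
  have hHL : (Real.log X) ^ (j + 3) ≤ H := by
    refine le_trans ?_ hw3'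
    calc (Real.log X) ^ (j + 3) ≤ (Real.log X) ^ (C + (j + 3)) := pow_le_pow_right₀ hL1 (by omega)
      _ = 1 * (Real.log X) ^ (C + (j + 3)) := (one_mul _).symm
      _ ≤ w' * (Real.log X) ^ (C + (j + 3)) :=
          mul_le_mul_of_nonneg_right hw1 (by positivity)
  have hLH : Real.log X ≤ H := by
    refine le_trans ?_ hHL
    calc Real.log X = (Real.log X) ^ 1 := (pow_one _).symm
      _ ≤ (Real.log X) ^ (j + 3) := pow_le_pow_right₀ hL1 (by omega)
  have hHb : X₂ ≤ H := by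
    have : (X₂ : ℝ) ≤ H := hLX2.trans hLH
    exact_mod_cast this
  have hHr : (3 : ℝ) ≤ H := hL3.trans hLH
  have hH0 : (0 : ℝ) < H := by linarith
  have hHX : (H : ℝ) ≤ X := by
    have h1 : (H : ℝ) * H ≤ X := by exact_mod_cast hH
    nlinarith
  have hlHL : Real.log H ≤ Real.log X := Real.log_le_log hH0 hHX
  have hlH0 : 0 < Real.log H := Real.log_pos (by linarith)
  obtain ⟨S, hS⟩ : ∃ S : Finset ℕ, S = (Icc 1 H).filter (PI j) := ⟨_, rfl⟩
  have hSX : S ⊆ Icc 1 H := by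
    rw [hS]
    exact filter_subset _ _
  have hw2 : w' ≤ (X : ℝ) ^ η :=
    hw2'.trans (Real.rpow_le_rpow_of_exponent_le (by linarith) (min_le_left _ _))
  have hmain := hX₁ X H 0 w' T hXa hw1 hw2 hw3 hH hT hTB S hSX
  have hcount := hX₂ H hHb H le_rfl
  obtain ⟨δ, hδ⟩ : ∃ δ : ℝ, δ = dT k T X := ⟨_, rfl⟩
  have hδ0 : 0 ≤ δ := by
    rw [hδ]
    unfold dT
    refine sum_nonneg fun q hq => ?_
    obtain ⟨g1, _, g3⟩ := hT q hq
    have g4 : (q : ℝ) ≤ X := by
      refine g3.trans (hw2'.trans ?_)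
      calc (X : ℝ) ^ (min η 1) ≤ (X : ℝ) ^ (1 : ℝ) :=
            Real.rpow_le_rpow_of_exponent_le (by linarith) (min_le_right _ _)
        _ = X := Real.rpow_one _
    have g5 : (1 : ℝ) < q := by exact_mod_cast g1.one_lt
    have g6 : 0 < Real.log q := Real.log_pos g5
    have g7 : 0 ≤ Real.log (Real.log X / Real.log q) := by
      refine Real.log_nonneg ?_
      rw [le_div_iff₀ g6, one_mul]
      exact Real.log_le_log (by linarith) g4
    positivity
  rw [← hS, ← hG, ← hδ]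
  rw [← hδ] at hmain
  rw [← hS] at hcount
  refine le_trans ?_ (hmain.trans (mul_le_mul_of_nonneg_right hκε' (by positivity)))
  refine Nat.cast_le.2 (card_le_card ?_)
  intro N hN
  rw [mem_filter, mem_Ioc] at hN
  obtain ⟨⟨hN1, hN2⟩, hWN, hbad⟩ := hN
  unfold wnd
  rw [mem_filter, mem_filter, mem_Ioc]
  refine ⟨⟨⟨hN1, by omega⟩, (Nat.modEq_zero_iff_dvd).2 hWN⟩, ?_⟩
  by_contra hgood
  have hgood2 := le_of_not_gt hgood
  refine absurd hbad (not_lt.2 ?_)
  -- abbreviations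
  obtain ⟨L, hL⟩ : ∃ L : ℝ, L = Real.log X := ⟨_, rfl⟩
  obtain ⟨t, ht⟩ : ∃ t : ℝ, t = Real.log (Real.log L) := ⟨_, rfl⟩
  obtain ⟨P, hP⟩ : ∃ P : ℝ, P = (Real.log H) ^ (j + 1) := ⟨_, rfl⟩
  have hP0 : 0 < P := by
    rw [hP]
    positivity
  have hwL : (wX X : ℝ) ≤ Real.log X := wX_le X hL1
  rw [← hL] at k1 k3 hL3 hLκ hL1 hHL hlHL hgood2 hwL
  rw [← ht] at k1 k3
  rw [← hL, ← ht, ← hP]
  rw [← hP] at hcount
  have hL0 : 0 < L := by linarith
  have ht0 : 0 < t := by linarith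
  have hPL : P ≤ L ^ (j + 1) := by
    rw [hP]
    exact pow_le_pow_left₀ hlH0.le hlHL _
  have hc1 := one_le_cX X
  obtain ⟨c, hc'⟩ : ∃ c : ℝ, c = cX X := ⟨_, rfl⟩
  rw [← hc'] at k1 hgood2 hc1
  have hc2 : |c - G * t| ≤ κ * t := by
    have h1 : c - G * t = (c / t - G) * t := by
      field_simp
    rw [h1, abs_mul, abs_of_pos ht0]
    exact mul_le_mul_of_nonneg_right k1.le ht0.le
  have hc3 : c ≤ (G + 1) * t := by
    have := (abs_le.1 hc2).2
    nlinarith
  -- the small primes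
  have hw' : (wX X : ℝ) ≤ κ * H / P := by
    rw [le_div_iff₀ hP0]
    have h1 : 2 ≤ κ * L := by
      have h2 := mul_le_mul_of_nonneg_left hLκ hκ0.le
      have h3 : κ * (2 / κ) = 2 := by field_simp
      linarith
    have h4 : L ≤ κ * L ^ 2 := by nlinarith
    calc (wX X : ℝ) * P ≤ L * L ^ (j + 1) := mul_le_mul hwL hPL hP0.le hL0.le
      _ ≤ (κ * L ^ 2) * L ^ (j + 1) := mul_le_mul_of_nonneg_right h4 (by positivity)
      _ = κ * L ^ (j + 3) := by ring
      _ ≤ κ * H := mul_le_mul_of_nonneg_left hHL hκ0.le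
  obtain ⟨s, hs⟩ : ∃ s : ℝ, s = ((Sa (WX X) S 0).card : ℝ) := ⟨_, rfl⟩
  rw [← hs] at hgood2
  have hs1 : s ≤ (S.card : ℝ) := by
    rw [hs]
    unfold Sa
    exact Nat.cast_le.2 (card_filter_le _ _)
  have hs2 : (S.card : ℝ) ≤ s + wX X := by
    have h1 : S ⊆ Sa (WX X) S 0 ∪ Icc 1 (wX X) := by
      intro p hp
      have hp' := hp
      rw [hS] at hp'
      obtain ⟨hp1, hp2⟩ := mem_filter.1 hp'
      obtain ⟨hp3, hp4⟩ := mem_Icc.1 hp1
      rw [mem_union]
      by_cases h3 : p ≤ wX X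
      · exact Or.inr (mem_Icc.2 ⟨hp3, h3⟩)
      left
      unfold Sa
      refine mem_filter.2 ⟨hp, ?_⟩
      have hsp : p.Prime := PI_prime j p hp2
      have h4 : Nat.Coprime p (WX X) := by
        rw [Nat.Prime.coprime_iff_not_dvd hsp]
        unfold WX
        rw [hsp.dvd_primorial_iff]
        exact h3
      rw [Nat.cast_zero, zero_sub]
      exact (Nat.isCoprime_iff_coprime.mpr h4).neg_left
    have h2 := (card_le_card h1).trans (card_union_le _ _)
    rw [Nat.card_Icc, Nat.add_sub_cancel] at h2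
    rw [hs]
    exact_mod_cast h2
  have hfN := abs_le.1 hcount
  have hHP : 0 < (H : ℝ) / P := by positivity
  have hκH : κ * (H : ℝ) / P = κ * (H / P) := by ring
  rw [hκH] at hfN hw'
  have hs3 : |s - H / P| ≤ 2 * κ * (H / P) := by
    rw [abs_le]
    constructor
    · linarith [hfN.1]
    · have : 0 ≤ κ * (H / P) := by positivity
      linarith [hfN.2]
  have hs0 : 0 ≤ s := by
    rw [hs]
    exact Nat.cast_nonneg _
  have hmax : max s (H / L ^ (j + 2)) ≤ 2 * (H / P) := by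
    refine max_le ?_ ?_
    · have : κ * (H / P) ≤ H / P := by nlinarith
      linarith [hfN.2]
    · have h1 : P ≤ L ^ (j + 2) := by
        refine hPL.trans ?_
        exact pow_le_pow_right₀ hL1 (by omega)
      have h2 : (H : ℝ) / L ^ (j + 2) ≤ H / P :=
        div_le_div_of_nonneg_left hH0.le hP0 h1
      linarith
  -- the error terms
  obtain ⟨E, hE⟩ : ∃ E : ℝ, E = t * (H / (P * L)) * δ := ⟨_, rfl⟩
  have hE0 : 0 ≤ E := by
    rw [hE]
    positivity
  rw [← hE]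
  have t1 : |(cT k T S N : ℝ) - c * s * (δ / L)| ≤ 2 * κ * (G + 1) * E := by
    refine hgood2.trans ?_
    calc κ * (c * max s (H / L ^ (j + 2)) * (δ / L))
        ≤ κ * ((G + 1) * t * (2 * (H / P)) * (δ / L)) := by
          refine mul_le_mul_of_nonneg_left ?_ hκ0.le
          refine mul_le_mul_of_nonneg_right ?_ (by positivity)
          exact mul_le_mul hc3 hmax (le_max_of_le_left hs0) (by positivity)
      _ = 2 * κ * (G + 1) * E := by
          rw [hE]
          field_simp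
  have t2 : |c * s * (δ / L) - c * (H / P) * (δ / L)| ≤ 2 * κ * (G + 1) * E := by
    have e1 : c * s * (δ / L) - c * (H / P) * (δ / L) = c * (s - H / P) * (δ / L) := by ring
    rw [e1, abs_mul, abs_mul, abs_of_nonneg (by positivity : 0 ≤ δ / L), abs_of_pos (by linarith : 0 < c)]
    calc c * |s - H / P| * (δ / L) ≤ ((G + 1) * t) * (2 * κ * (H / P)) * (δ / L) := by
          refine mul_le_mul_of_nonneg_right ?_ (by positivity)
          exact mul_le_mul hc3 hs3 (abs_nonneg _) (by positivity)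
      _ = 2 * κ * (G + 1) * E := by
          rw [hE]
          field_simp
  have t3 : |c * (H / P) * (δ / L) - G * E| ≤ κ * E := by
    have e1 : c * (H / P) * (δ / L) - G * E = (c - G * t) * (H * δ / (P * L)) := by
      rw [hE]
      field_simp
    rw [e1, abs_mul, abs_of_nonneg (by positivity : 0 ≤ H * δ / (P * L))]
    calc |c - G * t| * (H * δ / (P * L)) ≤ (κ * t) * (H * δ / (P * L)) :=
          mul_le_mul_of_nonneg_right hc2 (by positivity)
      _ = κ * E := by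
          rw [hE]
          ring
  have e1 : (cT k T S N : ℝ) - G * E = ((cT k T S N : ℝ) - c * s * (δ / L)) +
    (c * s * (δ / L) - c * (H / P) * (δ / L)) + (c * (H / P) * (δ / L) - G * E) := by ring
  rw [e1]
  refine ((abs_add_le _ _).trans (add_le_add ((abs_add_le _ _).trans (add_le_add t1 t2)) t3)).trans ?_
  calc 2 * κ * (G + 1) * E + 2 * κ * (G + 1) * E + κ * E = ((4 * G + 5) * κ) * E := by ring
    _ ≤ ε * E := mul_le_mul_of_nonneg_right hκε hE0

end Pool.Agent.Lib.WT
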