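import Pool.Agent.Lib.WT.Mt
import Pool.Agent.Lib.G9.Pars
import Pool.Agent.Lib.T8.Var
import Pool.Agent.Lib.T8.Pl
import Pool.Agent.Lib.T8.Bd

/-!
# WT, row Sc: the second moment over a class (compare WL/Bl.lean and G9/ZWt.lean, both landed)

PROOF IN WORDS. `L = log X`, `l = log 32X`, `c = cX X ≥ 1`, `W = WX X ≤ L^2`, `σ = sL k U T ≥ L^(-B)`. `mtT K` gives `g0`; `varZ Kk A g0` with `A = 2K + 2B + 8` gives `g ≥ g0`, `a1`, and `c6` for each `c1`; `mtT` at `g` gives `C'`; `C = max C' (c6 + 1)`. For `N` in `(X + H, 2X]` and `s ≤ H`: `N - s ∈ (X, 2X] ⊆ (X, 3X]`, so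
`rZ X k U T (N - s) = σ/l` (`platZ` with `Y = X`). `∑_s FZ - c |Sa| σ/L = x1 + x2 + x3`, `x1 = ∑ (FZ - rZ ram)`, `x2 = (σ/l)(∑ ram - c |Sa|)`, `x3 = c |Sa| σ (1/l - 1/L)`; `(x1+x2+x3)^2 ≤ 3(x1^2+x2^2+x3^2)`.
x1: `parsW` (G9/Pars) with `b s = 1` if `s ∈ S`, else `0`, on `[1, H]`, `H' = 2H`, `T = 32X + 2H + 1`, `D n = FZ n - rZ n ram Q n` (support in `[1, 32X]`: `FZ_le`, `rZ_le`), `Q = ⌊l^g⌋`, `Bd = 32X (2H)^2/l^A` (`varZ` at `2H`: `w' l^c6 ≤ w' L^(c6+1) ≤ 2H`): `∑_{N < 32X} |∑_{s ∈ S} D (N-s)|^2 ≤ 2 Bd/(2H) |S| ≤ 128 X H^2/l^A`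
`≤ (ε/9) (X/W) (c σ/L)^2 (H/L^K)^2` for large `X`. x2: `mtT` with `Z = X + H`, `J = X - H ≥ X/2`, `ε/72` (`(L/2)^g ≤ ⌊l^g⌋ ≤ (2L)^g`, see WL/Bl), `(σ/l)^2 ≤ 4 (σ/L)^2`. x3: `|1/l - 1/L| ≤ ε'/L` for large `X`, at most `X/W + 1 ≤ 2X/W` numbers `N`, `|Sa|^2 ≤ (|Sa| + H/L^K)^2`.
-/

set_option autoImplicit false

open Finset

namespace Pool.Agent.Lib.WT

open Pool.Agent.Lib.SW (WX cX Sa)
open Pool.Agent.Lib.WL (wnd)
open Pool.Agent.Lib.T8 (FZ)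
open Pool.Agent.Lib.G8 (RgL sL)

open Pool.Agent.Lib.SW (cX_le_log)
open Pool.Agent.Lib.T8 (rZ platZ varZ FZ_le rZ_le)
open Pool.Agent.Lib.VKT (ram)
open Pool.Agent.Lib.G3 (VV)
open Pool.Agent.Lib.G9 (parsW)

private theorem sc_wnd (Z H W a : ℕ) (hW : 0 < W) : ((wnd Z H W a).card : ℝ) ≤ H / W + 1 := by
  have h1 := Nat.Ioc_filter_modEq_card Z (Z + H) hW a
  have h2 : (((wnd Z H W a).card : ℤ) : ℚ) ≤ (H : ℚ) / W + 1 := by
    unfold wnd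
    rw [h1]
    rcases le_total (⌊(((Z + H : ℕ) : ℚ) - a) / W⌋ - ⌊((Z : ℚ) - a) / W⌋) 0 with h | h
    · rw [max_eq_right h]
      push_cast
      positivity
    · rw [max_eq_left h]
      push_cast
      have f1 := Int.floor_le (((Z : ℚ) + H - a) / W)
      have f2 := Int.sub_one_lt_floor (((Z : ℚ) - a) / W)
      have f3 : ((Z : ℚ) + H - a) / W = ((Z : ℚ) - a) / W + H / W := by ring
      rw [f3] at f1
      rw [f3]
      linarith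
  have h3 : (((wnd Z H W a).card : ℕ) : ℚ) ≤ (H : ℚ) / W + 1 := by exact_mod_cast h2
  have h4 : (((((wnd Z H W a).card : ℕ) : ℚ)) : ℝ) ≤ (((H : ℚ) / W + 1 : ℚ) : ℝ) := Rat.cast_le.2 h3
  push_cast at h4
  exact h4

private theorem sc_three (x y z : ℝ) : (x + y + z) ^ 2 ≤ 3 * (x ^ 2 + y ^ 2 + z ^ 2) := by
  nlinarith [sq_nonneg (x - y), sq_nonneg (y - z), sq_nonneg (x - z)]

/-- large `X` -/
private theorem sc_large (c6 : ℕ) (M δ κ : ℝ) (hδ : 0 < δ) : ∃ X0 : ℕ, ∀ X : ℕ, X0 ≤ X →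
    4 ≤ Real.log X ∧ M ≤ X ∧ Real.log 32 ≤ δ * Real.log X ∧ (2 : ℝ) ^ c6 ≤ Real.log X ∧ κ ≤ Real.log X := by
  have hL : Filter.Tendsto (fun X : ℕ => Real.log (X : ℝ)) Filter.atTop Filter.atTop :=
    Real.tendsto_log_atTop.comp tendsto_natCast_atTop_atTop
  have e1 := hL.eventually_ge_atTop (4 : ℝ)
  have e2 := (tendsto_natCast_atTop_atTop (R := ℝ)).eventually_ge_atTop M
  have e3 := hL.eventually_ge_atTop (Real.log 32 / δ)
  have e4 := hL.eventually_ge_atTop ((2 : ℝ) ^ c6)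
  have e5 := hL.eventually_ge_atTop κ
  obtain ⟨X0, hX0⟩ := Filter.eventually_atTop.1 ((((e1.and e2).and e3).and e4).and e5)
  exact ⟨X0, fun X hX => by
    have := hX0 X hX
    have h3 := this.1.1.2
    rw [div_le_iff₀ hδ] at h3
    exact ⟨this.1.1.1.1, this.1.1.1.2, by linarith, this.1.2, this.2⟩⟩

/-- the first part -/
private theorem sc_one {H T : ℕ} {V : ℝ} (D : ℕ → ℝ) (hH : 1 ≤ H) (hD : ∀ n, D n ≠ 0 → 1 ≤ n ∧ n + 2 * H ≤ T)
    (hV : ∀ α : ℝ, VV (fun n => ((D n : ℝ) : ℂ)) (2 * H) α T ≤ V) (hV0 : 0 ≤ V) (S : Finset ℕ) (hS : S ⊆ Icc 1 H) :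
    ∑ N ∈ range T, (∑ s ∈ S, D (N - s)) ^ 2 ≤ V := by
  classical
  have hp := parsW (H := H) (H' := 2 * H) (T := T) (Bd := V) (fun n => ((D n : ℝ) : ℂ)) (fun n => if n ∈ S then 1 else 0) hH le_rfl
    (fun n hn => hD n (fun h => hn (by simp [h]))) hV
  have hHr : (0 : ℝ) < H := by exact_mod_cast hH
  have h1 : ∑ h ∈ Icc 1 H, ‖(if h ∈ S then (1 : ℂ) else 0)‖ ^ 2 ≤ H := by
    calc ∑ h ∈ Icc 1 H, ‖(if h ∈ S then (1 : ℂ) else 0)‖ ^ 2 ≤ ∑ h ∈ Icc 1 H, (1 : ℝ) := by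
          refine sum_le_sum fun h _ => ?_
          split_ifs <;> simp
      _ = H := by
          rw [sum_const, Nat.card_Icc, nsmul_eq_mul]
          simp
  have h2 : ∀ N, ‖∑ h ∈ Icc 1 H, (if h ∈ S then (1 : ℂ) else 0) * ((D (N - h) : ℝ) : ℂ)‖ ^ 2 = (∑ s ∈ S, D (N - s)) ^ 2 := by
    intro N
    have h3 : ∑ h ∈ Icc 1 H, (if h ∈ S then (1 : ℂ) else 0) * ((D (N - h) : ℝ) : ℂ) = ((∑ s ∈ S, D (N - s) : ℝ) : ℂ) := by
      simp only [ite_mul, one_mul, zero_mul]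
      rw [sum_ite_mem, inter_eq_right.2 hS]
      push_cast
      rfl
    rw [h3, Complex.norm_real, Real.norm_eq_abs, sq_abs]
  calc ∑ N ∈ range T, (∑ s ∈ S, D (N - s)) ^ 2
      = ∑ N ∈ range T, ‖∑ h ∈ Icc 1 H, (if h ∈ S then (1 : ℂ) else 0) * ((D (N - h) : ℝ) : ℂ)‖ ^ 2 :=
        sum_congr rfl fun N _ => (h2 N).symm
    _ ≤ 2 * V / (2 * H : ℕ) * ∑ h ∈ Icc 1 H, ‖(if h ∈ S then (1 : ℂ) else 0)‖ ^ 2 := hp
    _ ≤ 2 * V / (2 * H : ℕ) * H := by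
        refine mul_le_mul_of_nonneg_left h1 ?_
        positivity
    _ = V := by
        push_cast
        field_simp

theorem scT (K Kk B : ℕ) : ∃ a1 : ℕ, ∀ c1 : ℕ, a1 ≤ c1 → ∃ C : ℕ, ∀ ε : ℝ, 0 < ε → ∃ X0 : ℕ, ∀ (X H a k U w' : ℕ) (T : Finset ℕ),
    X0 ≤ X → 2 ≤ k → k ≤ Kk → RgL (4 * X) U w' (c1 + 1) (1000 * Kk) T → 1 / (Real.log X) ^ B ≤ sL k U T → 1 ≤ w' →
      (w' : ℝ) * (Real.log X) ^ C ≤ H → H * H ≤ X → ∀ S : Finset ℕ, S ⊆ Icc 1 H →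
        ∑ N ∈ wnd (X + H) (X - H) (WX X) a, (∑ s ∈ S, FZ X k U T (N - s) - cX X * (Sa (WX X) S a).card * (sL k U T / Real.log X)) ^ 2 ≤
          ε * (X / WX X) * (cX X * (sL k U T / Real.log X)) ^ 2 * (((Sa (WX X) S a).card : ℝ) + H / (Real.log X) ^ K) ^ 2 := by
  obtain ⟨g0, hmt⟩ := mtT K
  obtain ⟨g, hg, a1, hva⟩ := varZ Kk (2 * K + 2 * B + 8) (max g0 1)
  have hg0 : g0 ≤ g := (le_max_left _ _).trans hg
  have hg1 : 1 ≤ g := (le_max_right _ _).trans hg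
  obtain ⟨C', hC'⟩ := hmt g hg0
  refine ⟨a1, fun c1 hc1 => ?_⟩
  obtain ⟨c6, -, x0, hva1⟩ := hva c1 hc1
  obtain ⟨x1, hpl⟩ := platZ Kk (c1 + 1)
  obtain ⟨x2, hFl⟩ := FZ_le Kk (c1 + 1)
  obtain ⟨x3, hrl⟩ := rZ_le Kk (c1 + 1)
  refine ⟨max C' (c6 + 1) + 2, fun ε hε => ?_⟩
  obtain ⟨X1, hmt1⟩ := hC' (ε / 36) (by positivity)
  obtain ⟨X2, hW2⟩ := cX_le_log
  obtain ⟨δ, hδ⟩ : ∃ δ : ℝ, δ = min (1 / 4) (√(ε / 72)) := ⟨_, rfl⟩
  have hδ0 : 0 < δ := by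
    rw [hδ]
    exact lt_min (by norm_num) (Real.sqrt_pos.2 (by positivity))
  have hδ4 : δ ≤ 1 / 4 := hδ ▸ min_le_left _ _
  have hδε : δ ^ 2 ≤ ε / 72 := by
    have h1 : δ ≤ √(ε / 72) := hδ ▸ min_le_right _ _
    calc δ ^ 2 ≤ √(ε / 72) ^ 2 := pow_le_pow_left₀ hδ0.le h1 2
      _ = ε / 72 := Real.sq_sqrt (by positivity)
  obtain ⟨X3, hX3⟩ := sc_large c6 (max (max x0 x1) (max (max x2 x3) 1)) δ
    (9 * (256 * 2 ^ (2 * K + 2 * B + 8)) / ε) hδ0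
  refine ⟨max (max X1 X2) X3, ?_⟩
  intro X H a k U w' T hX hk2 hkK hR hσB hw1 hH hHX S hS
  have hXX1 : X1 ≤ X := (le_trans (le_max_left _ _) (le_max_left _ _)).trans hX
  have hXX2 : X2 ≤ X := (le_trans (le_max_right _ _) (le_max_left _ _)).trans hX
  have hXX3 : X3 ≤ X := (le_max_right _ _).trans hX
  obtain ⟨hL4, hM, hll, hc6, hκ⟩ := hX3 X hXX3
  obtain ⟨hcL, hWL⟩ := hW2 X hXX2
  simp only [max_le_iff] at hM
  obtain ⟨⟨hYx0, hYx1⟩, ⟨hYx2, hYx3⟩, hX1⟩ := hM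
  obtain ⟨L, hL⟩ : ∃ L, L = Real.log (X : ℝ) := ⟨_, rfl⟩
  rw [← hL] at hL4 hll hc6 hκ hcL hWL hσB hH ⊢
  obtain ⟨l, hl⟩ : ∃ l, l = Real.log ((32 * X : ℕ) : ℝ) := ⟨_, rfl⟩
  have hL0 : 0 < L := by linarith
  have hX0 : (0 : ℝ) < X := by linarith
  -- the two logarithms
  have hle : l = Real.log 32 + L := by
    rw [hl, hL]
    push_cast
    rw [Real.log_mul (by norm_num) hX0.ne']
  have hlog32 : 0 < Real.log 32 := Real.log_pos (by norm_num)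
  have hδL : δ * L ≤ 1 / 4 * L := mul_le_mul_of_nonneg_right hδ4 hL0.le
  have hl34 : 3 / 4 * L ≤ l := by linarith
  have hl2 : l ≤ 2 * L := by linarith
  have hl0 : 0 < l := by linarith
  have hLl : L ≤ 2 * l := by linarith
  have hlL : |L - l| ≤ δ * L := by
    rw [abs_le]
    constructor <;> linarith
  -- the modulus
  obtain ⟨W, hW⟩ : ∃ W : ℕ, W = WX X := ⟨_, rfl⟩
  have hWp : 0 < W := hW ▸ Pool.Agent.Lib.SW.WX_pos X
  rw [← hW] at hWL ⊢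
  have hW0 : (0 : ℝ) < W := by exact_mod_cast hWp
  obtain ⟨c, hc⟩ : ∃ c, c = cX X := ⟨_, rfl⟩
  have hc1' : 1 ≤ c := hc ▸ Pool.Agent.Lib.SW.one_le_cX X
  rw [← hc]
  obtain ⟨σ, hσ⟩ : ∃ σ, σ = sL k U T := ⟨_, rfl⟩
  rw [← hσ] at hσB ⊢
  have hσ0 : 0 < σ := lt_of_lt_of_le (by positivity) hσB
  obtain ⟨s1, hs1⟩ : ∃ s1 : ℝ, s1 = ((Sa W S a).card : ℝ) := ⟨_, rfl⟩
  have hs10 : 0 ≤ s1 := hs1 ▸ Nat.cast_nonneg _
  rw [← hs1]
  -- sizes of `H`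
  have hHC : L ^ (max C' (c6 + 1) + 2) ≤ (H : ℝ) := by
    refine le_trans ?_ hH
    have : (1 : ℝ) ≤ w' := by exact_mod_cast hw1
    exact le_mul_of_one_le_left (by positivity) this
  have hL1 : 1 ≤ L := by linarith
  have hHC' : L ^ C' ≤ (H : ℝ) :=
    (pow_le_pow_right₀ hL1 (le_trans (le_max_left C' (c6 + 1)) (Nat.le_add_right _ 2))).trans hHC
  have hH4 : (2 : ℝ) ≤ (H : ℝ) := by
    refine le_trans ?_ ((pow_le_pow_right₀ hL1 (by omega : 1 ≤ max C' (c6 + 1) + 2)).trans hHC)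
    rw [pow_one]
    linarith
  have hH0 : (0 : ℝ) < H := by linarith
  have hHp : 1 ≤ H := by exact_mod_cast hH0
  have hH2 : 2 ≤ H := by exact_mod_cast hH4
  have hHX2 : 2 * H ≤ X := (Nat.mul_le_mul_right H hH2).trans hHX
  have hHW : (W : ℝ) ≤ H := by
    refine hWL.trans ((pow_le_pow_right₀ hL1 ?_).trans hHC)
    omega
  have hH6 : (w' : ℝ) * (Real.log ((32 * X : ℕ) : ℝ)) ^ c6 ≤ ((2 * H : ℕ) : ℝ) := by
    rw [← hl]
    refine le_trans ?_ (hH.trans (by push_cast; linarith))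
    apply mul_le_mul_of_nonneg_left _ (Nat.cast_nonneg w')
    calc l ^ c6 ≤ (2 * L) ^ c6 := pow_le_pow_left₀ hl0.le hl2 c6
      _ = 2 ^ c6 * L ^ c6 := mul_pow _ _ _
      _ ≤ L * L ^ c6 := by gcongr
      _ = L ^ (c6 + 1) := by ring
      _ ≤ L ^ (max C' (c6 + 1) + 2) :=
          pow_le_pow_right₀ hL1 (le_trans (le_max_right C' (c6 + 1)) (Nat.le_add_right _ 2))
  obtain ⟨XK, hXK⟩ : ∃ XK, XK = (H : ℝ) / L ^ K := ⟨_, rfl⟩
  have hXK0 : 0 < XK := hXK ▸ div_pos hH0 (by positivity)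
  rw [← hXK]
  -- the level
  obtain ⟨Q, hQ⟩ : ∃ Q : ℕ, Q = ⌊l ^ g⌋₊ := ⟨_, rfl⟩
  have hQup : (Q : ℝ) ≤ (2 * L) ^ g := by
    rw [hQ]
    exact (Nat.floor_le (by positivity)).trans (pow_le_pow_left₀ hl0.le hl2 g)
  have hQlo : (L / 2) ^ g ≤ (Q : ℝ) := by
    have h1 : l ^ g - 1 < (Q : ℝ) := by
      rw [hQ]
      exact Nat.sub_one_lt_floor _
    have h2 : (3 / 4 * L) ^ g ≤ l ^ g := pow_le_pow_left₀ (by positivity) hl34 g
    have h3 : (3 / 4 * L) ^ g = (3 / 2) ^ g * (L / 2) ^ g := by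
      rw [← mul_pow]
      congr 1
      ring
    have h4 : (3 / 2 : ℝ) ≤ (3 / 2) ^ g := by
      calc (3 / 2 : ℝ) = (3 / 2) ^ 1 := by norm_num
        _ ≤ _ := pow_le_pow_right₀ (by norm_num) hg1
    have h5 : (2 : ℝ) ≤ (L / 2) ^ g := by
      calc (2 : ℝ) ≤ (L / 2) ^ 1 := by rw [pow_one]; linarith
        _ ≤ _ := pow_le_pow_right₀ (by linarith) hg1
    have h6 : (3 / 2 : ℝ) * (L / 2) ^ g ≤ (3 / 2) ^ g * (L / 2) ^ g :=
      mul_le_mul_of_nonneg_right h4 (by positivity)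
    rw [h3] at h2
    linarith
  -- the three parts
  obtain ⟨D1, hD1⟩ : ∃ D1 : ℕ → ℝ, ∀ n, D1 n = FZ X k U T n - rZ X k U T n * ram Q n := ⟨_, fun _ => rfl⟩
  obtain ⟨Q1, hQ1⟩ : ∃ x : ℕ → ℝ, ∀ N, x N = ∑ s ∈ S, D1 (N - s) := ⟨_, fun _ => rfl⟩
  obtain ⟨Q2, hQ2⟩ : ∃ x : ℕ → ℝ, ∀ N, x N = ∑ s ∈ S, ram Q (N - s) - c * s1 := ⟨_, fun _ => rfl⟩
  have hIoc : ∀ N ∈ wnd (X + H) (X - H) W a, X + H < N ∧ N ≤ 2 * X := by
    intro N hN
    have hN1 := mem_Ioc.1 (mem_filter.1 hN).1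
    omega
  have hdec : ∀ N ∈ wnd (X + H) (X - H) W a, ∑ s ∈ S, FZ X k U T (N - s) - c * s1 * (σ / L) =
      Q1 N + σ / l * Q2 N + c * s1 * σ * (1 / l - 1 / L) := by
    intro N hN
    have hN1 := hIoc N hN
    have h1 : ∑ s ∈ S, FZ X k U T (N - s) = Q1 N + σ / l * ∑ s ∈ S, ram Q (N - s) := by
      rw [hQ1, mul_sum, ← sum_add_distrib]
      refine sum_congr rfl fun s hs => ?_
      have hsZ := (mem_Icc.1 (hS hs)).2
      have hp := hpl X hYx1 U w' T hR k hk2 hkK (N - s) (by omega) (by omega)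
      rw [hD1, hp, ← hσ, ← hl]
      ring
    rw [h1, hQ2]
    field_simp
    ring
  have hS1 : ∑ N ∈ wnd (X + H) (X - H) W a, (∑ s ∈ S, FZ X k U T (N - s) - c * s1 * (σ / L)) ^ 2 ≤
      3 * (∑ N ∈ wnd (X + H) (X - H) W a, Q1 N ^ 2 + (σ / l) ^ 2 * ∑ N ∈ wnd (X + H) (X - H) W a, Q2 N ^ 2 +
        ((wnd (X + H) (X - H) W a).card : ℝ) * (c * s1 * σ * (1 / l - 1 / L)) ^ 2) := by
    calc ∑ N ∈ wnd (X + H) (X - H) W a, (∑ s ∈ S, FZ X k U T (N - s) - c * s1 * (σ / L)) ^ 2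
        ≤ ∑ N ∈ wnd (X + H) (X - H) W a, 3 * (Q1 N ^ 2 + (σ / l * Q2 N) ^ 2 + (c * s1 * σ * (1 / l - 1 / L)) ^ 2) := by
          refine sum_le_sum fun N hN => ?_
          rw [hdec N hN]
          exact sc_three _ _ _
      _ = _ := by
          rw [← mul_sum, sum_add_distrib, sum_add_distrib, sum_const, nsmul_eq_mul, mul_sum]
          congr 2
          congr 1
          exact sum_congr rfl fun N _ => by ring
  obtain ⟨P, hP⟩ : ∃ P, P = (X / W : ℝ) * (c * (σ / L)) ^ 2 * (s1 + XK) ^ 2 := ⟨_, rfl⟩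
  have hP0 : 0 ≤ P := hP ▸ by positivity
  -- first part
  have hT1 : ∑ N ∈ wnd (X + H) (X - H) W a, Q1 N ^ 2 ≤ ε / 9 * P := by
    obtain ⟨V, hV⟩ : ∃ V, V = 1 / l ^ (2 * K + 2 * B + 8) * ((32 * X : ℕ) : ℝ) * (((2 * H : ℕ) : ℝ)) ^ 2 := ⟨_, rfl⟩
    have hV0 : 0 ≤ V := hV ▸ by positivity
    have hVV : ∀ α : ℝ, VV (fun n => ((D1 n : ℝ) : ℂ)) (2 * H) α (32 * X + 2 * H + 1) ≤ V := by
      intro α
      have h1 := hva1 X hYx0 k U w' T hk2 hkK hR (2 * H) hH6 α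
      have h2 : (fun n => ((D1 n : ℝ) : ℂ)) = fun n => ((FZ X k U T n : ℝ) : ℂ) - ((rZ X k U T n * ram Q n : ℝ) : ℂ) := by
        funext n
        rw [hD1]
        push_cast
        ring
      rw [h2, hV, hQ, hl]
      exact h1
    have hDs : ∀ n, D1 n ≠ 0 → 1 ≤ n ∧ n + 2 * H ≤ 32 * X + 2 * H + 1 := by
      intro n hn
      have h1 := (hFl X hYx2 U w' T hR k hk2 hkK n).2.2
      have h2 := (hrl X hYx3 U w' T hR k hk2 hkK n).2.2
      by_cases hf : FZ X k U T n = 0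
      · have hr : rZ X k U T n ≠ 0 := by
          intro hr
          apply hn
          rw [hD1, hf, hr]
          simp
        have := h2 hr
        exact ⟨this.1, by omega⟩
      · have := h1 hf
        exact ⟨this.1, by omega⟩
    have h2 := sc_one D1 hHp hDs hVV hV0 S hS
    simp only [← hQ1] at h2
    have h1 : ∑ N ∈ wnd (X + H) (X - H) W a, Q1 N ^ 2 ≤ ∑ N ∈ range (32 * X + 2 * H + 1), Q1 N ^ 2 := by
      refine sum_le_sum_of_subset_of_nonneg (fun N hN => ?_) fun _ _ _ => sq_nonneg _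
      have := hIoc N hN
      rw [mem_range]
      omega
    obtain ⟨D, hD⟩ : ∃ D, D = L ^ (2 * K + 2 * B + 4) := ⟨_, rfl⟩
    have hD0 : 0 < D := hD ▸ by positivity
    have h5 : D * L ^ 4 ≤ 2 ^ (2 * K + 2 * B + 8) * l ^ (2 * K + 2 * B + 8) := by
      calc D * L ^ 4 = L ^ (2 * K + 2 * B + 8) := by rw [hD]; ring
        _ ≤ (2 * l) ^ (2 * K + 2 * B + 8) := pow_le_pow_left₀ hL0.le (by linarith) _
        _ = _ := mul_pow _ _ _
    have h6 : 256 * 2 ^ (2 * K + 2 * B + 8) ≤ ε / 9 * L ^ 4 := by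
      have h7 : 9 * (256 * 2 ^ (2 * K + 2 * B + 8)) ≤ L * ε := by
        rwa [div_le_iff₀ hε] at hκ
      have h8 : L ≤ L ^ 4 := le_self_pow₀ hL1 (by norm_num)
      have h10 := mul_le_mul_of_nonneg_left h8 hε.le
      linarith
    have h9 : (X : ℝ) * (H : ℝ) ^ 2 / D ≤ P := by
      have i1 : (X : ℝ) / L ^ 2 ≤ X / W := div_le_div_of_nonneg_left hX0.le hW0 hWL
      have i2 : 1 / L ^ B / L ≤ c * (σ / L) := by
        have j1 : 1 / L ^ B / L ≤ σ / L := div_le_div_of_nonneg_right hσB hL0.le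
        have j2 : σ / L ≤ c * (σ / L) := le_mul_of_one_le_left (by positivity) hc1'
        exact j1.trans j2
      have i3 : XK ≤ s1 + XK := by linarith
      calc (X : ℝ) * (H : ℝ) ^ 2 / D = (X / L ^ 2) * (1 / L ^ B / L) ^ 2 * XK ^ 2 := by
            rw [hD, hXK]
            field_simp
            ring
        _ ≤ (X / W : ℝ) * (c * (σ / L)) ^ 2 * (s1 + XK) ^ 2 := by gcongr
        _ = P := hP.symm
    calc ∑ N ∈ wnd (X + H) (X - H) W a, Q1 N ^ 2 ≤ V := h1.trans h2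
      _ ≤ 256 * ((X : ℝ) * (H : ℝ) ^ 2) / l ^ (2 * K + 2 * B + 8) := by
          rw [hV]
          push_cast
          rw [one_div_mul_eq_div, div_mul_eq_mul_div]
          apply div_le_div_of_nonneg_right _ (by positivity)
          have : 0 ≤ (X : ℝ) * (H : ℝ) ^ 2 := by positivity
          nlinarith
      _ ≤ ε / 9 * ((X : ℝ) * (H : ℝ) ^ 2 / D) := by
          rw [mul_div_assoc', div_le_div_iff₀ (by positivity) hD0]
          have k2 : 256 * D * L ^ 4 ≤ ε / 9 * L ^ 4 * l ^ (2 * K + 2 * B + 8) := by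
            calc 256 * D * L ^ 4 ≤ 256 * 2 ^ (2 * K + 2 * B + 8) * l ^ (2 * K + 2 * B + 8) := by linarith
              _ ≤ ε / 9 * L ^ 4 * l ^ (2 * K + 2 * B + 8) := by gcongr
          have k3 : 256 * D ≤ ε / 9 * l ^ (2 * K + 2 * B + 8) := by
            have : 0 < L ^ 4 := by positivity
            refine le_of_mul_le_mul_right ?_ this
            linarith
          calc 256 * ((X : ℝ) * (H : ℝ) ^ 2) * D = (X : ℝ) * (H : ℝ) ^ 2 * (256 * D) := by ring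
            _ ≤ (X : ℝ) * (H : ℝ) ^ 2 * (ε / 9 * l ^ (2 * K + 2 * B + 8)) := by gcongr
            _ = _ := by ring
      _ ≤ ε / 9 * P := by gcongr
  have hJX : ((X - H : ℕ) : ℝ) ≤ X := by exact_mod_cast Nat.sub_le X H
  have hJH : (H : ℝ) ≤ ((X - H : ℕ) : ℝ) := by exact_mod_cast (by omega : H ≤ X - H)
  -- second part
  have hT2 : (σ / l) ^ 2 * ∑ N ∈ wnd (X + H) (X - H) W a, Q2 N ^ 2 ≤ ε / 9 * P := by
    have h1 := hmt1 X Q (X + H) (X - H) H a hXX1 (by rw [← hL]; exact hQlo) (by rw [← hL]; exact hQup)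
      (by rw [← hL]; exact hHC'.trans hJH) (by rw [← hL]; exact hHC') (by omega) S hS
    rw [← hL, ← hW, ← hc, ← hs1, ← hXK] at h1
    simp only [← hQ2] at h1
    have h11 : ε / 36 * (((X - H : ℕ) : ℝ) / W) * c ^ 2 * (s1 + XK) ^ 2 ≤ ε / 36 * (X / W) * c ^ 2 * (s1 + XK) ^ 2 := by
      gcongr
    have h2 : (σ / l) ^ 2 ≤ 4 * (σ / L) ^ 2 := by
      have h3 : σ / l ≤ 2 * (σ / L) := by
        rw [mul_div_assoc', div_le_div_iff₀ hl0 hL0]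
        have h10 := mul_le_mul_of_nonneg_left hLl hσ0.le
        linarith
      calc (σ / l) ^ 2 ≤ (2 * (σ / L)) ^ 2 := pow_le_pow_left₀ (by positivity) h3 2
        _ = _ := by ring
    calc (σ / l) ^ 2 * ∑ N ∈ wnd (X + H) (X - H) W a, Q2 N ^ 2
        ≤ (4 * (σ / L) ^ 2) * (ε / 36 * (X / W) * c ^ 2 * (s1 + XK) ^ 2) :=
          mul_le_mul h2 (h1.trans h11) (sum_nonneg fun _ _ => sq_nonneg _) (by positivity)
      _ = ε / 9 * P := by rw [hP]; ring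
  -- third part
  have hT3 : ((wnd (X + H) (X - H) W a).card : ℝ) * (c * s1 * σ * (1 / l - 1 / L)) ^ 2 ≤ ε / 9 * P := by
    have h1 : ((wnd (X + H) (X - H) W a).card : ℝ) ≤ 2 * (X / W) := by
      have h2 := sc_wnd (X + H) (X - H) W a hWp
      have h3 : (1 : ℝ) ≤ X / W := by
        rw [le_div_iff₀ hW0, one_mul]
        linarith
      have h4 : ((X - H : ℕ) : ℝ) / W ≤ X / W := div_le_div_of_nonneg_right hJX hW0.le
      linarith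
    have h4 : (1 / l - 1 / L) ^ 2 ≤ (2 * δ / L) ^ 2 := by
      rw [← sq_abs (1 / l - 1 / L)]
      apply pow_le_pow_left₀ (abs_nonneg _)
      have h5 : 1 / l - 1 / L = (L - l) / (l * L) := by field_simp
      rw [h5, abs_div, abs_of_pos (mul_pos hl0 hL0), div_le_div_iff₀ (by positivity) hL0]
      have h6 : δ * L * L ≤ 2 * δ * (l * L) := by
        calc δ * L * L = (δ * L) * L := by ring
          _ ≤ (δ * L) * (2 * l) := mul_le_mul_of_nonneg_left hLl (by positivity)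
          _ = _ := by ring
      calc |L - l| * L ≤ δ * L * L := by gcongr
        _ ≤ _ := h6
    have h7 : s1 ^ 2 ≤ (s1 + XK) ^ 2 := pow_le_pow_left₀ hs10 (by linarith) 2
    calc ((wnd (X + H) (X - H) W a).card : ℝ) * (c * s1 * σ * (1 / l - 1 / L)) ^ 2
        = ((wnd (X + H) (X - H) W a).card : ℝ) * ((c * σ) ^ 2 * s1 ^ 2 * (1 / l - 1 / L) ^ 2) := by ring
      _ ≤ (2 * (X / W)) * ((c * σ) ^ 2 * (s1 + XK) ^ 2 * (2 * δ / L) ^ 2) := by gcongr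
      _ = 8 * δ ^ 2 * P := by
          rw [hP]
          field_simp
          ring
      _ ≤ 8 * (ε / 72) * P := by gcongr
      _ = ε / 9 * P := by ring
  calc ∑ N ∈ wnd (X + H) (X - H) W a, (∑ s ∈ S, FZ X k U T (N - s) - c * s1 * (σ / L)) ^ 2
      ≤ 3 * (ε / 9 * P + ε / 9 * P + ε / 9 * P) := hS1.trans (by linarith)
    _ = ε * P := by ring
    _ = ε * (X / W) * (c * (σ / L)) ^ 2 * (s1 + XK) ^ 2 := by rw [hP]; ring

end Pool.Agent.Lib.WT
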