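import Pool.Agent.Lib.WT.Sc
import Pool.Agent.Lib.WL.Pt

/-!
# WT, row TL: `tyT` in mean (copy of WT/Ty.lean; compare WL/TL.lean)

PROOF IN WORDS. As WT/Ty.lean (read its proof words), only the last step changes; `C = max C' (K + B + 4)`, `δ = min ε 1/32`. For `N` in `wnd (X + H) (X - H) W a`: `(1-δ) E ≤ Φ ≤ E`, `x = |Φ - c A σ/L|`: `Φ ≤ x + c A σ/L`, `|E - c A σ/L| ≤ (1 + 2δ) x + 2δ c A σ/L ≤ 2x + 2δ c m σ/L`. Sum over the at most `X/W + 1 ≤ 2X/W` numbers; `∑ x ≤ (J ∑ x^2)^(1/2)`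
and `scT` with `ε'' = δ^2`: `∑ x^2 ≤ ε'' (X/W) (c σ/L)^2 4 m^2`, so `∑ x ≤ 3 δ (X/W) c m σ/L`. The other `N`, in `(X, X + H]`, are at most `H/W + 1 ≤ 2H/W` (`W ≤ H`) and contribute at most `|S| + c |S| σ/L ≤ 2 H L` each (`σ ≤ L`, any crude bound will do), in total `≤ 4 H^2 L/W ≤ 4 X L/W`; better: `≤ δ (X/W) (H/L^K) σ/L` needs `4 H^2 L ≤ δ X H/L^(K+B+1)`:
use `H^2 ≤ X` and `H ≥ L^(K+B+4)`: `H^2 L^(K+B+2) 4/δ ≤ X H`. Total `≤ ε (X/W) c m σ/L`. (If `σ ≤ L` is not at hand: `c |Sa| σ/L ≤ c m σ/L` for each of these at most `2H/W` numbers, and `2H ≤ δ X`.)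
-/

set_option autoImplicit false

open Finset

namespace Pool.Agent.Lib.WT

open Pool.Agent.Lib.SW (WX cX Sa)
open Pool.Agent.Lib.WL (wnd cE)
open Pool.Agent.Lib.G8 (RgL sL)

private theorem ty_large (n : ℕ) (L0 : ℝ) : ∃ X0 : ℕ, ∀ X : ℕ, X0 ≤ X → L0 ≤ Real.log X ∧ (Real.log X) ^ n ≤ X ∧ 1 ≤ X := by
  have h1 := (Real.isLittleO_pow_log_id_atTop (n := n)).def (one_pos : (0 : ℝ) < 1)
  have h2 := Real.tendsto_log_atTop.eventually_ge_atTop (max L0 0)
  obtain ⟨x0, hx0⟩ := Filter.eventually_atTop.1 (h1.and (h2.and (Filter.eventually_ge_atTop 1)))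
  obtain ⟨X0, hX0⟩ := exists_nat_ge x0
  refine ⟨X0, fun X hX => ?_⟩
  obtain ⟨a1, a2, a3⟩ := hx0 X (hX0.trans (by exact_mod_cast hX))
  have a4 : 0 ≤ Real.log X := (le_max_right _ _).trans a2
  rw [Real.norm_of_nonneg (pow_nonneg a4 n), id, Real.norm_of_nonneg (by linarith), one_mul] at a1
  exact ⟨(le_max_left _ _).trans a2, a1, by exact_mod_cast a3⟩

/-- the number of the `N` in a class and in an interval -/
private theorem ty_few (X H W a : ℕ) (hW : 0 < W) :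
    (((Ioc X (X + H)).filter fun N => N ≡ a [MOD W]).card : ℝ) ≤ (H : ℝ) / W + 2 := by
  classical
  have h1 : ((Ioc X (X + H)).filter fun N => N ≡ a [MOD W]).card ≤ (Icc (X / W) ((X + H) / W)).card := by
    refine card_le_card_of_injOn (fun N => N / W) ?_ ?_
    · intro N hN
      rw [mem_coe, mem_filter, mem_Ioc] at hN
      rw [mem_coe, mem_Icc]
      exact ⟨Nat.div_le_div_right hN.1.1.le, Nat.div_le_div_right hN.1.2⟩
    · intro N hN N' hN' h
      rw [mem_coe, mem_filter] at hN hN'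
      have h2 : N % W = N' % W := hN.2.trans hN'.2.symm
      have h3 := Nat.div_add_mod N W
      have h4 := Nat.div_add_mod N' W
      simp only at h
      rw [← h3, ← h4, h, h2]
  rw [Nat.card_Icc] at h1
  have h2 : (X + H) / W ≤ X / W + H / W + 1 := by
    rw [← Nat.lt_succ_iff, Nat.div_lt_iff_lt_mul hW]
    have h3 := Nat.div_add_mod X W
    have h4 := Nat.div_add_mod H W
    have h5 := Nat.mod_lt X hW
    have h6 := Nat.mod_lt H hW
    nlinarith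
  have h0 := Nat.zero_le (H / W)
  have h3 : ((Ioc X (X + H)).filter fun N => N ≡ a [MOD W]).card ≤ H / W + 2 := by omega
  have h4 : ((H / W : ℕ) : ℝ) ≤ (H : ℝ) / W := Nat.cast_div_le
  calc (((Ioc X (X + H)).filter fun N => N ≡ a [MOD W]).card : ℝ) ≤ ((H / W + 2 : ℕ) : ℝ) := by exact_mod_cast h3
    _ = ((H / W : ℕ) : ℝ) + 2 := by push_cast; ring
    _ ≤ _ := by linarith

/-- the arithmetic of the comparison -/
private theorem tl_arith {δ E Φ y G : ℝ} (hδ0 : 0 < δ) (hδ : δ ≤ 1 / 16) (hE : 0 ≤ E) (h1 : (1 - δ) * E ≤ Φ)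
    (h2 : Φ ≤ E) (hy : 0 ≤ y) (hyG : y ≤ G) : |E - y| ≤ 2 * |Φ - y| + 2 * δ * G := by
  have hx0 := abs_nonneg (Φ - y)
  obtain ⟨x1, x2⟩ := abs_le.1 (le_refl |Φ - y|)
  obtain ⟨x, hx⟩ : ∃ x, x = |Φ - y| := ⟨_, rfl⟩
  rw [← hx] at hx0 x1 x2 ⊢
  have hG : 0 ≤ G := hy.trans hyG
  rw [abs_le]
  constructor
  · have : 0 ≤ 2 * δ * G := by positivity
    linarith
  · have q2 : E ≤ (1 + 2 * δ) * ((1 - δ) * E) := by nlinarith [mul_nonneg hδ0.le hE]
    have q3 : E ≤ (1 + 2 * δ) * (y + x) := q2.trans (mul_le_mul_of_nonneg_left (by linarith) (by linarith))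
    have q4 : (1 + 2 * δ) * (y + x) ≤ y + 2 * δ * G + 2 * x := by
      nlinarith [mul_nonneg hδ0.le hx0, mul_le_mul_of_nonneg_left hyG hδ0.le]
    linarith

/-- the mean from the mean square -/
private theorem tl_mean (F : Finset ℕ) (x : ℕ → ℝ) (t n : ℝ) (ht : 0 < t) (hF : (F.card : ℝ) ≤ 2 * n)
    (h : ∑ N ∈ F, x N ^ 2 ≤ 4 * n * t ^ 2) : ∑ N ∈ F, x N ≤ 3 * n * t := by
  have h1 : ∀ N ∈ F, x N * (2 * t) ≤ x N ^ 2 + t ^ 2 := fun N _ => by nlinarith [sq_nonneg (x N - t)]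
  have h2 := sum_le_sum h1
  rw [← sum_mul, sum_add_distrib, sum_const, nsmul_eq_mul] at h2
  have h3 : (F.card : ℝ) * t ^ 2 ≤ 2 * n * t ^ 2 := mul_le_mul_of_nonneg_right hF (by positivity)
  have h4 : (∑ N ∈ F, x N) * (2 * t) ≤ (3 * n * t) * (2 * t) := by
    calc _ ≤ _ := h2
      _ ≤ 4 * n * t ^ 2 + 2 * n * t ^ 2 := add_le_add h h3
      _ = _ := by ring
  exact le_of_mul_le_mul_right h4 (by positivity)

theorem tyTL (K Kk B : ℕ) : ∃ c10 : ℕ, ∀ c1 : ℕ, c10 ≤ c1 → ∃ C : ℕ, ∀ ε : ℝ, 0 < ε → ∃ M X0 : ℕ, 2 ≤ M ∧ ∀ (X H a k U w' : ℕ) (T : Finset ℕ),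
    X0 ≤ X → 2 ≤ k → k ≤ Kk → (∀ q ∈ T, q.Prime ∧ (Real.log X) ^ (c1 + 3) ≤ q ∧ q ≤ w') → 2 * w' ≤ U → U ^ (2 * M) ≤ X →
      1 / (Real.log X) ^ B ≤ sL k U T → 1 ≤ w' → (w' : ℝ) * (Real.log X) ^ C ≤ H → H * H ≤ X → ∀ S : Finset ℕ, S ⊆ Icc 1 H →
        ∑ N ∈ wnd X X (WX X) a, |(cE k U T S N : ℝ) - cX X * (Sa (WX X) S a).card * (sL k U T / Real.log X)| ≤
          ε * (X / WX X) * (cX X * max ((Sa (WX X) S a).card : ℝ) (H / (Real.log X) ^ K) * (sL k U T / Real.log X)) := by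
  obtain ⟨a1, ha1⟩ := scT K Kk B
  refine ⟨a1, fun c1 hc1 => ?_⟩
  obtain ⟨C, hC'⟩ := ha1 c1 hc1
  refine ⟨max C (K + B + 4), fun ε hε => ?_⟩
  obtain ⟨δ, hδd⟩ : ∃ δ : ℝ, δ = min ε 1 / 16 := ⟨_, rfl⟩
  have hδ0 : 0 < δ := by rw [hδd]; have := lt_min hε one_pos; positivity
  have hδ1 : δ ≤ 1 / 16 := by rw [hδd]; have := min_le_right ε 1; linarith
  have hδε : 12 * δ ≤ ε := by
    rw [hδd]
    have h1 := min_le_left ε 1
    have h2 := (lt_min hε one_pos).le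
    linarith
  obtain ⟨M, x0, hMK, hpt⟩ := WL.ptW Kk (c1 + 1) δ hδ0
  obtain ⟨X1, hX1⟩ := hC' (δ ^ 2 * δ ^ 2) (by positivity)
  obtain ⟨X2, hX2⟩ := ty_large 3 (max (max 3 (2 ^ (c1 + 2))) (max (3 / δ) x0))
  obtain ⟨X3, hX3⟩ := SW.cX_le_log
  obtain ⟨X4, hX4⟩ := exists_nat_ge (max ((3 / δ) ^ 2) x0)
  refine ⟨max M 2, max (max X1 X2) (max X3 X4), le_max_right _ _, fun X H a k U w' T hX hk hkK hT hU hUM hσ hw' hwH hHH S hS => ?_⟩
  obtain ⟨hL0, hLn, hX1'⟩ := hX2 X ((le_max_right _ _).trans ((le_max_left _ _).trans hX))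
  obtain ⟨hcL, hWL⟩ := hX3 X ((le_max_left _ _).trans ((le_max_right _ _).trans hX))
  have hXbig : max ((3 / δ) ^ 2) x0 ≤ X := by
    have h1 : (X4 : ℝ) ≤ X := by exact_mod_cast (le_max_right _ _).trans ((le_max_right _ _).trans hX)
    exact hX4.trans h1
  obtain ⟨L, hL⟩ : ∃ L, L = Real.log X := ⟨_, rfl⟩
  rw [← hL] at hL0 hLn hT hσ hwH hcL hWL
  have hL3 : 3 ≤ L := ((le_max_left _ _).trans (le_max_left _ _)).trans hL0
  have hLc : 2 ^ (c1 + 2) ≤ L := ((le_max_right _ _).trans (le_max_left _ _)).trans hL0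
  have hLε : 3 / δ ≤ L := ((le_max_left _ _).trans (le_max_right _ _)).trans hL0
  have hLp : 0 < L := by linarith
  have hL1 : 1 ≤ L := by linarith
  have hXp : (0 : ℝ) < X := by exact_mod_cast hX1'
  have hU1 : 1 ≤ U := by omega
  have hHX : H ≤ X := by nlinarith
  have hRg : ∀ M' : ℕ, M' ≤ 2 * max M 2 → RgL (4 * X) U w' (c1 + 1) M' T := by
    intro M' hM'
    refine ⟨fun q hq => ⟨(hT q hq).1, ?_, (hT q hq).2.2⟩, hU, ?_⟩
    · refine le_trans ?_ (hT q hq).2.1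
      have h1 : Real.log ((4 * X : ℕ) : ℝ) ≤ 2 * L := by
        calc Real.log ((4 * X : ℕ) : ℝ) = Real.log (4 * X) := by push_cast; rfl
          _ = Real.log 4 + L := by rw [Real.log_mul (by norm_num) hXp.ne', hL]
          _ ≤ 2 * L := by
              have h3 : Real.log 4 ≤ 3 := by
                have h4 : Real.log 4 = 2 * Real.log 2 := by
                  rw [show (4 : ℝ) = 2 ^ 2 by norm_num, Real.log_pow]; norm_num
                rw [h4]
                have := Real.log_two_lt_d9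
                linarith
              linarith
      have h0 : 0 ≤ Real.log ((4 * X : ℕ) : ℝ) := Real.log_natCast_nonneg _
      calc Real.log ((4 * X : ℕ) : ℝ) ^ (c1 + 1 + 1) ≤ (2 * L) ^ (c1 + 2) := pow_le_pow_left₀ h0 h1 _
        _ = 2 ^ (c1 + 2) * L ^ (c1 + 2) := mul_pow _ _ _
        _ ≤ L * L ^ (c1 + 2) := mul_le_mul_of_nonneg_right hLc (by positivity)
        _ = L ^ (c1 + 3) := by ring
    · have h1 : U ^ M' ≤ U ^ (2 * max M 2) := Nat.pow_le_pow_right hU1 hM'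
      omega
  have hwH' : (w' : ℝ) * L ^ C ≤ H := by
    refine le_trans (mul_le_mul_of_nonneg_left ?_ (Nat.cast_nonneg _)) hwH
    exact pow_le_pow_right₀ hL1 (le_max_left _ _)
  have hM2 : M ≤ 2 * max M 2 := by have := le_max_left M 2; omega
  have key := hX1 X H a k U w' T ((le_max_left _ _).trans ((le_max_left _ _).trans hX)) hk hkK (hRg _ (hMK.trans hM2))
    (by rw [← hL]; exact hσ) hw' (by rw [← hL]; exact hwH') hHH S hS
  rw [← hL] at key ⊢
  obtain ⟨σ, hσd⟩ : ∃ σ, σ = sL k U T := ⟨_, rfl⟩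
  obtain ⟨A, hA⟩ : ∃ A : ℝ, A = ((Sa (WX X) S a).card : ℝ) := ⟨_, rfl⟩
  obtain ⟨c, hc⟩ : ∃ c, c = cX X := ⟨_, rfl⟩
  obtain ⟨s, hs⟩ : ∃ s, s = σ / L := ⟨_, rfl⟩
  have hc1' : 1 ≤ c := by rw [hc]; exact SW.one_le_cX X
  rw [← hσd] at key ⊢ hσ
  rw [← hA, ← hc, ← hs] at key ⊢
  obtain ⟨m, hm⟩ : ∃ m, m = max A (H / L ^ K) := ⟨_, rfl⟩
  rw [← hm]
  have hAm : A ≤ m := by rw [hm]; exact le_max_left _ _
  have hXm : H / L ^ K ≤ m := by rw [hm]; exact le_max_right _ _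
  have hA0 : 0 ≤ A := by rw [hA]; positivity
  have hHL : L ^ (K + B + 4) ≤ H := by
    have h1 : (1 : ℝ) ≤ w' := by exact_mod_cast hw'
    calc L ^ (K + B + 4) ≤ L ^ max C (K + B + 4) := pow_le_pow_right₀ hL1 (le_max_right _ _)
      _ = 1 * L ^ max C (K + B + 4) := (one_mul _).symm
      _ ≤ w' * L ^ max C (K + B + 4) := mul_le_mul_of_nonneg_right h1 (by positivity)
      _ ≤ H := hwH
  have hH0 : (0 : ℝ) < H := lt_of_lt_of_le (by positivity) hHL
  have hXK : 0 < H / L ^ K := by positivity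
  have hm0 : 0 < m := hXK.trans_le hXm
  have hσ0 : 0 < σ := lt_of_lt_of_le (by positivity) hσ
  have hs0 : 0 < s := by rw [hs]; positivity
  have hG0 : 0 < c * m * s := by positivity
  -- the sum `Φ`
  obtain ⟨Φ, hΦ⟩ : ∃ Φ : ℕ → ℝ, ∀ N, Φ N = ∑ s ∈ S, T8.FZ X k U T (N - s) := ⟨_, fun _ => rfl⟩
  have hyG : c * A * s ≤ c * m * s := mul_le_mul_of_nonneg_right (mul_le_mul_of_nonneg_left hAm (by linarith)) hs0.le
  have hy0 : 0 ≤ c * A * s := by positivity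
  have hcmp : ∀ N ∈ wnd (X + H) (X - H) (WX X) a, |(cE k U T S N : ℝ) - c * A * s| ≤ 2 * |Φ N - c * A * s| + 2 * δ * (c * m * s) := by
    classical
    intro N hN
    unfold wnd at hN
    rw [mem_filter, mem_Ioc] at hN
    obtain ⟨⟨hN1, hN2⟩, _⟩ := hN
    have hcE : (cE k U T S N : ℝ) = ((S.filter fun s => s < N ∧ G8.EL k U T (N - s)).card : ℝ) := by
      unfold cE
      rfl
    have hpw : ∀ s ∈ S, 0 ≤ T8.FZ X k U T (N - s) ∧
        T8.FZ X k U T (N - s) ≤ (if s < N ∧ G8.EL k U T (N - s) then 1 else 0) ∧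
        (1 - δ) * (if s < N ∧ G8.EL k U T (N - s) then 1 else 0) ≤ T8.FZ X k U T (N - s) := by
      intro s hs
      have hs2 := mem_Icc.1 (hS hs)
      have e1 : X < N - s := by omega
      have e2 : N - s ≤ 3 * X := by omega
      have hsN : s < N := by omega
      obtain ⟨p1, p2, p3, p4⟩ := hpt X ((le_max_right _ _).trans hXbig) k U w' T hk hkK (hRg M hM2) (N - s) e1 e2
      refine ⟨p1, ?_, ?_⟩
      · by_cases hEL : G8.EL k U T (N - s)
        · rw [if_pos ⟨hsN, hEL⟩]; exact p2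
        · rw [if_neg fun h => hEL h.2]
          have : T8.FZ X k U T (N - s) = 0 := by
            by_contra h
            exact hEL (p3 h)
          rw [this]
      · by_cases hEL : G8.EL k U T (N - s)
        · rw [if_pos ⟨hsN, hEL⟩, mul_one]; exact p4 hEL
        · rw [if_neg fun h => hEL h.2, mul_zero]; exact p1
    have hΦ2 : Φ N ≤ (cE k U T S N : ℝ) := by
      rw [hΦ, hcE, natCast_card_filter]
      exact sum_le_sum fun s hs => (hpw s hs).2.1
    have hΦ1 : (1 - δ) * (cE k U T S N : ℝ) ≤ Φ N := by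
      rw [hΦ, hcE, natCast_card_filter, mul_sum]
      exact sum_le_sum fun s hs => (hpw s hs).2.2
    exact tl_arith hδ0 hδ1 (Nat.cast_nonneg _) hΦ1 hΦ2 hy0 hyG
  -- the numbers `N > X + H`
  have hWp : (0 : ℝ) < WX X := by exact_mod_cast SW.WX_pos X
  obtain ⟨n, hn⟩ : ∃ n : ℝ, n = X / WX X := ⟨_, rfl⟩
  have hn0 : 0 < n := by rw [hn]; positivity
  have hWX2 : 2 * (WX X : ℝ) ≤ X := by
    calc 2 * (WX X : ℝ) ≤ 2 * L ^ 2 := by linarith
      _ ≤ L * L ^ 2 := mul_le_mul_of_nonneg_right (by linarith) (by positivity)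
      _ = L ^ 3 := by ring
      _ ≤ X := hLn
  have hcard1 : ((wnd (X + H) (X - H) (WX X) a).card : ℝ) ≤ 2 * n := by
    have h1 := ty_few (X + H) (X - H) (WX X) a (SW.WX_pos X)
    have h2 : ((X - H : ℕ) : ℝ) / WX X ≤ X / WX X := by
      refine div_le_div_of_nonneg_right ?_ hWp.le
      exact_mod_cast Nat.sub_le _ _
    have h3 : 2 ≤ (X : ℝ) / WX X := by
      rw [le_div_iff₀ hWp]
      exact hWX2
    have h4 : ((wnd (X + H) (X - H) (WX X) a).card : ℝ) ≤ ((X - H : ℕ) : ℝ) / WX X + 2 := h1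
    rw [hn]
    linarith
  have hAm2 : (A + H / L ^ K) ^ 2 ≤ 4 * m ^ 2 := by
    have : A + H / L ^ K ≤ 2 * m := by linarith
    calc (A + H / L ^ K) ^ 2 ≤ (2 * m) ^ 2 := pow_le_pow_left₀ (by positivity) this 2
      _ = 4 * m ^ 2 := by ring
  have hx2 : ∑ N ∈ wnd (X + H) (X - H) (WX X) a, |Φ N - c * A * s| ^ 2 ≤ 4 * n * (δ * (c * m * s)) ^ 2 := by
    have e : ∑ N ∈ wnd (X + H) (X - H) (WX X) a, |Φ N - c * A * s| ^ 2 =
        ∑ N ∈ wnd (X + H) (X - H) (WX X) a, (∑ s ∈ S, T8.FZ X k U T (N - s) - c * A * s) ^ 2 :=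
      sum_congr rfl fun N _ => by rw [sq_abs, hΦ]
    rw [e]
    refine key.trans ?_
    rw [← hn]
    calc δ ^ 2 * δ ^ 2 * n * (c * s) ^ 2 * (A + H / L ^ K) ^ 2
        ≤ δ ^ 2 * δ ^ 2 * n * (c * s) ^ 2 * (4 * m ^ 2) := mul_le_mul_of_nonneg_left hAm2 (by positivity)
      _ ≤ 1 * δ ^ 2 * n * (c * s) ^ 2 * (4 * m ^ 2) := by
          have : δ ^ 2 ≤ 1 := pow_le_one₀ hδ0.le (by linarith)
          gcongr
      _ = 4 * n * (δ * (c * m * s)) ^ 2 := by ring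
  have hx1 := tl_mean _ (fun N => |Φ N - c * A * s|) (δ * (c * m * s)) n (by positivity) hcard1 hx2
  have hsum1 : ∑ N ∈ wnd (X + H) (X - H) (WX X) a, |(cE k U T S N : ℝ) - c * A * s| ≤ 10 * δ * (n * (c * m * s)) := by
    calc _ ≤ ∑ N ∈ wnd (X + H) (X - H) (WX X) a, (2 * |Φ N - c * A * s| + 2 * δ * (c * m * s)) := sum_le_sum hcmp
      _ = 2 * ∑ N ∈ wnd (X + H) (X - H) (WX X) a, |Φ N - c * A * s| + (wnd (X + H) (X - H) (WX X) a).card * (2 * δ * (c * m * s)) := by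
          rw [sum_add_distrib, ← mul_sum, sum_const, nsmul_eq_mul]
      _ ≤ 2 * (3 * n * (δ * (c * m * s))) + 2 * n * (2 * δ * (c * m * s)) :=
          add_le_add (mul_le_mul_of_nonneg_left hx1 (by norm_num)) (mul_le_mul_of_nonneg_right hcard1 (by positivity))
      _ = _ := by ring
  -- the numbers `N ≤ X + H`
  have hWH : (WX X : ℝ) ≤ H := by
    calc (WX X : ℝ) ≤ L ^ 2 := hWL
      _ ≤ L ^ (K + B + 4) := pow_le_pow_right₀ hL1 (by omega)
      _ ≤ H := hHL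
  have hcard2 : (((Ioc X (X + H)).filter fun N => N ≡ a [MOD WX X]).card : ℝ) ≤ 3 * H / WX X := by
    refine (ty_few X H (WX X) a (SW.WX_pos X)).trans ?_
    rw [le_div_iff₀ hWp]
    have h5 : ((H : ℝ) / WX X + 2) * WX X = H + 2 * WX X := by field_simp
    rw [h5]
    linarith
  have hHδ : 3 * (H : ℝ) ≤ δ * X := by
    have h1 : (3 / δ) * H ≤ X := by
      have h2 : ((3 / δ) * H) ^ 2 ≤ (X : ℝ) ^ 2 := by
        have h3 : (3 / δ) ^ 2 ≤ X := (le_max_left _ _).trans hXbig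
        have h4 : (H : ℝ) ^ 2 ≤ X := by
          have : ((H * H : ℕ) : ℝ) ≤ X := by exact_mod_cast hHH
          push_cast at this
          nlinarith
        calc ((3 / δ) * H) ^ 2 = (3 / δ) ^ 2 * (H : ℝ) ^ 2 := mul_pow _ _ _
          _ ≤ X * X := mul_le_mul h3 h4 (by positivity) hXp.le
          _ = (X : ℝ) ^ 2 := by ring
      exact le_of_sq_le_sq h2 hXp.le
    calc 3 * (H : ℝ) = δ * ((3 / δ) * H) := by field_simp
      _ ≤ δ * X := mul_le_mul_of_nonneg_left h1 hδ0.le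
  have hGlow : H / L ^ (K + B + 1) ≤ c * m * s := by
    calc (H : ℝ) / L ^ (K + B + 1) = 1 * (H / L ^ K) * ((1 / L ^ B) / L) := by
          rw [show K + B + 1 = (K + B) + 1 by ring, pow_succ L (K + B), pow_add L K B]
          field_simp
      _ ≤ c * m * s := by
          rw [hs]
          gcongr
  have hHG : 3 * (H : ℝ) * H ≤ δ * X * (c * m * s) := by
    have h1 : 3 * (L ^ (K + B + 1) * H) ≤ δ * X := by
      have h2 : (3 / δ) * L ^ (K + B + 1) ≤ H := by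
        calc (3 / δ) * L ^ (K + B + 1) ≤ L * L ^ (K + B + 1) := mul_le_mul_of_nonneg_right hLε (by positivity)
          _ = L ^ (K + B + 2) := by ring
          _ ≤ L ^ (K + B + 4) := pow_le_pow_right₀ hL1 (by omega)
          _ ≤ H := hHL
      have h3 : (H : ℝ) * H ≤ X := by exact_mod_cast hHH
      calc 3 * (L ^ (K + B + 1) * H) = δ * (((3 / δ) * L ^ (K + B + 1)) * H) := by field_simp
        _ ≤ δ * (H * H) := by gcongr
        _ ≤ δ * X := by gcongr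
    calc 3 * (H : ℝ) * H = 3 * (L ^ (K + B + 1) * H) * (H / L ^ (K + B + 1)) := by field_simp
      _ ≤ δ * X * (c * m * s) := by gcongr
  have hpt2 : ∀ N ∈ (Ioc X (X + H)).filter (fun N => N ≡ a [MOD WX X]), |(cE k U T S N : ℝ) - c * A * s| ≤ H + c * m * s := by
    intro N _
    have h1 : (cE k U T S N : ℝ) ≤ H := by
      have h2 : cE k U T S N ≤ H := by
        classical
        have h4 : S.card ≤ H := by
          have := card_le_card hS
          rwa [Nat.card_Icc, Nat.add_sub_cancel] at this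
        refine le_trans ?_ h4
        unfold cE
        exact card_filter_le _ _
      exact_mod_cast h2
    have h3 : (0 : ℝ) ≤ (cE k U T S N : ℝ) := Nat.cast_nonneg _
    rw [abs_le]
    constructor <;> linarith
  have hsum2 : ∑ N ∈ (Ioc X (X + H)).filter (fun N => N ≡ a [MOD WX X]), |(cE k U T S N : ℝ) - c * A * s| ≤ 2 * δ * (n * (c * m * s)) := by
    calc _ ≤ ∑ N ∈ (Ioc X (X + H)).filter (fun N => N ≡ a [MOD WX X]), (H + c * m * s) := sum_le_sum hpt2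
      _ = ((Ioc X (X + H)).filter fun N => N ≡ a [MOD WX X]).card * (H + c * m * s) := by rw [sum_const, nsmul_eq_mul]
      _ ≤ (3 * H / WX X) * (H + c * m * s) := mul_le_mul_of_nonneg_right hcard2 (by positivity)
      _ = (3 * H * H + 3 * H * (c * m * s)) / WX X := by ring
      _ ≤ (δ * X * (c * m * s) + δ * X * (c * m * s)) / WX X := by
          refine div_le_div_of_nonneg_right (add_le_add hHG ?_) hWp.le
          exact mul_le_mul_of_nonneg_right hHδ hG0.le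
      _ = 2 * δ * (n * (c * m * s)) := by rw [hn]; ring
  have hsub : wnd X X (WX X) a ⊆ wnd (X + H) (X - H) (WX X) a ∪ (Ioc X (X + H)).filter fun N => N ≡ a [MOD WX X] := by
    intro N hN
    unfold wnd at hN
    rw [mem_filter, mem_Ioc] at hN
    obtain ⟨⟨h1, h2⟩, h3⟩ := hN
    rw [mem_union]
    by_cases hNH : N ≤ X + H
    · right
      rw [mem_filter, mem_Ioc]
      exact ⟨⟨h1, hNH⟩, h3⟩
    · left
      unfold wnd
      rw [mem_filter, mem_Ioc]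
      exact ⟨⟨by omega, by omega⟩, h3⟩
  rw [← hn]
  calc ∑ N ∈ wnd X X (WX X) a, |(cE k U T S N : ℝ) - c * A * s|
      ≤ ∑ N ∈ wnd (X + H) (X - H) (WX X) a ∪ (Ioc X (X + H)).filter (fun N => N ≡ a [MOD WX X]), |(cE k U T S N : ℝ) - c * A * s| :=
        sum_le_sum_of_subset_of_nonneg hsub fun _ _ _ => abs_nonneg _
    _ ≤ ∑ N ∈ wnd (X + H) (X - H) (WX X) a, |(cE k U T S N : ℝ) - c * A * s| +
        ∑ N ∈ (Ioc X (X + H)).filter (fun N => N ≡ a [MOD WX X]), |(cE k U T S N : ℝ) - c * A * s| := by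
        rw [← sum_union_inter]
        exact le_add_of_nonneg_right (sum_nonneg fun _ _ => abs_nonneg _)
    _ ≤ 10 * δ * (n * (c * m * s)) + 2 * δ * (n * (c * m * s)) := add_le_add hsum1 hsum2
    _ = 12 * δ * (n * (c * m * s)) := by ring
    _ ≤ ε * (n * (c * m * s)) := mul_le_mul_of_nonneg_right hδε (by positivity)
    _ = ε * n * (c * m * s) := by ring

end Pool.Agent.Lib.WT
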