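import Pool.Agent.Lib.WT.Sc
import Pool.Agent.Lib.WL.Pt

/-!
# WT, row Ty: the number of the `s ∈ S` with `N - s` typical (compare WL/Ty.lean, landed; here there is only one block)

PROOF IN WORDS. `L = log X`; `scT K Kk B` gives `a1`; `c10 = a1`; for `c1 ≥ c10` its `C`. `δ = min ε 1/16`; `ptW Kk (c1 + 1) δ` gives `M ≥ 1000 Kk` (take the maximum with `2`; `RgL` is monotone in `M` as `U ≥ 1`, see WL/Ty). `RgL (4X) U w' (c1 + 1) M T` from the hypotheses on `T` exactly as in WL/Ty.lean (there for `4Y`, `Y ≤ 2X`; here `Y = X`: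
`(log 4X)^(c1+2) ≤ L^(c1+3) ≤ q` for large `X`, `U^M ≤ √X ≤ 4X`). For `N` in `wnd (X + H) (X - H) W a` let `Φ = ∑_{s ∈ S} FZ X k U T (N - s)`, `E = cE k U T S N` (all `s ≤ H < N`): by `ptW` with `Y = X` (`N - s ∈ (X, 2X]`) `(1-δ) E ≤ Φ ≤ E`. `A = |Sa|`, `m = max A (H/L^K)`. If `|Φ - c A σ/L| ≤ δ c m σ/L`
then `|E - c A σ/L| ≤ ε c m σ/L` (`δ ≤ ε/16`). By `scT` with `ε'' = ε δ^2/16` and Chebyshev (`(A + H/L^K)^2 ≤ 4 m^2`) this fails for at most `(ε/2) X/W` of these `N`; the other `N` of `wnd X X W a` are in `(X, X + H]`: at most `H/W + 1 ≤ (ε/2) X/W` (`H^2 ≤ X`, `W ≤ L^2`).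
-/

set_option autoImplicit false

open Finset

namespace Pool.Agent.Lib.WT

open Pool.Agent.Lib.SW (WX cX Sa)
open Pool.Agent.Lib.WL (wnd cE)
open Pool.Agent.Lib.G8 (RgL sL)

private theorem ty_large (n : ℕ) (L0 : ℝ) : ∃ X0 : ℕ, ∀ X : ℕ, X0 ≤ X → L0 ≤ Real.log X ∧ (Real.log X) ^ n ≤ X ∧ 1 ≤ X := by
  have h1 := (Real.isLittleO_pow_log_id_atTop (n := n)).def (one_pos : (0 : ℝ) < 1)
  have h2 := Real.tendsto_log_atTop.eventually_ge_atTop (max L0 0)
  obtain ⟨x0, hx0⟩ := Filter.eventually_atTop.1 (h1.and (h2.and (Filter.eventually_ge_atTop 1)))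
  obtain ⟨X0, hX0⟩ := exists_nat_ge x0
  refine ⟨X0, fun X hX => ?_⟩
  obtain ⟨a1, a2, a3⟩ := hx0 X (hX0.trans (by exact_mod_cast hX))
  have a4 : 0 ≤ Real.log X := (le_max_right _ _).trans a2
  rw [Real.norm_of_nonneg (pow_nonneg a4 n), id, Real.norm_of_nonneg (by linarith), one_mul] at a1
  exact ⟨(le_max_left _ _).trans a2, a1, by exact_mod_cast a3⟩

/-- the number of the `N` in a class and in an interval -/
private theorem ty_few (X H W a : ℕ) (hW : 0 < W) :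
    (((Ioc X (X + H)).filter fun N => N ≡ a [MOD W]).card : ℝ) ≤ (H : ℝ) / W + 2 := by
  classical
  have h1 : ((Ioc X (X + H)).filter fun N => N ≡ a [MOD W]).card ≤ (Icc (X / W) ((X + H) / W)).card := by
    refine card_le_card_of_injOn (fun N => N / W) ?_ ?_
    · intro N hN
      rw [mem_coe, mem_filter, mem_Ioc] at hN
      rw [mem_coe, mem_Icc]
      exact ⟨Nat.div_le_div_right hN.1.1.le, Nat.div_le_div_right hN.1.2⟩
    · intro N hN N' hN' h
      rw [mem_coe, mem_filter] at hN hN'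
      have h2 : N % W = N' % W := hN.2.trans hN'.2.symm
      have h3 := Nat.div_add_mod N W
      have h4 := Nat.div_add_mod N' W
      simp only at h
      rw [← h3, ← h4, h, h2]
  rw [Nat.card_Icc] at h1
  have h2 : (X + H) / W ≤ X / W + H / W + 1 := by
    rw [← Nat.lt_succ_iff, Nat.div_lt_iff_lt_mul hW]
    have h3 := Nat.div_add_mod X W
    have h4 := Nat.div_add_mod H W
    have h5 := Nat.mod_lt X hW
    have h6 := Nat.mod_lt H hW
    nlinarith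
  have h0 := Nat.zero_le (H / W)
  have h3 : ((Ioc X (X + H)).filter fun N => N ≡ a [MOD W]).card ≤ H / W + 2 := by omega
  have h4 : ((H / W : ℕ) : ℝ) ≤ (H : ℝ) / W := Nat.cast_div_le
  calc (((Ioc X (X + H)).filter fun N => N ≡ a [MOD W]).card : ℝ) ≤ ((H / W + 2 : ℕ) : ℝ) := by exact_mod_cast h3
    _ = ((H / W : ℕ) : ℝ) + 2 := by push_cast; ring
    _ ≤ _ := by linarith

/-- the arithmetic of the comparison -/
private theorem ty_arith {δ E E' Φ A A' R c s m : ℝ} (hδ0 : 0 < δ) (hδ : δ ≤ 1 / 16) (hE' : 0 ≤ E') (h1 : (1 - δ) * E' ≤ Φ)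
    (h2 : Φ ≤ E') (h3 : E' ≤ E) (h4 : E ≤ E' + R) (h5 : A' ≤ A) (h6 : A ≤ A' + R) (hc : 1 ≤ c) (hs : 0 ≤ s) (hA : A ≤ m)
    (hA0 : 0 ≤ A) (hR : R ≤ δ * (m * s)) (hR2 : R ≤ δ * m) (hΦ : |Φ - c * A' * s| ≤ δ * (c * m * s)) :
    |E - c * A * s| ≤ 5 * δ * (c * m * s) := by
  have hm : 0 ≤ m := hA0.trans hA
  obtain ⟨G, hG⟩ : ∃ G, G = c * m * s := ⟨_, rfl⟩
  have hG0 : 0 ≤ G := by rw [hG]; positivity
  have hms : m * s ≤ G := by
    rw [hG, mul_assoc]
    nlinarith [mul_nonneg hm hs]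
  have hRG : R ≤ δ * G := hR.trans (mul_le_mul_of_nonneg_left hms hδ0.le)
  have hcs : 0 ≤ c * s := by positivity
  have hRc : c * R * s ≤ δ * G := by
    have := mul_le_mul_of_nonneg_left hR2 hcs
    rw [hG]
    nlinarith
  have hAG : c * A * s ≤ G := by
    have := mul_le_mul_of_nonneg_left hA hcs
    rw [hG]
    nlinarith
  have hA'1 : c * A' * s ≤ c * A * s := by
    have := mul_le_mul_of_nonneg_left h5 hcs
    nlinarith
  have hA'2 : c * A * s ≤ c * A' * s + c * R * s := by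
    have := mul_le_mul_of_nonneg_left h6 hcs
    nlinarith
  rw [← hG] at hΦ ⊢
  rw [abs_le] at hΦ ⊢
  obtain ⟨p1, p2⟩ := hΦ
  constructor
  · linarith [mul_nonneg hδ0.le hG0]
  · have q1 : (1 - δ) * E' ≤ c * A * s + δ * G := by linarith
    have q2 : E' ≤ (1 + 2 * δ) * ((1 - δ) * E') := by nlinarith [mul_nonneg hδ0.le hE']
    have q3 : E' ≤ (1 + 2 * δ) * (c * A * s + δ * G) := q2.trans (mul_le_mul_of_nonneg_left q1 (by linarith))
    have q4 : (1 + 2 * δ) * (c * A * s + δ * G) ≤ c * A * s + 4 * (δ * G) := by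
      nlinarith [mul_nonneg hδ0.le hG0, mul_nonneg (mul_nonneg hδ0.le hG0) hδ0.le, mul_le_mul_of_nonneg_left hAG hδ0.le]
    linarith

theorem tyT (K Kk B : ℕ) : ∃ c10 : ℕ, ∀ c1 : ℕ, c10 ≤ c1 → ∃ C : ℕ, ∀ ε : ℝ, 0 < ε → ∃ M X0 : ℕ, 2 ≤ M ∧ ∀ (X H a k U w' : ℕ) (T : Finset ℕ),
    X0 ≤ X → 2 ≤ k → k ≤ Kk → (∀ q ∈ T, q.Prime ∧ (Real.log X) ^ (c1 + 3) ≤ q ∧ q ≤ w') → 2 * w' ≤ U → U ^ (2 * M) ≤ X →
      1 / (Real.log X) ^ B ≤ sL k U T → 1 ≤ w' → (w' : ℝ) * (Real.log X) ^ C ≤ H → H * H ≤ X → ∀ S : Finset ℕ, S ⊆ Icc 1 H →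
        (((wnd X X (WX X) a).filter fun N => ε * (cX X * max ((Sa (WX X) S a).card : ℝ) (H / (Real.log X) ^ K) * (sL k U T / Real.log X)) <
          |(cE k U T S N : ℝ) - cX X * (Sa (WX X) S a).card * (sL k U T / Real.log X)|).card : ℝ) ≤ ε * (X / WX X) := by
  obtain ⟨a1, ha1⟩ := scT K Kk B
  refine ⟨a1, fun c1 hc1 => ?_⟩
  obtain ⟨C, hC'⟩ := ha1 c1 hc1
  refine ⟨C, fun ε hε => ?_⟩
  obtain ⟨δ, hδd⟩ : ∃ δ : ℝ, δ = min ε 1 / 16 := ⟨_, rfl⟩
  have hδ0 : 0 < δ := by rw [hδd]; have := lt_min hε one_pos; positivity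
  have hδ1 : δ ≤ 1 / 16 := by rw [hδd]; have := min_le_right ε 1; linarith
  have hδε : 5 * δ ≤ ε := by
    rw [hδd]
    have h1 := min_le_left ε 1
    have h2 := (lt_min hε one_pos).le
    linarith
  obtain ⟨M, x0, hMK, hpt⟩ := WL.ptW Kk (c1 + 1) δ hδ0
  obtain ⟨X1, hX1⟩ := hC' (ε * δ ^ 2 / 8) (by positivity)
  obtain ⟨X2, hX2⟩ := ty_large 3 (max (max 3 (2 ^ (c1 + 2))) (max (16 / ε) x0))
  obtain ⟨X3, hX3⟩ := SW.cX_le_log
  obtain ⟨X4, hX4⟩ := exists_nat_ge (max ((8 / ε) ^ 2) x0)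
  refine ⟨max M 2, max (max X1 X2) (max X3 X4), le_max_right _ _, fun X H a k U w' T hX hk hkK hT hU hUM hσ hw' hwH hHH S hS => ?_⟩
  obtain ⟨hL0, hLn, hX1'⟩ := hX2 X ((le_max_right _ _).trans ((le_max_left _ _).trans hX))
  obtain ⟨hcL, hWL⟩ := hX3 X ((le_max_left _ _).trans ((le_max_right _ _).trans hX))
  have hXbig : max ((8 / ε) ^ 2) x0 ≤ X := by
    have h1 : (X4 : ℝ) ≤ X := by exact_mod_cast (le_max_right _ _).trans ((le_max_right _ _).trans hX)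
    exact hX4.trans h1
  obtain ⟨L, hL⟩ : ∃ L, L = Real.log X := ⟨_, rfl⟩
  rw [← hL] at hL0 hLn hT hσ hwH hcL hWL
  have hL3 : 3 ≤ L := ((le_max_left _ _).trans (le_max_left _ _)).trans hL0
  have hLc : 2 ^ (c1 + 2) ≤ L := ((le_max_right _ _).trans (le_max_left _ _)).trans hL0
  have hLε : 16 / ε ≤ L := ((le_max_left _ _).trans (le_max_right _ _)).trans hL0
  have hLp : 0 < L := by linarith
  have hL1 : 1 ≤ L := by linarith
  have hXp : (0 : ℝ) < X := by exact_mod_cast hX1'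
  have hU1 : 1 ≤ U := by omega
  have hHX : H ≤ X := by nlinarith
  have hRg : ∀ M' : ℕ, M' ≤ 2 * max M 2 → RgL (4 * X) U w' (c1 + 1) M' T := by
    intro M' hM'
    refine ⟨fun q hq => ⟨(hT q hq).1, ?_, (hT q hq).2.2⟩, hU, ?_⟩
    · refine le_trans ?_ (hT q hq).2.1
      have h1 : Real.log ((4 * X : ℕ) : ℝ) ≤ 2 * L := by
        calc Real.log ((4 * X : ℕ) : ℝ) = Real.log (4 * X) := by push_cast; rfl
          _ = Real.log 4 + L := by rw [Real.log_mul (by norm_num) hXp.ne', hL]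
          _ ≤ 2 * L := by
              have h3 : Real.log 4 ≤ 3 := by
                have h4 : Real.log 4 = 2 * Real.log 2 := by
                  rw [show (4 : ℝ) = 2 ^ 2 by norm_num, Real.log_pow]; norm_num
                rw [h4]
                have := Real.log_two_lt_d9
                linarith
              linarith
      have h0 : 0 ≤ Real.log ((4 * X : ℕ) : ℝ) := Real.log_natCast_nonneg _
      calc Real.log ((4 * X : ℕ) : ℝ) ^ (c1 + 1 + 1) ≤ (2 * L) ^ (c1 + 2) := pow_le_pow_left₀ h0 h1 _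
        _ = 2 ^ (c1 + 2) * L ^ (c1 + 2) := mul_pow _ _ _
        _ ≤ L * L ^ (c1 + 2) := mul_le_mul_of_nonneg_right hLc (by positivity)
        _ = L ^ (c1 + 3) := by ring
    · have h1 : U ^ M' ≤ U ^ (2 * max M 2) := Nat.pow_le_pow_right hU1 hM'
      omega
  have hM2 : M ≤ 2 * max M 2 := by have := le_max_left M 2; omega
  have key := hX1 X H a k U w' T ((le_max_left _ _).trans ((le_max_left _ _).trans hX)) hk hkK (hRg _ (hMK.trans hM2))
    (by rw [← hL]; exact hσ) hw' (by rw [← hL]; exact hwH) hHH S hS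
  rw [← hL] at key ⊢
  obtain ⟨σ, hσd⟩ : ∃ σ, σ = sL k U T := ⟨_, rfl⟩
  obtain ⟨A, hA⟩ : ∃ A : ℝ, A = ((Sa (WX X) S a).card : ℝ) := ⟨_, rfl⟩
  obtain ⟨c, hc⟩ : ∃ c, c = cX X := ⟨_, rfl⟩
  obtain ⟨s, hs⟩ : ∃ s, s = σ / L := ⟨_, rfl⟩
  have hc1' : 1 ≤ c := by rw [hc]; exact SW.one_le_cX X
  rw [← hσd] at key ⊢ hσ
  rw [← hA, ← hc, ← hs] at key ⊢
  obtain ⟨m, hm⟩ : ∃ m, m = max A (H / L ^ K) := ⟨_, rfl⟩
  rw [← hm]
  have hAm : A ≤ m := by rw [hm]; exact le_max_left _ _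
  have hXm : H / L ^ K ≤ m := by rw [hm]; exact le_max_right _ _
  have hA0 : 0 ≤ A := by rw [hA]; positivity
  have hH0 : (0 : ℝ) < H := by
    have h1 : (1 : ℝ) ≤ w' := by exact_mod_cast hw'
    have h2 : 0 < (w' : ℝ) * L ^ C := by positivity
    linarith
  have hXK : 0 < H / L ^ K := by positivity
  have hm0 : 0 < m := hXK.trans_le hXm
  have hσ0 : 0 < σ := lt_of_lt_of_le (by positivity) hσ
  have hs0 : 0 < s := by rw [hs]; positivity
  have hG0 : 0 < c * m * s := by positivity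
  -- the sum `Φ`
  obtain ⟨Φ, hΦ⟩ : ∃ Φ : ℕ → ℝ, ∀ N, Φ N = ∑ s ∈ S, T8.FZ X k U T (N - s) := ⟨_, fun _ => rfl⟩
  have hcmp : ∀ N ∈ wnd (X + H) (X - H) (WX X) a, |Φ N - c * A * s| ≤ δ * (c * m * s) → |(cE k U T S N : ℝ) - c * A * s| ≤ 5 * δ * (c * m * s) := by
    classical
    intro N hN hΦN
    unfold wnd at hN
    rw [mem_filter, mem_Ioc] at hN
    obtain ⟨⟨hN1, hN2⟩, _⟩ := hN
    have hcE : (cE k U T S N : ℝ) = ((S.filter fun s => s < N ∧ G8.EL k U T (N - s)).card : ℝ) := by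
      unfold cE
      rfl
    have hpw : ∀ s ∈ S, 0 ≤ T8.FZ X k U T (N - s) ∧
        T8.FZ X k U T (N - s) ≤ (if s < N ∧ G8.EL k U T (N - s) then 1 else 0) ∧
        (1 - δ) * (if s < N ∧ G8.EL k U T (N - s) then 1 else 0) ≤ T8.FZ X k U T (N - s) := by
      intro s hs
      have hs2 := mem_Icc.1 (hS hs)
      have e1 : X < N - s := by omega
      have e2 : N - s ≤ 3 * X := by omega
      have hsN : s < N := by omega
      obtain ⟨p1, p2, p3, p4⟩ := hpt X ((le_max_right _ _).trans hXbig) k U w' T hk hkK (hRg M hM2) (N - s) e1 e2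
      refine ⟨p1, ?_, ?_⟩
      · by_cases hEL : G8.EL k U T (N - s)
        · rw [if_pos ⟨hsN, hEL⟩]; exact p2
        · rw [if_neg fun h => hEL h.2]
          have : T8.FZ X k U T (N - s) = 0 := by
            by_contra h
            exact hEL (p3 h)
          rw [this]
      · by_cases hEL : G8.EL k U T (N - s)
        · rw [if_pos ⟨hsN, hEL⟩, mul_one]; exact p4 hEL
        · rw [if_neg fun h => hEL h.2, mul_zero]; exact p1
    have hΦ2 : Φ N ≤ (cE k U T S N : ℝ) := by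
      rw [hΦ, hcE, natCast_card_filter]
      exact sum_le_sum fun s hs => (hpw s hs).2.1
    have hΦ1 : (1 - δ) * (cE k U T S N : ℝ) ≤ Φ N := by
      rw [hΦ, hcE, natCast_card_filter, mul_sum]
      exact sum_le_sum fun s hs => (hpw s hs).2.2
    exact ty_arith (R := 0) hδ0 hδ1 (Nat.cast_nonneg _) hΦ1 hΦ2 le_rfl (by linarith) le_rfl (by linarith) hc1' hs0.le hAm hA0
      (by positivity) (by positivity) hΦN
  -- Chebyshev
  obtain ⟨Bd, hBd⟩ : ∃ Bd : Finset ℕ, Bd = (wnd (X + H) (X - H) (WX X) a).filter fun N => ε * (c * m * s) < |(cE k U T S N : ℝ) - c * A * s| :=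
    ⟨_, rfl⟩
  have hbig : ∀ N ∈ Bd, (δ * (c * m * s)) ^ 2 ≤ (Φ N - c * A * s) ^ 2 := by
    intro N hN
    rw [hBd, mem_filter] at hN
    have h1 : δ * (c * m * s) ≤ |Φ N - c * A * s| := by
      by_contra h
      have h2 := hcmp N hN.1 (not_le.1 h).le
      have h3 : 5 * δ * (c * m * s) ≤ ε * (c * m * s) := mul_le_mul_of_nonneg_right hδε hG0.le
      linarith [hN.2]
    rw [← sq_abs (Φ N - c * A * s)]
    exact pow_le_pow_left₀ (by positivity) h1 2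
  have hsum : (Bd.card : ℝ) * (δ * (c * m * s)) ^ 2 ≤ ε * δ ^ 2 / 8 * (X / WX X) * (c * s) ^ 2 * (A + H / L ^ K) ^ 2 := by
    calc (Bd.card : ℝ) * (δ * (c * m * s)) ^ 2 = ∑ _N ∈ Bd, (δ * (c * m * s)) ^ 2 := by rw [sum_const, nsmul_eq_mul]
      _ ≤ ∑ N ∈ Bd, (Φ N - c * A * s) ^ 2 := sum_le_sum hbig
      _ ≤ ∑ N ∈ wnd (X + H) (X - H) (WX X) a, (Φ N - c * A * s) ^ 2 :=
          sum_le_sum_of_subset_of_nonneg (by rw [hBd]; exact filter_subset _ _) fun _ _ _ => sq_nonneg _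
      _ ≤ _ := by
          have e : ∑ N ∈ wnd (X + H) (X - H) (WX X) a, (Φ N - c * A * s) ^ 2 =
            ∑ N ∈ wnd (X + H) (X - H) (WX X) a, (∑ s ∈ S, T8.FZ X k U T (N - s) - c * A * s) ^ 2 :=
            sum_congr rfl fun N _ => by rw [hΦ]
          rw [e]
          exact key
  have hWp : (0 : ℝ) < WX X := by exact_mod_cast SW.WX_pos X
  have hW : (0 : ℝ) ≤ X / WX X := by positivity
  have hAm2 : (A + H / L ^ K) ^ 2 ≤ 4 * m ^ 2 := by
    have : A + H / L ^ K ≤ 2 * m := by linarith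
    calc (A + H / L ^ K) ^ 2 ≤ (2 * m) ^ 2 := pow_le_pow_left₀ (by positivity) this 2
      _ = 4 * m ^ 2 := by ring
  have hfin : (Bd.card : ℝ) * (δ * (c * m * s)) ^ 2 ≤ ε / 2 * (X / WX X) * (δ * (c * m * s)) ^ 2 := by
    refine hsum.trans ?_
    calc ε * δ ^ 2 / 8 * (X / WX X) * (c * s) ^ 2 * (A + H / L ^ K) ^ 2
        ≤ ε * δ ^ 2 / 8 * (X / WX X) * (c * s) ^ 2 * (4 * m ^ 2) := mul_le_mul_of_nonneg_left hAm2 (by positivity)
      _ = ε / 2 * (X / WX X) * (δ * (c * m * s)) ^ 2 := by ring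
  have hBd1 : (Bd.card : ℝ) ≤ ε / 2 * (X / WX X) := le_of_mul_le_mul_right hfin (by positivity)
  -- the numbers `N ≤ X + H`
  have hrest : (((Ioc X (X + H)).filter fun N => N ≡ a [MOD WX X]).card : ℝ) ≤ ε / 2 * (X / WX X) := by
    refine (ty_few X H (WX X) a (SW.WX_pos X)).trans ?_
    have h1 : (8 / ε) * H ≤ X := by
      have h2 : ((8 / ε) * H) ^ 2 ≤ (X : ℝ) ^ 2 := by
        have h3 : (8 / ε) ^ 2 ≤ X := (le_max_left _ _).trans hXbig
        have h4 : (H : ℝ) ^ 2 ≤ X := by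
          have : ((H * H : ℕ) : ℝ) ≤ X := by exact_mod_cast hHH
          push_cast at this
          nlinarith
        calc ((8 / ε) * H) ^ 2 = (8 / ε) ^ 2 * (H : ℝ) ^ 2 := mul_pow _ _ _
          _ ≤ X * X := mul_le_mul h3 h4 (by positivity) hXp.le
          _ = (X : ℝ) ^ 2 := by ring
      exact le_of_sq_le_sq h2 hXp.le
    have h2 : (H : ℝ) ≤ ε / 8 * X := by
      have h3 : (H : ℝ) = ε / 8 * ((8 / ε) * H) := by field_simp
      rw [h3]
      exact mul_le_mul_of_nonneg_left h1 (by positivity)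
    have h3 : (WX X : ℝ) ≤ ε / 16 * X := by
      have h4 : (16 / ε) * L ^ 2 ≤ X := by
        calc (16 / ε) * L ^ 2 ≤ L * L ^ 2 := mul_le_mul_of_nonneg_right hLε (by positivity)
          _ = L ^ 3 := by ring
          _ ≤ X := hLn
      calc (WX X : ℝ) ≤ L ^ 2 := hWL
        _ = ε / 16 * ((16 / ε) * L ^ 2) := by field_simp
        _ ≤ ε / 16 * X := mul_le_mul_of_nonneg_left h4 (by positivity)
    have h5 : (H : ℝ) / WX X + 2 = (H + 2 * WX X) / WX X := by field_simp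
    rw [h5, ← mul_div_assoc]
    refine div_le_div_of_nonneg_right ?_ hWp.le
    have : 0 ≤ ε * X := by positivity
    linarith
  have hsub : ((wnd X X (WX X) a).filter fun N => ε * (c * m * s) < |(cE k U T S N : ℝ) - c * A * s|) ⊆
      Bd ∪ ((Ioc X (X + H)).filter fun N => N ≡ a [MOD WX X]) := by
    intro N hN
    unfold wnd at hN
    rw [mem_filter, mem_filter, mem_Ioc] at hN
    obtain ⟨⟨⟨h1, h2⟩, h3⟩, h4⟩ := hN
    rw [mem_union]
    by_cases hNH : N ≤ X + H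
    · right
      rw [mem_filter, mem_Ioc]
      exact ⟨⟨h1, hNH⟩, h3⟩
    · left
      rw [hBd]
      unfold wnd
      rw [mem_filter, mem_filter, mem_Ioc]
      exact ⟨⟨⟨by omega, by omega⟩, h3⟩, h4⟩
  have hcard := (card_le_card hsub).trans (card_union_le _ _)
  have hcard' : ((((wnd X X (WX X) a).filter fun N => ε * (c * m * s) < |(cE k U T S N : ℝ) - c * A * s|).card : ℕ) : ℝ) ≤
      (Bd.card : ℝ) + (((Ioc X (X + H)).filter fun N => N ≡ a [MOD WX X]).card : ℝ) := by exact_mod_cast hcard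
  linarith

end Pool.Agent.Lib.WT
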